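import Mathlib

open MeasureTheory Set Filter Topology
open scoped ContDiff

namespace NewtonInf

/-- the two-dimensional torus -/
abbrev TT := UnitAddCircle × UnitAddCircle

/-- continuous functions on the torus -/
abbrev BB := C(TT, ℝ)

/-- composition with a continuous self-map of the torus -/
noncomputable def pull (ρ : C(TT, TT)) : BB →L[ℝ] BB :=
  LinearMap.mkContinuous
    { toFun := fun f => f.comp ρ
      map_add' := fun _ _ => rfl
      map_smul' := fun _ _ => rfl } 1 (by
    intro f
    rw [one_mul]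
    exact (ContinuousMap.norm_le _ (norm_nonneg _)).mpr fun z => f.norm_coe_le_norm _)

@[simp] lemma pull_apply (ρ : C(TT, TT)) (f : BB) (z : TT) : pull ρ f z = f (ρ z) := rfl

lemma pull_mul (ρ : C(TT, TT)) (f g : BB) : pull ρ (f * g) = pull ρ f * pull ρ g := rfl

lemma pull_one (ρ : C(TT, TT)) : pull ρ 1 = 1 := rfl

lemma pull_pull (ρ σ : C(TT, TT)) (f : BB) : pull ρ (pull σ f) = pull (σ.comp ρ) f := rfl

lemma norm_pull_le (ρ : C(TT, TT)) (f : BB) : ‖pull ρ f‖ ≤ ‖f‖ :=
  (ContinuousMap.norm_le _ (norm_nonneg _)).mpr fun z => f.norm_coe_le_norm _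

/-- translation -/
noncomputable def shf (w : TT) : C(TT, TT) := ⟨fun z => z + w, by fun_prop⟩

@[simp] lemma shf_apply (w z : TT) : shf w z = z + w := rfl

lemma cont_shf (f : BB) : Continuous fun w : TT => pull (shf w) f := by
  apply ContinuousMap.continuous_of_continuous_uncurry
  change Continuous fun q : TT × TT => f (q.2 + q.1)
  fun_prop

/-- the two coordinate directions -/
noncomputable def dir : Bool → ℝ → TT
  | false, τ => ((τ : UnitAddCircle), 0)
  | true, τ => (0, (τ : UnitAddCircle))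

lemma cont_dir (d : Bool) : Continuous (dir d) := by
  cases d
  · exact (AddCircle.continuous_mk' 1).prodMk continuous_const
  · exact continuous_const.prodMk (AddCircle.continuous_mk' 1)

lemma dir_add (d : Bool) (s t : ℝ) : dir d (s + t) = dir d s + dir d t := by
  cases d <;> simp [dir]

lemma dir_one (d : Bool) : dir d 1 = 0 := by
  have h : ((1 : ℝ) : UnitAddCircle) = 0 := AddCircle.coe_period 1
  cases d <;> simp [dir, h]

lemma dir_zero (d : Bool) : dir d 0 = 0 := by
  cases d <;> simp [dir]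

lemma dir_neg (d : Bool) (s : ℝ) : dir d (-s) = - dir d s := by
  cases d <;> simp [dir]

/-- averaging operator with kernel `k` -/
noncomputable def Kop (k : C(ℝ, ℝ)) (d : Bool) : BB →L[ℝ] BB :=
  LinearMap.mkContinuous
    { toFun := fun f => ∫ τ in (0:ℝ)..1, k τ • pull (shf (dir d τ)) f
      map_add' := by
        intro f g
        rw [← intervalIntegral.integral_add]
        · simp only [map_add, smul_add]
        · exact (k.continuous.smul ((cont_shf f).comp (cont_dir d))).intervalIntegrable _ _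
        · exact (k.continuous.smul ((cont_shf g).comp (cont_dir d))).intervalIntegrable _ _
      map_smul' := by
        intro c f
        rw [RingHom.id_apply, ← intervalIntegral.integral_smul]
        congr 1
        ext τ z
        simp only [map_smul, ContinuousMap.smul_apply, smul_eq_mul]
        ring } (∫ τ in (0:ℝ)..1, |k τ|) (by
    intro f
    change ‖∫ τ in (0:ℝ)..1, k τ • pull (shf (dir d τ)) f‖ ≤ _
    refine (intervalIntegral.norm_integral_le_integral_norm (by norm_num)).trans ?_
    rw [← intervalIntegral.integral_mul_const]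
    apply intervalIntegral.integral_mono_on (by norm_num)
    · exact ((k.continuous.smul ((cont_shf f).comp (cont_dir d))).norm).intervalIntegrable _ _
    · exact ((k.continuous.abs).mul continuous_const).intervalIntegrable _ _
    · intro τ _
      rw [norm_smul, Real.norm_eq_abs]
      exact mul_le_mul_of_nonneg_left (norm_pull_le _ _) (abs_nonneg _))

lemma Kop_def (k : C(ℝ, ℝ)) (d : Bool) (f : BB) :
    Kop k d f = ∫ τ in (0:ℝ)..1, k τ • pull (shf (dir d τ)) f := rfl

lemma Kop_intble (k : C(ℝ, ℝ)) (d : Bool) (f : BB) (a b : ℝ) :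
    IntervalIntegrable (fun τ => k τ • pull (shf (dir d τ)) f) volume a b :=
  (k.continuous.smul ((cont_shf f).comp (cont_dir d))).intervalIntegrable _ _

lemma Kop_apply (k : C(ℝ, ℝ)) (d : Bool) (f : BB) (z : TT) :
    Kop k d f z = ∫ τ in (0:ℝ)..1, k τ * f (z + dir d τ) := by
  rw [Kop_def]
  have := (ContinuousMap.evalCLM ℝ z : BB →L[ℝ] ℝ).intervalIntegral_comp_comm
    (Kop_intble k d f 0 1)
  exact this.symm

/-- operators commuting with translations commute with the averaging operators -/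
lemma Kop_comm (k : C(ℝ, ℝ)) (d : Bool) (T : BB →L[ℝ] BB)
    (hT : ∀ w f, T (pull (shf w) f) = pull (shf w) (T f)) (f : BB) :
    T (Kop k d f) = Kop k d (T f) := by
  rw [Kop_def, Kop_def, ← T.intervalIntegral_comp_comm (Kop_intble k d f 0 1)]
  congr 1
  ext1 τ
  rw [map_smul, hT]

lemma pull_shf_comm (w w' : TT) (f : BB) :
    pull (shf w) (pull (shf w') f) = pull (shf w') (pull (shf w) f) := by
  ext z
  simp only [pull_apply, shf_apply]
  congr 1
  abel

lemma Kop_shf (k : C(ℝ, ℝ)) (d : Bool) (w : TT) (f : BB) :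
    Kop k d (pull (shf w) f) = pull (shf w) (Kop k d f) :=
  (Kop_comm k d (pull (shf w)) (fun w' g => pull_shf_comm w w' g) f).symm

lemma Kop_Kop (k k' : C(ℝ, ℝ)) (d d' : Bool) (f : BB) :
    Kop k d (Kop k' d' f) = Kop k' d' (Kop k d f) :=
  Kop_comm k' d' (Kop k d) (fun w g => Kop_shf k d w g) f

/-- mean value in the direction `d` -/
noncomputable def Mo (d : Bool) : BB →L[ℝ] BB := Kop (ContinuousMap.const ℝ 1) d

/-- primitive of zero mean in the direction `d` -/
noncomputable def Jo (d : Bool) : BB →L[ℝ] BB := Kop ⟨fun τ => τ - 1 / 2, by fun_prop⟩ d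

lemma Mo_apply (d : Bool) (f : BB) (z : TT) : Mo d f z = ∫ τ in (0:ℝ)..1, f (z + dir d τ) := by
  unfold Mo
  rw [Kop_apply]
  simp

lemma Jo_apply (d : Bool) (f : BB) (z : TT) :
    Jo d f z = ∫ τ in (0:ℝ)..1, (τ - 1 / 2) * f (z + dir d τ) := by
  unfold Jo
  rw [Kop_apply]
  rfl

lemma norm_Jo_le (d : Bool) (f : BB) : ‖Jo d f‖ ≤ 1 / 2 * ‖f‖ := by
  refine (ContinuousMap.norm_le _ (by positivity)).mpr fun z => ?_
  rw [Jo_apply]
  have h := intervalIntegral.norm_integral_le_of_norm_le_const
    (f := fun τ : ℝ => (τ - 1 / 2) * f (z + dir d τ)) (a := 0) (b := 1) (C := 1 / 2 * ‖f‖) (by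
      intro τ hτ
      rw [uIoc_of_le (by norm_num)] at hτ
      rw [norm_mul]
      apply mul_le_mul _ (f.norm_coe_le_norm _) (norm_nonneg _) (by norm_num)
      rw [Real.norm_eq_abs, abs_le]
      constructor <;> linarith [hτ.1, hτ.2])
  simpa using h

lemma norm_Mo_le (d : Bool) (f : BB) : ‖Mo d f‖ ≤ ‖f‖ := by
  refine (ContinuousMap.norm_le _ (by positivity)).mpr fun z => ?_
  rw [Mo_apply]
  have h := intervalIntegral.norm_integral_le_of_norm_le_const
    (f := fun τ : ℝ => f (z + dir d τ)) (a := 0) (b := 1) (C := ‖f‖) (by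
      intro τ _
      exact f.norm_coe_le_norm _)
  simpa using h

/-- the mean is invariant in its direction -/
lemma pull_shf_Mo (d : Bool) (s : ℝ) (f : BB) : pull (shf (dir d s)) (Mo d f) = Mo d f := by
  ext z
  rw [pull_apply, shf_apply, Mo_apply, Mo_apply]
  set g : ℝ → ℝ := fun τ => f (z + dir d τ) with hg
  have hper : Function.Periodic g 1 := by
    intro τ
    simp only [hg, dir_add, dir_one, add_zero]
  have h1 : ∫ τ in (0:ℝ)..1, f (z + dir d s + dir d τ) = ∫ τ in (0:ℝ)..1, g (s + τ) := by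
    congr 1
    ext τ
    simp only [hg, dir_add]
    congr 1
    abel
  rw [h1, intervalIntegral.integral_comp_add_left g s]
  have := hper.intervalIntegral_add_eq s 0
  simpa using this

lemma Mo_shf (d : Bool) (s : ℝ) (f : BB) : Mo d (pull (shf (dir d s)) f) = Mo d f := by
  rw [Mo, Kop_shf]
  exact pull_shf_Mo d s f

lemma Mo_Mo (d : Bool) (f : BB) : Mo d (Mo d f) = Mo d f := by
  conv_lhs => rw [Mo, Kop_def]
  change ∫ τ in (0:ℝ)..1, (1 : ℝ) • pull (shf (dir d τ)) (Mo d f) = _
  simp only [pull_shf_Mo, one_smul]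
  simp

lemma Jo_Mo (d : Bool) (f : BB) : Jo d (Mo d f) = 0 := by
  ext z
  rw [Jo_apply]
  have h : ∀ τ : ℝ, Mo d f (z + dir d τ) = Mo d f z := by
    intro τ
    have := congrArg (fun g : BB => g z) (pull_shf_Mo d τ f)
    exact this
  simp only [h]
  rw [intervalIntegral.integral_mul_const]
  have : ∫ τ in (0:ℝ)..1, (τ - 1 / 2) = 0 := by
    rw [intervalIntegral.integral_sub (by simp) (by simp)]
    simp
  rw [this]
  simp

lemma Mo_Jo (d : Bool) (f : BB) : Mo d (Jo d f) = 0 := by
  rw [Mo, Jo, Kop_Kop]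
  exact Jo_Mo d f

lemma Mo_Jo_comm (d d' : Bool) (f : BB) : Mo d (Jo d' f) = Jo d' (Mo d f) := by
  rw [Mo, Jo, Kop_Kop]

lemma Mo_Mo_comm (d d' : Bool) (f : BB) : Mo d (Mo d' f) = Mo d' (Mo d f) := by
  rw [Mo, Mo, Kop_Kop]

lemma Jo_Jo_comm (d d' : Bool) (f : BB) : Jo d (Jo d' f) = Jo d' (Jo d f) := by
  rw [Jo, Jo, Kop_Kop]

end NewtonInf
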