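import Pool.Agent.Helper289.Newton.N9

open MeasureTheory Set Filter Topology
open scoped ContDiff

namespace NewtonInf

/-- the space of unknowns of the second system -/
abbrev EII := Fin 8 → BB

/-- the second system -/
noncomputable def HII (Z : EII) : EII :=
  ![Z 0, Z 1, Z 2, Z 3,
    Z 4 + Jo false (Mo true (Z 7 * (Z 0 * Z 5))) + Jo true (Z 7 * (Z 1 * Z 6)),
    Z 5 * (1 + Z 7 * (Z 4 - Z 2)),
    Z 6 * (1 + Z 7 * (Z 4 + Z 3)),
    Z 7]

/-- base point -/
noncomputable def bII : EII := ![0, 0, 1, 1, 0, 1, 1, 0]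

lemma contDiff_HII : ContDiff ℝ ω HII := by
  rw [contDiff_pi]
  intro i
  unfold HII
  fin_cases i <;> simp only [Fin.isValue, Fin.reduceFinMk, Matrix.cons_val, Matrix.cons_val_zero,
    Matrix.cons_val_one] <;> fun_prop

/-- coordinate projections -/
noncomputable def pII (i : Fin 8) : EII →L[ℝ] BB := ContinuousLinearMap.proj i

@[simp] lemma pII_apply (i : Fin 8) (Z : EII) : pII i Z = Z i := rfl

/-- linearisation -/
noncomputable def LII : EII →L[ℝ] EII :=
  ContinuousLinearMap.pi ![pII 0, pII 1, pII 2, pII 3, pII 4, pII 5 - pII 7, pII 6 + pII 7, pII 7]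

/-- inverse of the linearisation -/
noncomputable def LII' : EII →L[ℝ] EII :=
  ContinuousLinearMap.pi ![pII 0, pII 1, pII 2, pII 3, pII 4, pII 5 + pII 7, pII 6 - pII 7, pII 7]

lemma LII_left (Z : EII) : LII' (LII Z) = Z := by
  ext1 i
  fin_cases i <;> simp [LII, LII']

lemma LII_right (Z : EII) : LII (LII' Z) = Z := by
  ext1 i
  fin_cases i <;> simp [LII, LII']

/-- the linearisation as an equivalence -/
noncomputable def LIIe : EII ≃L[ℝ] EII :=
  ContinuousLinearEquiv.equivOfInverse LII LII' LII_left LII_right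

lemma hasDerivAt_lineII (h : EII) (i : Fin 8) :
    HasDerivAt (fun t : ℝ => (bII + t • h) i) (h i) 0 := by
  have := ((hasDerivAt_id (0 : ℝ)).smul_const (h i)).const_add (bII i)
  simpa using this

lemma line_HII (h : EII) : HasDerivAt (fun t : ℝ => HII (bII + t • h)) (LII h) 0 := by
  have e := hasDerivAt_lineII h
  have n0 : (bII + (0 : ℝ) • h) = bII := by simp
  have g1 : HasDerivAt (fun t : ℝ => (bII + t • h) 7 * ((bII + t • h) 0 * (bII + t • h) 5)) 0 0 := by
    have h1 := (e 7).mul ((e 0).mul (e 5))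
    rw [n0] at h1
    convert! h1 using 1
    simp [bII]
  have g2 : HasDerivAt (fun t : ℝ => (bII + t • h) 7 * ((bII + t • h) 1 * (bII + t • h) 6)) 0 0 := by
    have h1 := (e 7).mul ((e 1).mul (e 6))
    rw [n0] at h1
    convert! h1 using 1
    simp [bII]
  rw [hasDerivAt_pi]
  intro i
  fin_cases i
  · exact e 0
  · exact e 1
  · exact e 2
  · exact e 3
  · have h1 := ((e 4).add (hasDerivAt_J false (hasDerivAt_M true g1))).add (hasDerivAt_J true g2)
    convert! h1 using 1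
    simp [LII]
  · have h1 := (e 5).mul ((((e 7).mul ((e 4).sub (e 2)))).const_add (1 : BB))
    rw [n0] at h1
    convert! h1 using 1
    simp [LII, bII]
    module
  · have h1 := (e 6).mul ((((e 7).mul ((e 4).add (e 3)))).const_add (1 : BB))
    rw [n0] at h1
    convert! h1 using 1
    simp [LII, bII]
  · exact e 7

lemma hasFDerivAt_HII : HasFDerivAt HII ((LIIe : EII ≃L[ℝ] EII) : EII →L[ℝ] EII) bII := by
  have hd : DifferentiableAt ℝ HII bII := contDiff_HII.differentiable (by simp) bII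
  have h1 := hd.hasFDerivAt
  have h2 : fderiv ℝ HII bII = ((LIIe : EII ≃L[ℝ] EII) : EII →L[ℝ] EII) := by
    ext1 h
    have h3 : HasDerivAt (fun t : ℝ => bII + t • h) h 0 := by
      simpa using ((hasDerivAt_id (0 : ℝ)).smul_const h).const_add bII
    have h4 : HasFDerivAt HII (fderiv ℝ HII bII) (bII + (0 : ℝ) • h) := by
      simpa using h1
    have h5 := h4.comp_hasDerivAt (0 : ℝ) h3
    exact h5.unique (line_HII h)
  rwa [h2] at h1

lemma HII_bII : HII bII = bII := by
  ext1 i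
  fin_cases i <;> simp [HII, bII]

/-- translation -/
noncomputable def trII (w : TT) (Z : EII) : EII := fun i => pull (shf w) (Z i)

lemma HII_trII (w : TT) (Z : EII) : HII (trII w Z) = trII w (HII Z) := by
  ext1 i
  fin_cases i <;>
    simp only [HII, trII, Fin.isValue, Fin.reduceFinMk, Matrix.cons_val, Matrix.cons_val_zero,
      Matrix.cons_val_one, Fin.zero_eta, Fin.mk_one, map_sub, map_add, pull_mul, pull_one,
      ← Jo_tr, ← Mo_tr]

lemma trII_bII (w : TT) : trII w bII = bII := by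
  ext1 i
  fin_cases i <;> simp [trII, bII, pull_one]

/-- reflections, with abstract signs -/
noncomputable def TIIa (ρ : C(TT, TT)) (a b : ℝ) (Z : EII) : EII :=
  ![a • pull ρ (Z 0), b • pull ρ (Z 1), pull ρ (Z 2), pull ρ (Z 3), pull ρ (Z 4), pull ρ (Z 5),
    pull ρ (Z 6), pull ρ (Z 7)]

lemma HII_TIIa (a b : ℝ) (ρ : C(TT, TT))
    (hJ0 : ∀ f, pull ρ (Jo false f) = a • Jo false (pull ρ f))
    (hJ1 : ∀ f, pull ρ (Jo true f) = b • Jo true (pull ρ f))
    (hM : ∀ d f, pull ρ (Mo d f) = Mo d (pull ρ f)) (Z : EII) :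
    HII (TIIa ρ a b Z) = TIIa ρ a b (HII Z) := by
  ext1 i
  fin_cases i
  all_goals simp only [HII, TIIa, Fin.isValue, Fin.reduceFinMk, Matrix.cons_val, Matrix.cons_val_zero,
      Matrix.cons_val_one, Fin.zero_eta, Fin.mk_one, map_sub, map_add, map_smul, pull_mul, pull_one,
      hJ0, hJ1, hM, smul_mul_assoc, mul_smul_comm]

/-- reflections -/
noncomputable def TII (r : Bool → Bool) (Z : EII) : EII :=
  TIIa (rfx r) (sg (r false)) (sg (r true)) Z

lemma HII_TII (r : Bool → Bool) (Z : EII) : HII (TII r Z) = TII r (HII Z) := by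
  apply HII_TIIa
  · exact fun f => pull_rfx_J r false f
  · exact fun f => pull_rfx_J r true f
  · exact fun d f => pull_rfx_M r d f

lemma mem_ballII_of {G Z : EII} {r : ℝ} (hr : 0 < r)
    (h : ∀ i, ‖G i - bII i‖ ≤ ‖Z i - bII i‖) (hZ : Z ∈ Metric.ball bII r) :
    G ∈ Metric.ball bII r := by
  rw [mem_ball_iff_norm, pi_norm_lt_iff hr] at hZ ⊢
  intro i
  exact lt_of_le_of_lt (h i) (hZ i)

lemma trII_mem {Z : EII} {r : ℝ} (hr : 0 < r) (w : TT) (hZ : Z ∈ Metric.ball bII r) :
    trII w Z ∈ Metric.ball bII r := by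
  apply mem_ballII_of hr _ hZ
  intro i
  have h := congrFun (trII_bII w) i
  rw [← h]
  change ‖pull (shf w) (Z i) - pull (shf w) (bII i)‖ ≤ ‖Z i - trII w bII i‖
  rw [h, ← map_sub]
  exact norm_pull_le _ _

lemma bII_const (i : Fin 8) : ∃ c : ℝ, bII i = c • 1 := by
  fin_cases i
  · exact ⟨0, by simp [bII]⟩
  · exact ⟨0, by simp [bII]⟩
  · exact ⟨1, by simp [bII]⟩
  · exact ⟨1, by simp [bII]⟩
  · exact ⟨0, by simp [bII]⟩
  · exact ⟨1, by simp [bII]⟩
  · exact ⟨1, by simp [bII]⟩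
  · exact ⟨0, by simp [bII]⟩

lemma norm_pull_sub_bII (ρ : C(TT, TT)) (f : BB) (i : Fin 8) :
    ‖pull ρ f - bII i‖ ≤ ‖f - bII i‖ := by
  obtain ⟨c, hc⟩ := bII_const i
  rw [hc]
  exact norm_pull_const_sub ρ f c

lemma TII_mem {Z : EII} {r : ℝ} (hr : 0 < r) (q : Bool → Bool) (hZ : Z ∈ Metric.ball bII r) :
    TII q Z ∈ Metric.ball bII r := by
  apply mem_ballII_of hr _ hZ
  have h0 : ∀ (b : Bool) (i : Fin 8), bII i = 0 → ‖sg b • pull (rfx q) (Z i) - bII i‖ ≤ ‖Z i - bII i‖ := by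
    intro b i hi
    rw [hi, sub_zero, sub_zero, norm_sg_smul]
    exact norm_pull_le _ _
  intro i
  fin_cases i
  · exact h0 _ 0 rfl
  · exact h0 _ 1 rfl
  · exact norm_pull_sub_bII _ _ 2
  · exact norm_pull_sub_bII _ _ 3
  · exact norm_pull_sub_bII _ _ 4
  · exact norm_pull_sub_bII _ _ 5
  · exact norm_pull_sub_bII _ _ 6
  · exact norm_pull_sub_bII _ _ 7

/-- A solution of the second system with its symmetries. -/
structure SolII (n n' a a' : BB) (κ : ℝ) (w x y : BB) : Prop where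
  Ew : w = -Jo false (Mo true (κ • (n * x))) - Jo true (κ • (n' * y))
  Ex : x * (1 + κ • (w - a)) = 1
  Ey : y * (1 + κ • (w + a')) = 1
  sw : Sm w
  sx : Sm x
  sy : Sm y
  x0 : pull (rfx r0) x = x
  y1 : pull (rfx r1) y = y
  nw : ‖w‖ ≤ 1 / 100
  nx : ‖x - 1‖ ≤ 1 / 100
  ny : ‖y - 1‖ ≤ 1 / 100

/-- source of the second system -/
noncomputable def srcII (n n' a a' : BB) (κ : ℝ) : EII := ![n, n', a, a', 0, 1, 1, κ • 1]

section comps2
variable (Z : EII)
lemma HII0 : HII Z 0 = Z 0 := rfl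
lemma HII1 : HII Z 1 = Z 1 := rfl
lemma HII2 : HII Z 2 = Z 2 := rfl
lemma HII3 : HII Z 3 = Z 3 := rfl
lemma HII4 : HII Z 4 = Z 4 + Jo false (Mo true (Z 7 * (Z 0 * Z 5))) + Jo true (Z 7 * (Z 1 * Z 6)) := rfl
lemma HII5 : HII Z 5 = Z 5 * (1 + Z 7 * (Z 4 - Z 2)) := rfl
lemma HII6 : HII Z 6 = Z 6 * (1 + Z 7 * (Z 4 + Z 3)) := rfl
lemma HII7 : HII Z 7 = Z 7 := rfl
end comps2

theorem exists_solII : ∃ ρ > 0, ∃ K : ℝ, 0 ≤ K ∧ ∀ (n n' a a' : BB), Sm n → Sm n' → Sm a → Sm a' →
    ‖n‖ < ρ → ‖n'‖ < ρ → ‖a - 1‖ < ρ → ‖a' - 1‖ < ρ →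
    (pull (rfx r0) n = -n) → (pull (rfx r1) n = n) →
    (pull (rfx r0) n' = n') → (pull (rfx r1) n' = -n') →
    (pull (rfx r0) a = a) → (pull (rfx r1) a = a) →
    (pull (rfx r0) a' = a') → (pull (rfx r1) a' = a') →
    ∃ w x y : ℝ → BB, (∀ κ : ℝ, |κ| < ρ → SolII n n' a a' κ (w κ) (x κ) (y κ)) ∧
      ∀ κ κ' : ℝ, |κ| < ρ → |κ'| < ρ → ‖w κ - w κ'‖ ≤ K * |κ - κ'| := by
  obtain ⟨r, hr, hrle, ρ, hρ, K, hK, Ψ, inj, surj, lip⟩ :=
    exists_localInv HII contDiff_HII bII LIIe hasFDerivAt_HII (1 / 100) (by norm_num)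
  rw [HII_bII] at surj lip
  refine ⟨ρ, hρ, K, hK, ?_⟩
  intro n n' a a' sn sn' sa sa' hn hn' ha ha' n0 n1 n'0 n'1 a0 a1 a'0 a'1
  have hsm1 : ∀ κ : ℝ, ‖κ • (1 : BB)‖ = |κ| := by
    intro κ; rw [norm_smul, norm_one, mul_one, Real.norm_eq_abs]
  have hsrc : ∀ κ : ℝ, |κ| < ρ → srcII n n' a a' κ ∈ Metric.ball bII ρ := by
    intro κ hκ
    rw [mem_ball_iff_norm, pi_norm_lt_iff hρ]
    intro i
    fin_cases i
    · change ‖n - 0‖ < ρ
      rwa [sub_zero]
    · change ‖n' - 0‖ < ρ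
      rwa [sub_zero]
    · exact ha
    · exact ha'
    · change ‖(0 : BB) - 0‖ < ρ
      simpa using hρ
    · change ‖(1 : BB) - 1‖ < ρ
      simpa using hρ
    · change ‖(1 : BB) - 1‖ < ρ
      simpa using hρ
    · change ‖κ • (1 : BB) - 0‖ < ρ
      rw [sub_zero, hsm1]; exact hκ
  refine ⟨fun κ => Ψ (srcII n n' a a' κ) 4, fun κ => Ψ (srcII n n' a a' κ) 5,
    fun κ => Ψ (srcII n n' a a' κ) 6, ?_, ?_⟩
  · intro κ hκ
    obtain ⟨hZb, hZ, hΨ⟩ := surj _ (hsrc κ hκ)
    set Z := Ψ (srcII n n' a a' κ) with hZdef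
    have c0 : Z 0 = n := by
      have := congrFun hZ 0
      rw [HII0] at this
      exact this
    have c1 : Z 1 = n' := by
      have := congrFun hZ 1
      rw [HII1] at this
      exact this
    have c2 : Z 2 = a := by
      have := congrFun hZ 2
      rw [HII2] at this
      exact this
    have c3 : Z 3 = a' := by
      have := congrFun hZ 3
      rw [HII3] at this
      exact this
    have c7 : Z 7 = κ • 1 := by
      have := congrFun hZ 7
      rw [HII7] at this
      exact this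
    have c4 : Z 4 + Jo false (Mo true (κ • (n * Z 5))) + Jo true (κ • (n' * Z 6)) = 0 := by
      have := congrFun hZ 4
      rw [HII4, c0, c1, c7, smul_mul_assoc, smul_mul_assoc, one_mul, one_mul] at this
      exact this
    have c5 : Z 5 * (1 + κ • (Z 4 - a)) = 1 := by
      have := congrFun hZ 5
      rw [HII5, c2, c7, smul_mul_assoc, one_mul] at this
      exact this
    have c6 : Z 6 * (1 + κ • (Z 4 + a')) = 1 := by
      have := congrFun hZ 6
      rw [HII6, c3, c7, smul_mul_assoc, one_mul] at this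
      exact this
    -- smoothness
    have htr : ∀ w, trII w (srcII n n' a a' κ) ∈ Metric.ball bII ρ := fun w => trII_mem hρ w (hsrc κ hκ)
    have htrΨ : ∀ w, Ψ (trII w (srcII n n' a a' κ)) = trII w Z := by
      intro w
      obtain ⟨h1, h2, -⟩ := surj _ (htr w)
      apply inj _ h1 _ (trII_mem hr w hZb)
      rw [h2, HII_trII, hZ]
    have hY : ContDiff ℝ ω (fun δ : ℝ × ℝ => trII (rl δ) (srcII n n' a a' κ)) := by
      rw [contDiff_pi]
      intro i
      have : Sm (srcII n n' a a' κ i) := by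
        fin_cases i
        · exact sn
        · exact sn'
        · exact sa
        · exact sa'
        · exact (sm_const 0)
        · exact sm_one
        · exact sm_one
        · exact sm_one.smul κ
      exact this
    have hcomp : ContDiff ℝ ω (fun δ : ℝ × ℝ => Ψ (trII (rl δ) (srcII n n' a a' κ))) := by
      rw [contDiff_iff_contDiffAt]
      intro δ
      exact ContDiffAt.comp δ (surj _ (htr (rl δ))).2.2 hY.contDiffAt
    have hsm : ∀ i, Sm (Z i) := by
      intro i
      have h3 : (fun δ : ℝ × ℝ => Ψ (trII (rl δ) (srcII n n' a a' κ))) = fun δ => trII (rl δ) Z := by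
        ext1 δ; exact htrΨ _
      rw [h3, contDiff_pi] at hcomp
      exact hcomp i
    -- parities
    have hpar : ∀ k : Bool → Bool, sg (k false) • pull (rfx k) n = n →
        sg (k true) • pull (rfx k) n' = n' → pull (rfx k) a = a → pull (rfx k) a' = a' →
        TII k Z = Z := by
      intro k k1 k2 k3 k4
      apply inj _ (TII_mem hr k hZb) _ hZb
      rw [HII_TII, hZ]
      ext1 i
      fin_cases i
      · exact k1
      · exact k2
      · exact k3
      · exact k4
      · change pull (rfx k) (0 : BB) = 0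
        rw [map_zero]
      · rfl
      · rfl
      · change pull (rfx k) (κ • (1 : BB)) = κ • 1
        rw [map_smul]; rfl
    have p0 : TII r0 Z = Z := hpar r0 (by rw [n0]; simp [sg, r0]) (by rw [n'0]; simp [sg, r0]) a0 a'0
    have p1 : TII r1 Z = Z := hpar r1 (by rw [n1]; simp [sg, r1]) (by rw [n'1]; simp [sg, r1]) a1 a'1
    have hnorm : ∀ i, ‖Z i - bII i‖ ≤ 1 / 100 := by
      intro i
      have := (mem_ball_iff_norm.mp hZb)
      exact ((norm_le_pi_norm (Z - bII) i).trans this.le).trans hrle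
    have hn4 := hnorm 4
    exact
      { Ew := by
          linear_combination c4
        Ex := c5
        Ey := c6
        sw := hsm 4
        sx := hsm 5
        sy := hsm 6
        x0 := congrFun p0 5
        y1 := congrFun p1 6
        nw := by simpa [bII] using hn4
        nx := hnorm 5
        ny := hnorm 6 }
  · intro κ κ' hκ hκ'
    have h1 := lip _ (hsrc κ hκ) _ (hsrc κ' hκ')
    have h2 : ‖srcII n n' a a' κ - srcII n n' a a' κ'‖ ≤ |κ - κ'| := by
      rw [pi_norm_le_iff_of_nonneg (abs_nonneg _)]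
      intro i
      have hz : ∀ f : BB, ‖f - f‖ ≤ |κ - κ'| := by
        intro f; rw [sub_self, norm_zero]; exact abs_nonneg _
      fin_cases i
      · exact hz n
      · exact hz n'
      · exact hz a
      · exact hz a'
      · exact hz 0
      · exact hz 1
      · exact hz 1
      · change ‖κ • (1 : BB) - κ' • (1 : BB)‖ ≤ |κ - κ'|
        rw [← sub_smul, hsm1]
    calc ‖Ψ (srcII n n' a a' κ) 4 - Ψ (srcII n n' a a' κ') 4‖
        ≤ ‖Ψ (srcII n n' a a' κ) - Ψ (srcII n n' a a' κ')‖ :=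
          norm_le_pi_norm (Ψ (srcII n n' a a' κ) - Ψ (srcII n n' a a' κ')) 4
      _ ≤ K * ‖srcII n n' a a' κ - srcII n n' a a' κ'‖ := h1
      _ ≤ K * |κ - κ'| := mul_le_mul_of_nonneg_left h2 hK

end NewtonInf
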