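import Pool.Agent.Helper289.Newton.N10

open MeasureTheory Set Filter Topology
open scoped ContDiff

namespace NewtonInf

namespace SolII

variable {ε δ : ℝ} {X : SolI ε δ} {κ : ℝ} {w x y : BB}
  (Y : SolII X.n X.n' X.a X.a' κ w x y)

include Y

lemma M_n'y : Mo true (X.n' * y) = 0 := by
  apply oddM
  rw [pull_mul, X.n'1, Y.y1]
  ring

lemma M'_nx : Mo false (X.n * x) = 0 := by
  apply oddM'
  rw [pull_mul, X.n0, Y.x0]
  ring

lemma D2w : Dd true w = -(κ • (X.n' * y)) := by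
  have h1 : Sm (X.n * x) := X.sn'.mul Y.sx
  have h2 : Sm (X.n' * y) := X.sn''.mul Y.sy
  conv_lhs => rw [Y.Ew]
  rw [Dd_sub (((h1.smul κ).M true).J false).neg ((h2.smul κ).J true), Dd_neg,
    Dd_Jo ((h1.smul κ).M true), Dd_Mo_self (h1.smul κ), Dd_Jo_self (h2.smul κ), map_smul,
    Y.M_n'y]
  simp

/-- defect -/
lemma M_Δ : Mo true (Dd false w + κ • (X.n * x)) = 0 := by
  have h1 : Sm (X.n * x) := X.sn'.mul Y.sx
  have h2 : Sm (X.n' * y) := X.sn''.mul Y.sy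
  have e : Dd false w = -(Mo true (κ • (X.n * x))) - Jo true (Dd false (κ • (X.n' * y))) := by
    conv_lhs => rw [Y.Ew]
    rw [Dd_sub (((h1.smul κ).M true).J false).neg ((h2.smul κ).J true), Dd_neg,
      Dd_Jo_self ((h1.smul κ).M true), Dd_Jo (h2.smul κ), Mo_Mo_comm false true, map_smul (Mo false),
      Y.M'_nx]
    simp
  rw [e, map_add, map_sub, map_neg, Mo_Mo, Mo_Jo]
  simp

lemma Sxy : X.S * (x - y) = κ • (x * y) := by
  have h1 := Y.Ex
  have h2 := Y.Ey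
  have h3 := X.E5'
  have hk : ∀ f : BB, κ • f = (κ • (1 : BB)) * f := by
    intro f; rw [smul_mul_assoc, one_mul]
  rw [hk] at h1 h2 ⊢
  -- x (1 + k (w - a)) = 1, y (1 + k (w + a')) = 1
  linear_combination (X.S * y) * h1 - (X.S * x) * h2 + (κ • (1 : BB)) * x * y * h3

lemma D2x : Dd true x = -(x * x) * (κ • (Dd true w - Dd true X.a)) := by
  have h := congrArg (Dd true) Y.Ex
  have hs : Sm (w - X.a) := Y.sw.sub X.sa
  rw [Dd_mul Y.sx (sm_one.add (hs.smul κ)), Dd_one, Dd_add sm_one (hs.smul κ), Dd_one,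
    Dd_smul hs, Dd_sub Y.sw X.sa, zero_add] at h
  linear_combination x * h - Dd true x * Y.Ex

lemma D1y : Dd false y = -(y * y) * (κ • (Dd false w + Dd false X.a')) := by
  have h := congrArg (Dd false) Y.Ey
  have hs : Sm (w + X.a') := Y.sw.add X.sa'
  rw [Dd_mul Y.sy (sm_one.add (hs.smul κ)), Dd_one, Dd_add sm_one (hs.smul κ), Dd_one,
    Dd_smul hs, Dd_add Y.sw X.sa', zero_add] at h
  linear_combination y * h - Dd false y * Y.Ey

omit Y in
lemma Dd_comm {f : BB} (hf : Sm f) : Dd true (Dd false f) = Dd false (Dd true f) := by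
  have e : ∀ δ, orb f δ = orb f δ := fun _ => rfl
  have hsym : IsSymmSndFDerivAt ℝ (orb f) 0 := by
    apply ContDiffAt.isSymmSndFDerivAt (n := ω) (ContDiff.contDiffAt hf)
    simp
  have hd : DifferentiableAt ℝ (fderiv ℝ (orb f)) 0 := by
    have : ContDiff ℝ ω (fderiv ℝ (orb f)) := ContDiff.fderiv_right (m := ω) hf (by simp)
    exact this.differentiable (by simp) 0
  have key : ∀ d d' : Bool, Dd d (Dd d' f) = fderiv ℝ (fderiv ℝ (orb f)) 0 (dvec d) (dvec d') := by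
    intro d d'
    have h1 : orb (Dd d' f) = fun δ => fderiv ℝ (orb f) δ (dvec d') := by
      ext1 δ; exact orb_Dd hf d' δ
    unfold Dd at h1 ⊢
    rw [h1]
    have h2 := (hd.hasFDerivAt).clm_apply (hasFDerivAt_const (dvec d') (0 : ℝ × ℝ))
    rw [h2.fderiv]
    simp
  rw [key, key]
  exact hsym.eq _ _

lemma D2Δ : Dd true (Dd false w + κ • (X.n * x))
    = (κ • κ • (X.n' * (y * y))) * (Dd false w + κ • (X.n * x)) := by
  have h1 : Sm (X.n * x) := X.sn'.mul Y.sx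
  have h2 : Sm (X.n' * y) := X.sn''.mul Y.sy
  have hk : ∀ f : BB, κ • f = (κ • (1 : BB)) * f := by
    intro f; rw [smul_mul_assoc, one_mul]
  have e2 : ∀ x : BB, (2 : ℝ) • x = 2 * x := by
    intro x
    rw [ofNat_smul_eq_nsmul ℝ 2 x, nsmul_eq_mul]; norm_num
  rw [Dd_add (Y.sw.D false) (h1.smul κ), Dd_comm Y.sw, Y.D2w, Dd_neg, Dd_smul h2, Dd_smul h1,
    Dd_mul X.sn'' Y.sy, Dd_mul X.sn' Y.sx, X.D1n', X.D2n, Y.D1y, Y.D2x, Y.D2w, X.D2a, X.D1a', e2]
  have h := Y.Sxy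
  rw [hk (x * y)] at h
  simp only [hk (X.n * x), hk (X.n' * y), hk (X.n' * (y * y)),
    hk (Dd false w + -(X.n * X.S)), hk (-(κ • (1 : BB) * (X.n' * y)) - -(X.n' * X.S)),
    hk (κ • (1 : BB) * (X.n' * (y * y))),
    hk (2 * (X.n * X.n' * (X.S * X.S)) * y + X.n' * (-(y * y) * ((κ • (1 : BB)) * (Dd false w + -(X.n * X.S))))),
    hk (2 * (X.n * X.n' * (X.S * X.S)) * x + X.n * (-(x * x) * ((κ • (1 : BB)) * (-(κ • (1 : BB) * (X.n' * y)) - -(X.n' * X.S)))))]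
  set k : BB := κ • (1 : BB) with hkdef
  linear_combination (k * X.n * X.n' * (2 * X.S - k * (x - y)) ) * h

lemma D1w (hδ : δ ≤ 1 / 100) (hκ : |κ| ≤ 1) : Dd false w = -(κ • (X.n * x)) := by
  have h1 : Sm (X.n * x) := X.sn'.mul Y.sx
  have hΔ : Sm (Dd false w + κ • (X.n * x)) := (Y.sw.D false).add (h1.smul κ)
  have e := Jo_Dd hΔ true
  rw [Y.M_Δ, sub_zero, Y.D2Δ] at e
  have hb : ‖κ • κ • (X.n' * (y * y))‖ ≤ 1 := by
    have hy : ‖y‖ ≤ 2 := by
      calc ‖y‖ = ‖(y - 1) + 1‖ := by rw [sub_add_cancel]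
        _ ≤ ‖y - 1‖ + ‖(1 : BB)‖ := norm_add_le _ _
        _ ≤ 2 := by rw [norm_one]; linarith [Y.ny]
    have hn : ‖X.n'‖ ≤ 1 / 100 := X.norm_n'_le.trans hδ
    rw [norm_smul, norm_smul, Real.norm_eq_abs]
    have h3 : ‖X.n' * (y * y)‖ ≤ 1 / 100 * (2 * 2) :=
      (norm_mul_le _ _).trans (mul_le_mul hn ((norm_mul_le _ _).trans
        (mul_le_mul hy hy (norm_nonneg _) (by norm_num))) (norm_nonneg _) (by norm_num))
    have h4 : |κ| * ‖X.n' * (y * y)‖ ≤ 1 * 1 :=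
      mul_le_mul hκ (by linarith) (norm_nonneg _) (by norm_num)
    calc |κ| * (|κ| * ‖X.n' * (y * y)‖) ≤ 1 * (1 * 1) :=
          mul_le_mul hκ h4 (by positivity) (by norm_num)
      _ = 1 := by norm_num
  exact eq_neg_of_add_eq_zero_left (zero_of_fix hb e.symm)

end SolII

end NewtonInf
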