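import Pool.Agent.Helper289.Newton.N11

open MeasureTheory Set Filter Topology
open scoped ContDiff NNReal

namespace NewtonInf

/-! ### graphs of solutions of the Hamilton-Jacobi type equation are invariant -/

lemma zero_forward {g e : ℝ → ℝ} {a b t0 t : ℝ} (ht0 : t0 ∈ Ioo a b) (ht : t ∈ Ioo a b) (hle : t0 ≤ t)
    (hg : ContinuousOn g (Ioo a b)) (he : ∀ s ∈ Ioo a b, HasDerivAt e (g s * e s) s)
    (h0 : e t0 = 0) : e t = 0 := by
  have hsub : Icc t0 t ⊆ Ioo a b := fun s hs => ⟨lt_of_lt_of_le ht0.1 hs.1, lt_of_le_of_lt hs.2 ht.2⟩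
  obtain ⟨C, hC⟩ := (isCompact_Icc (a := t0) (b := t)).exists_bound_of_continuousOn (hg.mono hsub)
  have := eq_zero_of_abs_deriv_le_mul_abs_self_of_eq_zero_right (f := e) (f' := fun s => g s * e s)
    (K := C) (a := t0) (b := t)
    (fun s hs => (he s (hsub hs)).continuousAt.continuousWithinAt)
    (fun s hs => (he s (hsub (Ico_subset_Icc_self hs))).hasDerivWithinAt) h0
    (fun s hs => by
      rw [norm_mul]
      exact mul_le_mul_of_nonneg_right (hC s (Ico_subset_Icc_self hs)) (norm_nonneg _))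
  exact this t ⟨hle, le_rfl⟩

lemma zero_of_lin {g e : ℝ → ℝ} {a b t0 t : ℝ} (ht0 : t0 ∈ Ioo a b) (ht : t ∈ Ioo a b)
    (hg : ContinuousOn g (Ioo a b)) (he : ∀ s ∈ Ioo a b, HasDerivAt e (g s * e s) s)
    (h0 : e t0 = 0) : e t = 0 := by
  rcases le_total t0 t with hle | hle
  · exact zero_forward ht0 ht hle hg he h0
  · have := zero_forward (g := fun s => -g (-s)) (e := fun s => e (-s)) (a := -b) (b := -a)
      (t0 := -t0) (t := -t) ⟨by linarith [ht0.2], by linarith [ht0.1]⟩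
      ⟨by linarith [ht.2], by linarith [ht.1]⟩ (by linarith) (by
        apply ContinuousOn.neg
        apply hg.comp continuous_neg.continuousOn
        intro s hs
        exact ⟨by linarith [hs.2], by linarith [hs.1]⟩) (by
        intro s hs
        have hs' : -s ∈ Ioo a b := ⟨by linarith [hs.2], by linarith [hs.1]⟩
        have h1 := (he (-s) hs').scomp s (hasDerivAt_neg s)
        convert! h1 using 1
        simp) (by simpa using h0)
    simpa using this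

lemma graph_inv {g fu ft f : ℝ → ℝ → ℝ}
    (hf : ∀ u t, HasFDerivAt (fun z : ℝ × ℝ => f z.1 z.2)
      (fu u t • ContinuousLinearMap.fst ℝ ℝ ℝ + ft u t • ContinuousLinearMap.snd ℝ ℝ ℝ) (u, t))
    (hfu : Continuous (fun z : ℝ × ℝ => fu z.1 z.2))
    (hpde : ∀ u t, ft u t + f u t * fu u t = - g u t)
    {a b : ℝ} {u p : ℝ → ℝ} (hu : ∀ t ∈ Ioo a b, HasDerivAt u (p t) t)
    (hp : ∀ t ∈ Ioo a b, HasDerivAt p (-g (u t) t) t)
    {t0 t : ℝ} (ht0 : t0 ∈ Ioo a b) (ht : t ∈ Ioo a b) (h0 : p t0 = f (u t0) t0) :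
    p t = f (u t) t := by
  have key : ∀ s ∈ Ioo a b, HasDerivAt (fun s => p s - f (u s) s)
      ((fun s => -fu (u s) s) s * (fun s => p s - f (u s) s) s) s := by
    intro s hs
    have h1 : HasDerivAt (fun s => (u s, s)) (p s, (1 : ℝ)) s := (hu s hs).prodMk (hasDerivAt_id s)
    have h2 := HasFDerivAt.comp_hasDerivAt (f := fun s => (u s, s)) s (hf (u s) s) h1
    have h3 := (hp s hs).sub h2
    convert! h3 using 1
    simp only [add_apply, smul_apply,
      ContinuousLinearMap.coe_fst', ContinuousLinearMap.coe_snd', smul_eq_mul]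
    linear_combination (hpde (u s) s)
  have hcont : ContinuousOn (fun s => -fu (u s) s) (Ioo a b) := by
    apply ContinuousOn.neg
    have h1 : ContinuousOn (fun s => (u s, s)) (Ioo a b) := fun s hs =>
      ((hu s hs).continuousAt.prodMk continuousAt_id).continuousWithinAt
    exact hfu.comp_continuousOn h1
  exact sub_eq_zero.mp (zero_of_lin (g := fun s => -fu (u s) s) (e := fun s => p s - f (u s) s)
    ht0 ht hcont key (sub_eq_zero.mpr h0))

/-! ### linear algebra in the plane -/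

/-- the linear map with given matrix -/
noncomputable def mat (p q r s : ℝ) : ℝ × ℝ →L[ℝ] ℝ × ℝ :=
  (p • ContinuousLinearMap.fst ℝ ℝ ℝ + q • ContinuousLinearMap.snd ℝ ℝ ℝ).prod
    (r • ContinuousLinearMap.fst ℝ ℝ ℝ + s • ContinuousLinearMap.snd ℝ ℝ ℝ)

lemma mat_apply (p q r s : ℝ) (z : ℝ × ℝ) :
    mat p q r s z = (p * z.1 + q * z.2, r * z.1 + s * z.2) := by
  simp [mat]

lemma mat_inv (p q r s : ℝ) (h : p * s - q * r ≠ 0) (z : ℝ × ℝ) :
    mat (s / (p * s - q * r)) (-q / (p * s - q * r)) (-r / (p * s - q * r)) (p / (p * s - q * r))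
      (mat p q r s z) = z := by
  rw [mat_apply, mat_apply]
  ext
  · have e : s / (p * s - q * r) * (p * z.1 + q * z.2) + -q / (p * s - q * r) * (r * z.1 + s * z.2)
        = (s * (p * z.1 + q * z.2) - q * (r * z.1 + s * z.2)) / (p * s - q * r) := by ring
    simp only [e]
    rw [div_eq_iff h]; ring
  · have e : -r / (p * s - q * r) * (p * z.1 + q * z.2) + p / (p * s - q * r) * (r * z.1 + s * z.2)
        = (-r * (p * z.1 + q * z.2) + p * (r * z.1 + s * z.2)) / (p * s - q * r) := by ring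
    simp only [e]
    rw [div_eq_iff h]; ring

lemma mat_inv' (p q r s : ℝ) (h : p * s - q * r ≠ 0) (z : ℝ × ℝ) :
    mat p q r s
      (mat (s / (p * s - q * r)) (-q / (p * s - q * r)) (-r / (p * s - q * r)) (p / (p * s - q * r)) z)
      = z := by
  rw [mat_apply, mat_apply]
  ext
  · have e : p * (s / (p * s - q * r) * z.1 + -q / (p * s - q * r) * z.2)
        + q * (-r / (p * s - q * r) * z.1 + p / (p * s - q * r) * z.2)
        = (p * (s * z.1 - q * z.2) + q * (-r * z.1 + p * z.2)) / (p * s - q * r) := by ring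
    simp only [e]
    rw [div_eq_iff h]; ring
  · have e : r * (s / (p * s - q * r) * z.1 + -q / (p * s - q * r) * z.2)
        + s * (-r / (p * s - q * r) * z.1 + p / (p * s - q * r) * z.2)
        = (r * (s * z.1 - q * z.2) + s * (-r * z.1 + p * z.2)) / (p * s - q * r) := by ring
    simp only [e]
    rw [div_eq_iff h]; ring

/-- the linear equivalence with given matrix -/
noncomputable def matE (p q r s : ℝ) (h : p * s - q * r ≠ 0) : (ℝ × ℝ) ≃L[ℝ] (ℝ × ℝ) :=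
  ContinuousLinearEquiv.equivOfInverse (mat p q r s)
    (mat (s / (p * s - q * r)) (-q / (p * s - q * r)) (-r / (p * s - q * r)) (p / (p * s - q * r)))
    (mat_inv p q r s h) (mat_inv' p q r s h)

lemma matE_coe (p q r s : ℝ) (h : p * s - q * r ≠ 0) :
    ((matE p q r s h : (ℝ × ℝ) ≃L[ℝ] (ℝ × ℝ)) : ℝ × ℝ →L[ℝ] ℝ × ℝ) = mat p q r s := rfl

lemma matE_symm (p q r s : ℝ) (h : p * s - q * r ≠ 0) :
    (((matE p q r s h).symm : (ℝ × ℝ) ≃L[ℝ] (ℝ × ℝ)) : ℝ × ℝ →L[ℝ] ℝ × ℝ) =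
    mat (s / (p * s - q * r)) (-q / (p * s - q * r)) (-r / (p * s - q * r)) (p / (p * s - q * r)) := rfl

lemma norm_mat_le (p q r s C : ℝ) (h1 : |p| + |q| ≤ C) (h2 : |r| + |s| ≤ C) : ‖mat p q r s‖ ≤ C := by
  have hC : 0 ≤ C := (add_nonneg (abs_nonneg _) (abs_nonneg _)).trans h1
  refine ContinuousLinearMap.opNorm_le_bound _ hC fun z => ?_
  rw [mat_apply]
  have a1 : |z.1| ≤ ‖z‖ := norm_fst_le z
  have a2 : |z.2| ≤ ‖z‖ := norm_snd_le z
  have hb : ∀ x y : ℝ, |x| + |y| ≤ C → |x * z.1 + y * z.2| ≤ C * ‖z‖ := by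
    intro x y h
    calc |x * z.1 + y * z.2| ≤ |x * z.1| + |y * z.2| := abs_add_le _ _
      _ = |x| * |z.1| + |y| * |z.2| := by rw [abs_mul, abs_mul]
      _ ≤ |x| * ‖z‖ + |y| * ‖z‖ := by gcongr
      _ = (|x| + |y|) * ‖z‖ := by ring
      _ ≤ C * ‖z‖ := by gcongr
  rw [Prod.norm_def]
  exact max_le (hb _ _ h1) (hb _ _ h2)

/-- a plane map whose derivative is close to a rotation-like map is a diffeomorphism -/
theorem exists_inverse (Φ : ℝ × ℝ → ℝ × ℝ) (hΦ : ContDiff ℝ ω Φ) (p q r s : ℝ × ℝ → ℝ)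
    (hD : ∀ z, HasFDerivAt Φ (mat (p z) (q z) (r z) (s z)) z)
    (hp : ∀ z, |p z - 1 / 2| ≤ 1 / 10) (hq : ∀ z, |q z - 1 / 2| ≤ 1 / 10)
    (hr : ∀ z, |r z + 1 / 2| ≤ 1 / 10) (hs : ∀ z, |s z - 1 / 2| ≤ 1 / 10) :
    ∃ Ψ : ℝ × ℝ → ℝ × ℝ, (∀ z, Ψ (Φ z) = z) ∧ (∀ z, Φ (Ψ z) = z) ∧ ContDiff ℝ ω Ψ := by
  have h0 : (1 / 2 : ℝ) * (1 / 2) - (1 / 2) * (-1 / 2) ≠ 0 := by norm_num
  set L := matE (1 / 2) (1 / 2) (-1 / 2) (1 / 2) h0 with hL
  have hLs : ‖((L.symm : (ℝ × ℝ) ≃L[ℝ] (ℝ × ℝ)) : ℝ × ℝ →L[ℝ] ℝ × ℝ)‖ ≤ 2 := by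
    rw [hL, matE_symm]
    apply norm_mat_le <;> norm_num
  have happ : ApproximatesLinearOn Φ (L : ℝ × ℝ →L[ℝ] ℝ × ℝ) univ (1 / 4 : ℝ≥0) := by
    intro x _ y _
    have := Convex.norm_image_sub_le_of_norm_hasFDerivWithin_le' (f := Φ)
      (f' := fun z => mat (p z) (q z) (r z) (s z)) (s := univ) (x := y) (y := x) (C := 1 / 4)
      (φ := (L : ℝ × ℝ →L[ℝ] ℝ × ℝ)) (fun z _ => (hD z).hasFDerivWithinAt) (by
        intro z _
        have e : mat (p z) (q z) (r z) (s z) - (L : ℝ × ℝ →L[ℝ] ℝ × ℝ)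
            = mat (p z - 1 / 2) (q z - 1 / 2) (r z + 1 / 2) (s z - 1 / 2) := by
          rw [hL, matE_coe]
          ext <;> simp [mat_apply] <;> ring
        rw [e]
        apply norm_mat_le
        · linarith [hp z, hq z]
        · linarith [hr z, hs z]) convex_univ (mem_univ _) (mem_univ _)
    simpa using this
  have hN : (‖((L.symm : (ℝ × ℝ) ≃L[ℝ] (ℝ × ℝ)) : ℝ × ℝ →L[ℝ] ℝ × ℝ)‖₊) ≠ 0 := by
    intro h
    have h1 : ((L.symm : (ℝ × ℝ) ≃L[ℝ] (ℝ × ℝ)) : ℝ × ℝ →L[ℝ] ℝ × ℝ) = 0 := nnnorm_eq_zero.mp h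
    have h2 := congrArg (fun A : ℝ × ℝ →L[ℝ] ℝ × ℝ => A (L (1, 0))) h1
    simp at h2
  have hc : Subsingleton (ℝ × ℝ) ∨ (1 / 4 : ℝ≥0)
      < (‖((L.symm : (ℝ × ℝ) ≃L[ℝ] (ℝ × ℝ)) : ℝ × ℝ →L[ℝ] ℝ × ℝ)‖₊)⁻¹ := by
    right
    rw [NNReal.lt_inv_iff_mul_lt hN]
    rw [← NNReal.coe_lt_coe]
    push_cast
    linarith
  set e := happ.toHomeomorph Φ hc with he
  have hcoe : (e : ℝ × ℝ → ℝ × ℝ) = Φ := rfl
  have hdet : ∀ z, p z * s z - q z * r z ≠ 0 := by
    intro z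
    have a1 := abs_le.mp (hp z)
    have a2 := abs_le.mp (hq z)
    have a3 := abs_le.mp (hr z)
    have a4 := abs_le.mp (hs z)
    have b1 : 0 < p z * s z := mul_pos (by linarith) (by linarith)
    have b2 : 0 < q z * (-r z) := mul_pos (by linarith) (by linarith)
    nlinarith
  refine ⟨e.symm, fun z => ?_, fun z => ?_, ?_⟩
  · rw [← hcoe]; exact e.symm_apply_apply z
  · rw [← hcoe]; exact e.apply_symm_apply z
  · apply e.contDiff_symm (f₀' := fun z => matE (p z) (q z) (r z) (s z) (hdet z))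
    · intro z
      rw [matE_coe]
      exact hD z
    · exact hΦ

end NewtonInf
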