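import Pool.Agent.Helper289.Newton.N12

open MeasureTheory Set Filter Topology
open scoped ContDiff NNReal

namespace NewtonInf

lemma lift_add (f g : BB) (z : ℝ × ℝ) : lift (f + g) z = lift f z + lift g z := rfl
lemma lift_sub (f g : BB) (z : ℝ × ℝ) : lift (f - g) z = lift f z - lift g z := rfl
lemma lift_mul (f g : BB) (z : ℝ × ℝ) : lift (f * g) z = lift f z * lift g z := rfl
lemma lift_neg (f : BB) (z : ℝ × ℝ) : lift (-f) z = -lift f z := rfl
lemma lift_one (z : ℝ × ℝ) : lift 1 z = 1 := rfl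
lemma lift_smul (c : ℝ) (f : BB) (z : ℝ × ℝ) : lift (c • f) z = c * lift f z := rfl

lemma abs_lift_le (f : BB) (z : ℝ × ℝ) : |lift f z| ≤ ‖f‖ := f.norm_coe_le_norm _

lemma abs_lift_sub_le (f : BB) (c : ℝ) (z : ℝ × ℝ) : |lift f z - c| ≤ ‖f - c • 1‖ := by
  have := abs_lift_le (f - c • 1) z
  rwa [lift_sub, lift_smul, lift_one, mul_one] at this

lemma rl_int (z : ℝ × ℝ) (m k : ℤ) : rl (z + ((m : ℝ), (k : ℝ))) = rl z := by
  have h : ∀ m : ℤ, ((m : ℝ) : UnitAddCircle) = 0 := by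
    intro m
    have := AddCircle.coe_eq_zero_iff (p := (1 : ℝ)) (x := (m : ℝ))
    rw [this]
    exact ⟨m, by simp⟩
  rw [rl_add]
  have : rl ((m : ℝ), (k : ℝ)) = 0 := by
    unfold rl
    rw [h, h]; rfl
  rw [this, add_zero]

lemma lift_int (f : BB) (z : ℝ × ℝ) (m k : ℤ) : lift f (z + ((m : ℝ), (k : ℝ))) = lift f z := by
  unfold lift; rw [rl_int]

lemma lift_swp (f : BB) (z : ℝ × ℝ) : lift (pull swp f) z = lift f (z.2, z.1) := rfl

lemma lift_rb (f : BB) (z : ℝ × ℝ) : lift (pull (rfx rb) f) z = lift f (-z.1, -z.2) := by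
  unfold lift
  rw [pull_apply]
  congr 1

lemma norm_M_le (d : Bool) (f : BB) : ‖Mo d f‖ ≤ ‖f‖ := norm_Mo_le d f

lemma Mo_one (d : Bool) : Mo d 1 = 1 := by
  ext z
  rw [Mo_apply]
  simp

namespace SolI

variable {ε δ : ℝ} (X : SolI ε δ)

lemma norm_a'_le : ‖X.a' - 1‖ ≤ δ := by
  have : X.a' - 1 = pull swp (X.a - 1) := by rw [map_sub]; rfl
  rw [this]
  exact (norm_pull_le _ _).trans X.na

lemma norm_T'_le : ‖X.T' - (-1 / 2 : ℝ) • 1‖ ≤ δ := by
  have : X.T' - (-1 / 2 : ℝ) • 1 = pull swp (X.T - (-1 / 2 : ℝ) • 1) := by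
    rw [map_sub, map_smul]; rfl
  rw [this]
  exact (norm_pull_le _ _).trans X.nT

lemma norm_prod_le {a T : BB} (hδ : δ ≤ 1 / 100) (ha : ‖a - 1‖ ≤ δ) (hT : ‖T - (-1 / 2 : ℝ) • 1‖ ≤ δ) :
    ‖a * T - (-1 / 2 : ℝ) • 1‖ ≤ 16 / 1000 := by
  have h1 : ‖T‖ ≤ 51 / 100 := by
    have e : T = (T - (-1 / 2 : ℝ) • 1) + (-1 / 2 : ℝ) • 1 := by rw [sub_add_cancel]
    rw [e]
    refine (norm_add_le _ _).trans ?_
    have : ‖(-1 / 2 : ℝ) • (1 : BB)‖ = 1 / 2 := by rw [norm_smul, norm_one]; norm_num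
    rw [this]; linarith
  have e : a * T - (-1 / 2 : ℝ) • 1 = (a - 1) * T + (T - (-1 / 2 : ℝ) • 1) := by ring
  rw [e]
  refine (norm_add_le _ _).trans ?_
  have h2 : ‖(a - 1) * T‖ ≤ 1 / 100 * (51 / 100) :=
    (norm_mul_le _ _).trans (mul_le_mul (ha.trans hδ) h1 (norm_nonneg _) (by norm_num))
  linarith

lemma norm_a'T (hδ : δ ≤ 1 / 100) : ‖X.a' * X.T - (-1 / 2 : ℝ) • 1‖ ≤ 16 / 1000 :=
  norm_prod_le hδ X.norm_a'_le X.nT

lemma norm_aT' (hδ : δ ≤ 1 / 100) : ‖X.a * X.T' - (-1 / 2 : ℝ) • 1‖ ≤ 16 / 1000 :=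
  norm_prod_le hδ X.na X.norm_T'_le

lemma cc_bound (hδ : δ ≤ 1 / 100) : |X.cc + 1 / 2| ≤ 16 / 1000 := by
  have h1 : (X.cc + 1 / 2) • (1 : BB) = Mo true (Mo false (X.a' * X.T - (-1 / 2 : ℝ) • 1)) := by
    rw [map_sub, map_sub, X.cc_spec, map_smul, map_smul, Mo_one, Mo_one]
    module
  have h2 : ‖(X.cc + 1 / 2) • (1 : BB)‖ = |X.cc + 1 / 2| := by
    rw [norm_smul, norm_one, mul_one, Real.norm_eq_abs]
  rw [← h2, h1]
  exact ((norm_M_le _ _).trans (norm_M_le _ _)).trans (X.norm_a'T hδ)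

/-- scaling factor -/
noncomputable def β : ℝ := -1 / (2 * X.cc)

lemma cc_neg (hδ : δ ≤ 1 / 100) : X.cc < 0 := by
  have := abs_le.mp (X.cc_bound hδ)
  linarith

lemma β_cc (hδ : δ ≤ 1 / 100) : X.β * X.cc = -1 / 2 := by
  have h : X.cc ≠ 0 := (X.cc_neg hδ).ne
  unfold β
  field_simp

lemma β_pos (hδ : δ ≤ 1 / 100) : 0 < X.β := by
  have := X.cc_neg hδ
  unfold β
  apply div_pos_of_neg_of_neg (by norm_num)
  linarith

lemma β_bound (hδ : δ ≤ 1 / 100) : |X.β - 1| ≤ 4 / 100 := by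
  have h1 := abs_le.mp (X.cc_bound hδ)
  have h2 := X.β_cc hδ
  have h3 := X.β_pos hδ
  rw [abs_le]
  constructor
  · nlinarith
  · nlinarith

/-- the plane map -/
noncomputable def Φ (z : ℝ × ℝ) : ℝ × ℝ :=
  ((z.1 + z.2) / 2 + X.β * lift X.up z, (z.2 - z.1) / 2 + lift X.th z)

lemma Φ_contDiff : ContDiff ℝ ω X.Φ := by
  have h1 := lift_contDiff X.sup
  have h2 := lift_contDiff X.sth
  unfold Φ
  fun_prop

lemma Φ_deriv (hδ : δ ≤ 1 / 100) (z : ℝ × ℝ) :
    HasFDerivAt X.Φ (mat (-X.β * lift (X.a' * X.T) z) (-X.β * lift (X.a * X.T') z)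
      (lift X.T z) (-lift X.T' z)) z := by
  have h1 := lift_hasFDerivAt X.sup z
  have h2 := lift_hasFDerivAt X.sth z
  rw [X.D1up hδ, X.D2up hδ] at h1
  rw [X.D1th, X.D2th] at h2
  have f1 : HasFDerivAt (fun z : ℝ × ℝ => z.1) (ContinuousLinearMap.fst ℝ ℝ ℝ) z := hasFDerivAt_fst
  have f2 : HasFDerivAt (fun z : ℝ × ℝ => z.2) (ContinuousLinearMap.snd ℝ ℝ ℝ) z := hasFDerivAt_snd
  have g1 := ((f1.add f2).const_smul (1 / 2 : ℝ)).add (h1.const_smul X.β)
  have g2 := ((f2.sub f1).const_smul (1 / 2 : ℝ)).add h2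
  have g := g1.prodMk g2
  have hb := X.β_cc hδ
  convert! g using 1
  · ext z
    · simp [Φ]; ring
    · simp [Φ]; ring
  · have e1 : lift (-(X.a' * X.T) + X.cc • 1) z = -lift (X.a' * X.T) z + X.cc := by
      rw [lift_add, lift_neg, lift_smul, lift_one, mul_one]
    have e2 : lift (-(X.a * X.T') + X.cc • 1) z = -lift (X.a * X.T') z + X.cc := by
      rw [lift_add, lift_neg, lift_smul, lift_one, mul_one]
    have e3 : lift (X.T + (1 / 2 : ℝ) • 1) z = lift X.T z + 1 / 2 := by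
      rw [lift_add, lift_smul, lift_one, mul_one]
    have e4 : lift (-(X.T' + (1 / 2 : ℝ) • 1)) z = -lift X.T' z - 1 / 2 := by
      rw [lift_neg, lift_add, lift_smul, lift_one, mul_one]; ring
    rw [e1, e2, e3, e4]
    ext
    · simp [mat_apply]; linear_combination -hb
    · simp [mat_apply]
    · simp [mat_apply]; linear_combination -hb
    · simp [mat_apply]

lemma exists_Ψ (hδ : δ ≤ 1 / 100) :
    ∃ Ψ : ℝ × ℝ → ℝ × ℝ, (∀ z, Ψ (X.Φ z) = z) ∧ (∀ z, X.Φ (Ψ z) = z) ∧ ContDiff ℝ ω Ψ := by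
  have hb := abs_le.mp (X.β_bound hδ)
  have key : ∀ x : ℝ, |x - (-1 / 2)| ≤ 16 / 1000 → |-X.β * x - 1 / 2| ≤ 1 / 10 := by
    intro x hx
    have hx := abs_le.mp hx
    rw [abs_le]
    constructor <;> nlinarith
  apply exists_inverse X.Φ X.Φ_contDiff _ _ _ _ (X.Φ_deriv hδ)
  · intro z
    exact key _ ((abs_lift_sub_le _ _ z).trans (X.norm_a'T hδ))
  · intro z
    exact key _ ((abs_lift_sub_le _ _ z).trans (X.norm_aT' hδ))
  · intro z
    have := (abs_lift_sub_le _ _ z).trans (X.nT)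
    have e : lift X.T z + 1 / 2 = lift X.T z - (-1 / 2) := by ring
    rw [e]; linarith
  · intro z
    have := (abs_lift_sub_le _ _ z).trans (X.norm_T'_le)
    have e : -lift X.T' z - 1 / 2 = -(lift X.T' z - (-1 / 2)) := by ring
    rw [e, abs_neg]; linarith

lemma Φ_int (z : ℝ × ℝ) (m k : ℤ) :
    X.Φ (z + ((m : ℝ), (k : ℝ))) = X.Φ z + (((m : ℝ) + k) / 2, ((k : ℝ) - m) / 2) := by
  unfold Φ
  rw [lift_int, lift_int]
  ext
  · simp only [Prod.fst_add, Prod.snd_add]; ring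
  · simp only [Prod.fst_add, Prod.snd_add]; ring

lemma Φ_refl (x y : ℝ) : X.Φ (-y, -x) = (-(X.Φ (x, y)).1, (X.Φ (x, y)).2) := by
  have h1 : lift X.up (-y, -x) = - lift X.up (x, y) := by
    have e : lift (pull (rfx rb) (pull swp X.up)) (x, y) = lift X.up (-y, -x) := by
      rw [lift_rb, lift_swp]
    rw [← e, X.up_sw, X.up_rb, lift_neg]
  have h2 : lift X.th (-y, -x) = lift X.th (x, y) := by
    have e : lift (pull (rfx rb) (pull swp X.th)) (x, y) = lift X.th (-y, -x) := by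
      rw [lift_rb, lift_swp]
    rw [← e, X.th_sw, map_neg, X.th_rb, neg_neg]
  unfold Φ
  rw [h1, h2]
  ext
  · simp only; ring
  · simp only; ring

lemma v_refl (x y : ℝ) : lift X.v (-y, -x) = lift X.v (x, y) := by
  have hb : pull (rfx rb) X.v = X.v := by rw [rfx_rb, X.v_r1, X.v_r0]
  have e : lift (pull (rfx rb) (pull swp X.v)) (x, y) = lift X.v (-y, -x) := by
    rw [lift_rb, lift_swp]
  rw [← e, X.v_sw, hb]

/-- half-integer points -/
lemma Φ_half (x y : ℝ) (m k : ℤ) (hx : 2 * x = m) (hy : 2 * y = k) :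
    X.Φ (x, y) = ((x + y) / 2, (y - x) / 2) := by
  have e : ∀ f : BB, lift f (-x, -y) = lift f (x, y) := by
    intro f
    have : ((x, y) : ℝ × ℝ) = (-x, -y) + ((m : ℝ), (k : ℝ)) := by
      ext
      · simp only [Prod.fst_add]; linarith
      · simp only [Prod.snd_add]; linarith
    rw [this, lift_int]
  have h1 : lift X.up (x, y) = 0 := by
    have h := e X.up
    have h2 : lift X.up (-x, -y) = - lift X.up (x, y) := by
      have e := lift_rb X.up (x, y)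
      rw [X.up_rb, lift_neg] at e
      exact e.symm
    linarith
  have h3 : lift X.th (x, y) = 0 := by
    have h := e X.th
    have h2 : lift X.th (-x, -y) = - lift X.th (x, y) := by
      have e := lift_rb X.th (x, y)
      rw [X.th_rb, lift_neg] at e
      exact e.symm
    linarith
  unfold Φ
  rw [h1, h3]
  simp

end SolI

end NewtonInf
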