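import Pool.Agent.Helper289.Newton.N13

open MeasureTheory Set Filter Topology
open scoped ContDiff NNReal

namespace NewtonInf

lemma increase_half {ε : ℝ} (hε : 0 < ε) {g g' : ℝ → ℝ} (hg : ∀ s, HasDerivAt g (g' s) s)
    (hb : ∀ s, |g' s - ε * Real.sin (2 * Real.pi * s)| ≤ ε / 50) : g 0 < g (1 / 2) := by
  have hπ : (0 : ℝ) < Real.pi := Real.pi_pos
  have hψ : ∀ s : ℝ, HasDerivAt (fun s => g s + ε / (2 * Real.pi) * Real.cos (2 * Real.pi * s))
      (g' s - ε * Real.sin (2 * Real.pi * s)) s := by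
    intro s
    have h1 : HasDerivAt (fun s : ℝ => 2 * Real.pi * s) (2 * Real.pi) s := by
      simpa using (hasDerivAt_id s).const_mul (2 * Real.pi)
    have h2 := ((Real.hasDerivAt_cos (2 * Real.pi * s)).comp s h1).const_mul (ε / (2 * Real.pi))
    have h3 := (hg s).add h2
    convert! h3 using 1
    field_simp
    ring
  have := Convex.norm_image_sub_le_of_norm_hasDerivWithin_le (s := univ) (x := 0) (y := 1 / 2)
    (fun s _ => (hψ s).hasDerivWithinAt) (fun s _ => hb s) convex_univ (mem_univ _) (mem_univ _)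
  simp only [mul_zero, Real.cos_zero, mul_one, Real.norm_eq_abs] at this
  have e : 2 * Real.pi * (1 / 2) = Real.pi := by ring
  rw [e, Real.cos_pi] at this
  have h4 : |(1 : ℝ) / 2 - 0| = 1 / 2 := by norm_num
  rw [h4] at this
  have h5 := (abs_le.mp this).1
  have h6 : ε / (2 * Real.pi) ≥ ε / 8 := by
    apply div_le_div_of_nonneg_left hε.le (by positivity)
    linarith [Real.pi_le_four]
  linarith

namespace SolI

variable {ε δ : ℝ} (X : SolI ε δ)

lemma n_close (hδ : δ ≤ 1 / 100) (hε : 0 < ε) : ‖X.n - ε • sn‖ ≤ ε / 50 := by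
  have hδ0 : 0 ≤ δ := (norm_nonneg _).trans X.nn
  have hS := X.norm_S_le hδ
  have hn' := X.norm_n'_le
  have h1 : ‖X.n - ε • sn‖ ≤ δ * ‖X.n‖ := by
    have e : X.n - ε • sn = (2 : ℝ) • Jo true (X.n * X.n' * (X.S * X.S)) := by
      have h := X.E1
      rw [sub_eq_iff_eq_add, add_comm]; exact h
    rw [e, norm_smul]
    have h2 : ‖X.n * X.n' * (X.S * X.S)‖ ≤ ‖X.n‖ * δ * (1 * 1) :=
      (norm_mul_le _ _).trans (mul_le_mul
        ((norm_mul_le _ _).trans (mul_le_mul_of_nonneg_left hn' (norm_nonneg _)))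
        ((norm_mul_le _ _).trans (mul_le_mul hS hS (norm_nonneg _) (by norm_num)))
        (norm_nonneg _) (by positivity))
    have h3 := norm_Jo_le true (X.n * X.n' * (X.S * X.S))
    have h4 : ‖(2 : ℝ)‖ = 2 := by norm_num
    rw [h4]
    linarith
  have h2 : ‖X.n‖ ≤ ‖X.n - ε • sn‖ + ε := by
    have e : X.n = (X.n - ε • sn) + ε • sn := by rw [sub_add_cancel]
    have h3 : ‖ε • sn‖ ≤ ε := by
      rw [norm_smul, Real.norm_of_nonneg hε.le]
      nlinarith [norm_sn_le]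
    calc ‖X.n‖ = ‖(X.n - ε • sn) + ε • sn‖ := by rw [sub_add_cancel]
      _ ≤ ‖X.n - ε • sn‖ + ‖ε • sn‖ := norm_add_le _ _
      _ ≤ _ := by linarith
  have h3 := norm_nonneg X.n
  have h4 := norm_nonneg (X.n - ε • sn)
  nlinarith

lemma n_bound (hδ : δ ≤ 1 / 100) (hε : 0 < ε) (s y : ℝ) :
    |lift X.n (s, y) - ε * Real.sin (2 * Real.pi * s)| ≤ ε / 50 := by
  have h1 := abs_lift_le (X.n - ε • sn) (s, y)
  have h2 : lift (X.n - ε • sn) (s, y) = lift X.n (s, y) - ε * Real.sin (2 * Real.pi * s) := by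
    rw [lift_sub, lift_smul]
    congr 2
    exact sn_real s _
  rw [h2] at h1
  exact h1.trans (X.n_close hδ hε)

lemma hasDerivAt_lift_fst {f : BB} (hf : Sm f) (s y : ℝ) :
    HasDerivAt (fun s : ℝ => lift f (s, y)) (lift (Dd false f) (s, y)) s := by
  have h1 : HasDerivAt (fun s : ℝ => ((s, y) : ℝ × ℝ)) (1, 0) s :=
    (hasDerivAt_id s).prodMk (hasDerivAt_const s y)
  have h2 := HasFDerivAt.comp_hasDerivAt (f := fun s : ℝ => ((s, y) : ℝ × ℝ)) s
    (lift_hasFDerivAt hf (s, y)) h1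
  convert! h2 using 1
  simp

lemma hasDerivAt_lift_snd {f : BB} (hf : Sm f) (x s : ℝ) :
    HasDerivAt (fun s : ℝ => lift f (x, s)) (lift (Dd true f) (x, s)) s := by
  have h1 : HasDerivAt (fun s : ℝ => ((x, s) : ℝ × ℝ)) (0, 1) s :=
    (hasDerivAt_const s x).prodMk (hasDerivAt_id s)
  have h2 := HasFDerivAt.comp_hasDerivAt (f := fun s : ℝ => ((x, s) : ℝ × ℝ)) s
    (lift_hasFDerivAt hf (x, s)) h1
  convert! h2 using 1
  simp

lemma v_lt (hδ : δ ≤ 1 / 100) (hε : 0 < ε) : lift X.v (0, 0) < lift X.v (1 / 2, 1 / 2) := by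
  have h1 : lift X.v (0, 0) < lift X.v (1 / 2, 0) := by
    apply increase_half hε (g := fun s => lift X.v (s, 0)) (g' := fun s => lift X.n (s, 0))
    · intro s
      have := hasDerivAt_lift_fst X.sv s 0
      rwa [X.D1v] at this
    · exact fun s => X.n_bound hδ hε s 0
  have h2 : lift X.v (1 / 2, 0) < lift X.v (1 / 2, 1 / 2) := by
    apply increase_half hε (g := fun s => lift X.v (1 / 2, s)) (g' := fun s => lift X.n' (1 / 2, s))
    · intro s
      have := hasDerivAt_lift_snd X.sv (1 / 2) s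
      rwa [X.D2v] at this
    · intro s
      have := X.n_bound hδ hε s (1 / 2)
      exact this
  exact h1.trans h2

end SolI

/-! ### functions in the original coordinates -/

section coords

variable {ε δ : ℝ} {X : SolI ε δ} {Ψ : ℝ × ℝ → ℝ × ℝ}

lemma chain (hδ : δ ≤ 1 / 100) (h1 : ∀ z, Ψ (X.Φ z) = z) (h2 : ∀ z, X.Φ (Ψ z) = z)
    (h3 : ContDiff ℝ ω Ψ) {h : BB} (sh : Sm h) : ∃ Gu Gt : ℝ → ℝ → ℝ,
    (∀ u t, HasFDerivAt (fun y : ℝ × ℝ => lift h (Ψ y))
      (Gu u t • ContinuousLinearMap.fst ℝ ℝ ℝ + Gt u t • ContinuousLinearMap.snd ℝ ℝ ℝ) (u, t)) ∧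
    Continuous (fun y : ℝ × ℝ => Gu y.1 y.2) ∧
    (∀ u t, Gu u t * (-X.β * lift (X.a' * X.T) (Ψ (u, t))) + Gt u t * lift X.T (Ψ (u, t))
      = lift (Dd false h) (Ψ (u, t))) ∧
    (∀ u t, Gu u t * (-X.β * lift (X.a * X.T') (Ψ (u, t))) + Gt u t * (-lift X.T' (Ψ (u, t)))
      = lift (Dd true h) (Ψ (u, t))) := by
  set G : ℝ × ℝ → ℝ := fun y => lift h (Ψ y) with hG
  have hGc : ContDiff ℝ ω G := (lift_contDiff sh).comp h3
  have hd : ∀ y, DifferentiableAt ℝ G y := fun y => hGc.differentiable (by simp) y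
  have hsplit : ∀ y (v : ℝ × ℝ), fderiv ℝ G y v = v.1 * fderiv ℝ G y (1, 0) + v.2 * fderiv ℝ G y (0, 1) := by
    intro y v
    have : v = v.1 • ((1 : ℝ), (0 : ℝ)) + v.2 • ((0 : ℝ), (1 : ℝ)) := by
      ext <;> simp
    conv_lhs => rw [this]
    rw [map_add, map_smul, map_smul, smul_eq_mul, smul_eq_mul]
  have hchain : ∀ y, (fderiv ℝ G y).comp (mat (-X.β * lift (X.a' * X.T) (Ψ y))
      (-X.β * lift (X.a * X.T') (Ψ y)) (lift X.T (Ψ y)) (-lift X.T' (Ψ y)))
      = lift (Dd false h) (Ψ y) • ContinuousLinearMap.fst ℝ ℝ ℝ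
        + lift (Dd true h) (Ψ y) • ContinuousLinearMap.snd ℝ ℝ ℝ := by
    intro y
    have e1 : HasFDerivAt G (fderiv ℝ G y) (X.Φ (Ψ y)) := by
      rw [h2]; exact (hd y).hasFDerivAt
    have e2 := e1.comp (Ψ y) (X.Φ_deriv hδ (Ψ y))
    have e3 : G ∘ X.Φ = lift h := by
      ext z
      simp only [hG, Function.comp_apply, h1]
    rw [e3] at e2
    exact e2.unique (lift_hasFDerivAt sh (Ψ y))
  refine ⟨fun u t => fderiv ℝ G (u, t) (1, 0), fun u t => fderiv ℝ G (u, t) (0, 1), ?_, ?_, ?_, ?_⟩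
  · intro u t
    have := (hd (u, t)).hasFDerivAt
    convert! this using 1
    ext <;> simp
  · have : Continuous (fderiv ℝ G) := hGc.continuous_fderiv (by simp)
    exact this.clm_apply continuous_const
  · intro u t
    have h4 := congrArg (fun A : ℝ × ℝ →L[ℝ] ℝ => A (1, 0)) (hchain (u, t))
    have h5 := hsplit (u, t) (mat (-X.β * lift (X.a' * X.T) (Ψ (u, t)))
      (-X.β * lift (X.a * X.T') (Ψ (u, t))) (lift X.T (Ψ (u, t))) (-lift X.T' (Ψ (u, t))) (1, 0))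
    have h6 : fderiv ℝ G (u, t) (mat (-X.β * lift (X.a' * X.T) (Ψ (u, t)))
      (-X.β * lift (X.a * X.T') (Ψ (u, t))) (lift X.T (Ψ (u, t))) (-lift X.T' (Ψ (u, t))) (1, 0))
      = lift (Dd false h) (Ψ (u, t)) := by
      refine Eq.trans h4 ?_
      simp
    rw [h6, mat_apply] at h5
    rw [h5]
    ring
  · intro u t
    have h4 := congrArg (fun A : ℝ × ℝ →L[ℝ] ℝ => A (0, 1)) (hchain (u, t))
    have h5 := hsplit (u, t) (mat (-X.β * lift (X.a' * X.T) (Ψ (u, t)))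
      (-X.β * lift (X.a * X.T') (Ψ (u, t))) (lift X.T (Ψ (u, t))) (-lift X.T' (Ψ (u, t))) (0, 1))
    have h6 : fderiv ℝ G (u, t) (mat (-X.β * lift (X.a' * X.T) (Ψ (u, t)))
      (-X.β * lift (X.a * X.T') (Ψ (u, t))) (lift X.T (Ψ (u, t))) (-lift X.T' (Ψ (u, t))) (0, 1))
      = lift (Dd true h) (Ψ (u, t)) := by
      refine Eq.trans h4 ?_
      simp
    rw [h6, mat_apply] at h5
    rw [h5]
    ring

end coords

end NewtonInf
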