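import Pool.Agent.Helper289.Newton.N14

open MeasureTheory Set Filter Topology
open scoped ContDiff NNReal

namespace NewtonInf

lemma pde_point {T T' a a' n n' x y w κ l β G1u G1t G2u G2t : ℝ}
    (e1 : G1u * (-β * (a' * T)) + G1t * T = -(κ * (n * x)))
    (e2 : G1u * (-β * (a * T')) + G1t * (-T') = -(κ * (n' * y)))
    (e3 : G2u * (-β * (a' * T)) + G2t * T = n)
    (e4 : G2u * (-β * (a * T')) + G2t * (-T') = n')
    (hx : x * (1 + κ * (w - a)) = 1) (hy : y * (1 + κ * (w + a')) = 1) (hl : κ * l = 1)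
    (hT : T ≠ 0) (hT' : T' ≠ 0) (ha : a + a' ≠ 0) :
    β * G1t + β * (l + w) * (β * G1u) = -(β ^ 2 * G2u) := by
  have key : T * T' * (a + a') * (G1t + β * (l + w) * G1u + β * G2u) = 0 := by
    linear_combination ((a - (l + w)) * T') * e1 - ((a' + (l + w)) * T) * e2 - T' * e3 - T * e4
      + n * T' * hx + n * T' * x * hl + n' * T * hy + n' * T * y * hl
  have h0 : T * T' * (a + a') ≠ 0 := mul_ne_zero (mul_ne_zero hT hT') ha
  have h1 := (mul_eq_zero.mp key).resolve_left h0
  linear_combination β * h1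

lemma not_mem_family {V : ℝ → ℝ → ℝ} (hsym : ∀ u t, V (-u) t = V u t)
    (h1 : V 0 0 < V (1 / 2) 0) (h2 : V 0 (1 / 2) = V (1 / 2) 0) (h3 : V (1 / 2) (1 / 2) = V 0 0)
    (n : ℤ) (m : ℝ) (W g : ℝ → ℝ) : ¬ ∀ u t, V u t = W (n * u + m * t) + g t := by
  intro h
  by_cases hm : m = 0
  · subst hm
    have a1 := h 0 0
    have a2 := h (1 / 2) 0
    have a3 := h 0 (1 / 2)
    have a4 := h (1 / 2) (1 / 2)
    simp only [mul_zero, zero_mul, add_zero] at a1 a2 a3 a4
    linarith
  · have a1 := h (1 / 4) (n / (4 * m))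
    have a2 := h (-(1 / 4)) (n / (4 * m))
    have e1 : (n : ℝ) * (1 / 4) + m * (n / (4 * m)) = n * (1 / 2) := by
      field_simp
      ring
    have e2 : (n : ℝ) * (-(1 / 4)) + m * (n / (4 * m)) = 0 := by
      field_simp
      ring
    rw [e1] at a1
    rw [e2, hsym] at a2
    have a3 := h 0 0
    have a4 := h (1 / 2) 0
    simp only [mul_zero, add_zero] at a3 a4
    linarith

theorem main_raw : ∃ V : ℝ → ℝ → ℝ, ContDiff ℝ ω (fun z : ℝ × ℝ => V z.1 z.2) ∧
    (∀ u t, V (u + 1) t = V u t) ∧ (∀ u t, V u (t + 1) = V u t) ∧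
    (∀ (n : ℤ) (m : ℝ) (W g : ℝ → ℝ), ¬ ∀ u t, V u t = W (n * u + m * t) + g t) ∧
    ∃ c₀ > 0, ∃ F : ℝ → ℝ → ℝ → ℝ,
      (∀ l, c₀ < |l| → ContDiff ℝ ω (fun z : ℝ × ℝ => F l z.1 z.2) ∧
        (∀ u t, F l (u + 1) t = F l u t) ∧ (∀ u t, F l u (t + 1) = F l u t) ∧
        ∀ (a b : ℝ) (u p : ℝ → ℝ), (∀ t ∈ Ioo a b, HasDerivAt u (p t) t) →
          (∀ t ∈ Ioo a b, HasDerivAt p (-deriv (fun x => V x t) (u t)) t) →
          ∀ t₀ ∈ Ioo a b, p t₀ = F l (u t₀) t₀ → ∀ t ∈ Ioo a b, p t = F l (u t) t) ∧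
      ContinuousOn (fun q : ℝ × ℝ × ℝ => F q.1 q.2.1 q.2.2) {q | c₀ < |q.1|} ∧
      (∀ l l', c₀ < |l| → c₀ < |l'| → l < l' → ∀ u t, F l u t < F l' u t) ∧
      ∃ c > 0, ∀ u t p : ℝ, c < |p| → ∃ l, c₀ < |l| ∧ F l u t = p := by
  obtain ⟨ρ, hρ, K, hK, hII⟩ := exists_solII
  set δ : ℝ := min (1 / 100) (ρ / 2) with hδdef
  have hδ : δ ≤ 1 / 100 := min_le_left _ _
  have hδ0 : 0 < δ := lt_min (by norm_num) (by positivity)
  have hδρ : δ < ρ := lt_of_le_of_lt (min_le_right _ _) (by linarith)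
  obtain ⟨ε, hε, ⟨X⟩⟩ := exists_solI δ hδ0
  obtain ⟨w, x, y, hY, hlip⟩ := hII X.n X.n' X.a X.a' X.sn' X.sn'' X.sa X.sa'
    (lt_of_le_of_lt X.nn hδρ) (lt_of_le_of_lt X.norm_n'_le hδρ) (lt_of_le_of_lt X.na hδρ)
    (lt_of_le_of_lt X.norm_a'_le hδρ) X.n0 X.n1 X.n'0 X.n'1 X.a0 X.a1 X.a'0 X.a'1
  obtain ⟨Ψ, h1, h2, h3⟩ := X.exists_Ψ hδ
  have hβ := X.β_pos hδ
  have hβb := abs_le.mp (X.β_bound hδ)
  -- periodicity of the inverse
  have hΨu : ∀ u t, Ψ (u + 1, t) = Ψ (u, t) + (((1 : ℤ) : ℝ), ((1 : ℤ) : ℝ)) := by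
    intro u t
    rw [← h1 (Ψ (u, t) + (((1 : ℤ) : ℝ), ((1 : ℤ) : ℝ))), X.Φ_int, h2]
    congr 1
    ext
    · simp
    · simp
  have hΨt : ∀ u t, Ψ (u, t + 1) = Ψ (u, t) + (((-1 : ℤ) : ℝ), ((1 : ℤ) : ℝ)) := by
    intro u t
    rw [← h1 (Ψ (u, t) + (((-1 : ℤ) : ℝ), ((1 : ℤ) : ℝ))), X.Φ_int, h2]
    congr 1
    ext
    · simp
    · simp
  have hlu : ∀ (f : BB) (u t : ℝ), lift f (Ψ (u + 1, t)) = lift f (Ψ (u, t)) := by
    intro f u t; rw [hΨu, lift_int]
  have hlt : ∀ (f : BB) (u t : ℝ), lift f (Ψ (u, t + 1)) = lift f (Ψ (u, t)) := by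
    intro f u t; rw [hΨt, lift_int]
  have hcΨ : ∀ f : BB, Sm f → ContDiff ℝ ω (fun z : ℝ × ℝ => lift f (Ψ (z.1, z.2))) := by
    intro f hf
    exact (lift_contDiff hf).comp h3
  set V : ℝ → ℝ → ℝ := fun u t => X.β ^ 2 * lift X.v (Ψ (u, t)) with hV
  obtain ⟨Vu, Vt, dV, -, v1, v2⟩ := chain hδ h1 h2 h3 X.sv
  have hderivV : ∀ u t, deriv (fun x => V x t) u = X.β ^ 2 * Vu u t := by
    intro u t
    have e1 : HasDerivAt (fun s : ℝ => ((s, t) : ℝ × ℝ)) (1, 0) u :=
      (hasDerivAt_id u).prodMk (hasDerivAt_const u t)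
    have e2 := (HasFDerivAt.comp_hasDerivAt (f := fun s : ℝ => ((s, t) : ℝ × ℝ)) u
      (dV u t) e1).const_mul (X.β ^ 2)
    have e3 := e2.deriv
    simp only [Function.comp_apply, add_apply, smul_apply,
      ContinuousLinearMap.coe_fst', ContinuousLinearMap.coe_snd', smul_eq_mul, mul_one, mul_zero,
      add_zero] at e3
    exact e3
  -- special values
  have p00 : Ψ (0, 0) = (0, 0) := by
    have e := X.Φ_half 0 0 0 0 (by simp) (by simp)
    have e2 : (((0 : ℝ) + 0) / 2, ((0 : ℝ) - 0) / 2) = (0, 0) := by norm_num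
    rw [e2] at e
    rw [← e, h1, e]
  have p10 : Ψ (1 / 2, 0) = (1 / 2, 1 / 2) := by
    have e := X.Φ_half (1 / 2) (1 / 2) 1 1 (by norm_num) (by norm_num)
    have e2 : (((1 / 2 : ℝ) + 1 / 2) / 2, ((1 / 2 : ℝ) - 1 / 2) / 2) = (1 / 2, 0) := by norm_num
    rw [e2] at e
    rw [← e, h1]
  have p01 : Ψ (0, 1 / 2) = (-1 / 2, 1 / 2) := by
    have e := X.Φ_half (-1 / 2) (1 / 2) (-1) 1 (by norm_num) (by norm_num)
    have e2 : (((-1 / 2 : ℝ) + 1 / 2) / 2, ((1 / 2 : ℝ) - (-1 / 2)) / 2) = (0, 1 / 2) := by norm_num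
    rw [e2] at e
    rw [← e, h1]
  have p11 : Ψ (1 / 2, 1 / 2) = (0, 1) := by
    have e := X.Φ_half 0 1 0 2 (by norm_num) (by norm_num)
    have e2 : (((0 : ℝ) + 1) / 2, ((1 : ℝ) - 0) / 2) = (1 / 2, 1 / 2) := by norm_num
    rw [e2] at e
    rw [← e, h1]
  have V1 : V 0 0 < V (1 / 2) 0 := by
    simp only [hV]
    rw [p00, p10]
    exact mul_lt_mul_of_pos_left (X.v_lt hδ hε) (by positivity)
  have V2 : V 0 (1 / 2) = V (1 / 2) 0 := by
    simp only [hV]
    rw [p01, p10]
    have e := lift_int X.v (-1 / 2, 1 / 2) 1 0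
    have e2 : ((-1 / 2 : ℝ), (1 / 2 : ℝ)) + (((1 : ℤ) : ℝ), ((0 : ℤ) : ℝ)) = (1 / 2, 1 / 2) := by
      ext
      · simp; norm_num
      · simp
    rw [e2] at e
    rw [e]
  have V3 : V (1 / 2) (1 / 2) = V 0 0 := by
    simp only [hV]
    rw [p11, p00]
    have e := lift_int X.v (0, 0) 0 1
    have e2 : ((0 : ℝ), (0 : ℝ)) + (((0 : ℤ) : ℝ), ((1 : ℤ) : ℝ)) = (0, 1) := by
      ext
      · simp
      · simp
    rw [e2] at e
    rw [e]
  have Vsym : ∀ u t, V (-u) t = V u t := by
    intro u t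
    simp only [hV]
    congr 1
    rcases hxy : Ψ (u, t) with ⟨x', y'⟩
    have e1 : X.Φ (x', y') = (u, t) := by rw [← hxy, h2]
    have e2 := X.Φ_refl x' y'
    rw [e1] at e2
    have e3 : Ψ (-u, t) = (-y', -x') := by rw [← h1 (-y', -x'), e2]
    rw [e3, X.v_refl]
  refine ⟨V, contDiff_const.mul (hcΨ X.v X.sv), fun u t => ?_, fun u t => ?_,
    not_mem_family Vsym V1 V2 V3, ?_⟩
  · simp only [hV]; rw [hlu]
  · simp only [hV]; rw [hlt]
  -- the leaves
  set c₀ : ℝ := 1 + 1 / ρ + K with hc₀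
  have hc₀1 : 1 ≤ c₀ := by
    have : 0 < 1 / ρ := by positivity
    linarith
  have hinv : ∀ l : ℝ, c₀ < |l| → |1 / l| < ρ ∧ |1 / l| ≤ 1 ∧ l ≠ 0 := by
    intro l hl
    have hl0 : 0 < |l| := by linarith
    have hne : l ≠ 0 := abs_pos.mp hl0
    rw [abs_div, abs_one]
    refine ⟨?_, ?_, hne⟩
    · rw [div_lt_comm₀ hl0 hρ]
      linarith
    · rw [div_le_one hl0]; linarith
  refine ⟨c₀, by linarith, fun l u t => X.β * (l + lift (w (1 / l)) (Ψ (u, t))), ?_, ?_, ?_, ?_⟩
  · intro l hl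
    obtain ⟨i1, i2, i3⟩ := hinv l hl
    have Y := hY (1 / l) i1
    obtain ⟨Pu, Pt, dP, cP, q1, q2⟩ := chain hδ h1 h2 h3 Y.sw
    refine ⟨contDiff_const.mul (contDiff_const.add (hcΨ _ Y.sw)), fun u t => ?_, fun u t => ?_, ?_⟩
    · simp only; rw [hlu]
    · simp only; rw [hlt]
    · intro a b u p hu hp t₀ ht₀ h0 t ht
      apply graph_inv (g := fun u t => deriv (fun x => V x t) u)
        (f := fun u t => X.β * (l + lift (w (1 / l)) (Ψ (u, t))))
        (fu := fun u t => X.β * Pu u t) (ft := fun u t => X.β * Pt u t) _ _ _ hu hp ht₀ ht h0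
      · intro u t
        have := ((dP u t).const_add l).const_mul X.β
        convert! this using 1
        ext <;> simp
      · exact continuous_const.mul cP
      · intro u t
        rw [hderivV]
        have z1 := q1 u t
        have z2 := q2 u t
        have z3 := v1 u t
        have z4 := v2 u t
        rw [Y.D1w hδ i2, lift_neg, lift_smul, lift_mul, lift_mul] at z1
        rw [Y.D2w, lift_neg, lift_smul, lift_mul, lift_mul] at z2
        rw [X.D1v, lift_mul] at z3
        rw [X.D2v, lift_mul] at z4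
        have Ex : lift (x (1 / l)) (Ψ (u, t)) * (1 + (1 / l) *
            (lift (w (1 / l)) (Ψ (u, t)) - lift X.a (Ψ (u, t)))) = 1 := by
          have := congrArg (fun f : BB => lift f (Ψ (u, t))) Y.Ex
          simpa only [lift_mul, lift_add, lift_one, lift_smul, lift_sub] using this
        have Ey : lift (y (1 / l)) (Ψ (u, t)) * (1 + (1 / l) *
            (lift (w (1 / l)) (Ψ (u, t)) + lift X.a' (Ψ (u, t)))) = 1 := by
          have := congrArg (fun f : BB => lift f (Ψ (u, t))) Y.Ey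
          simpa only [lift_mul, lift_add, lift_one, lift_smul, lift_sub] using this
        have bT := (abs_lift_sub_le _ _ (Ψ (u, t))).trans X.nT
        have bT' := (abs_lift_sub_le _ _ (Ψ (u, t))).trans X.norm_T'_le
        have ba : |lift X.a (Ψ (u, t)) - 1| ≤ δ := by
          have := (abs_lift_sub_le X.a 1 (Ψ (u, t)))
          rw [one_smul] at this
          exact this.trans X.na
        have ba' : |lift X.a' (Ψ (u, t)) - 1| ≤ δ := by
          have := (abs_lift_sub_le X.a' 1 (Ψ (u, t)))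
          rw [one_smul] at this
          exact this.trans X.norm_a'_le
        have cT := abs_le.mp bT
        have cT' := abs_le.mp bT'
        have ca := abs_le.mp ba
        have ca' := abs_le.mp ba'
        exact pde_point z1 z2 z3 z4 Ex Ey (by field_simp) (by intro h; rw [h] at cT; linarith)
          (by intro h; rw [h] at cT'; linarith) (by intro h; linarith)
  · -- joint continuity
    have hw : ContinuousOn (fun l : ℝ => w (1 / l)) {l | c₀ < |l|} := by
      have hb : ContinuousOn w {κ : ℝ | |κ| < ρ} := by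
        apply (LipschitzOnWith.of_dist_le_mul (K := ⟨K, hK⟩) ?_).continuousOn
        intro κ hκ κ' hκ'
        rw [dist_eq_norm, Real.dist_eq]
        exact hlip κ κ' hκ hκ'
      apply hb.comp (g := w) (f := fun l : ℝ => 1 / l)
      · apply ContinuousOn.div continuousOn_const continuousOn_id
        intro l hl
        exact (hinv l hl).2.2
      · intro l hl
        exact (hinv l hl).1
    have h4 : ContinuousOn (fun q : ℝ × ℝ × ℝ => w (1 / q.1)) {q | c₀ < |q.1|} :=
      hw.comp continuousOn_fst (fun q hq => hq)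
    have h5 : Continuous (fun q : ℝ × ℝ × ℝ => rl (Ψ (q.2.1, q.2.2))) := by
      have h6 : Continuous Ψ := h3.continuous
      have h7 : Continuous rl := by
        unfold rl
        exact ((AddCircle.continuous_mk' 1).comp continuous_fst).prodMk
          ((AddCircle.continuous_mk' 1).comp continuous_snd)
      exact h7.comp (h6.comp (by fun_prop))
    have h8 : ContinuousOn (fun q : ℝ × ℝ × ℝ => (w (1 / q.1)) (rl (Ψ (q.2.1, q.2.2))))
        {q | c₀ < |q.1|} := by
      have h9 : Continuous (fun q : BB × TT => q.1 q.2) := continuous_eval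
      exact h9.comp_continuousOn (h4.prodMk h5.continuousOn)
    exact continuousOn_const.mul (continuousOn_fst.add h8)
  · -- monotonicity
    intro l l' hl hl' hll u t
    obtain ⟨i1, i2, i3⟩ := hinv l hl
    obtain ⟨j1, j2, j3⟩ := hinv l' hl'
    apply mul_lt_mul_of_pos_left _ hβ
    have b1 : |lift (w (1 / l)) (Ψ (u, t))| ≤ 1 / 100 := (abs_lift_le _ _).trans (hY _ i1).nw
    have b2 : |lift (w (1 / l')) (Ψ (u, t))| ≤ 1 / 100 := (abs_lift_le _ _).trans (hY _ j1).nw
    have b3 : |lift (w (1 / l)) (Ψ (u, t)) - lift (w (1 / l')) (Ψ (u, t))| ≤ K * |1 / l - 1 / l'| := by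
      have := abs_lift_le (w (1 / l) - w (1 / l')) (Ψ (u, t))
      rw [lift_sub] at this
      exact this.trans (hlip _ _ i1 j1)
    have c1 := abs_le.mp b1
    have c2 := abs_le.mp b2
    have c3 := abs_le.mp b3
    rcases lt_or_ge (l * l') 0 with hneg | hpos
    · -- opposite signs
      have hl0 : l < 0 ∧ 0 < l' := by
        rcases lt_or_ge l 0 with h | h
        · refine ⟨h, ?_⟩
          by_contra h'
          push Not at h'
          nlinarith
        · exfalso
          have : 0 < l' := lt_of_le_of_lt h hll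
          nlinarith
      rw [abs_of_neg hl0.1] at hl
      rw [abs_of_pos hl0.2] at hl'
      linarith
    · have hprod : c₀ * c₀ < l * l' := by
        have : l * l' = |l| * |l'| := by rw [← abs_mul, abs_of_nonneg hpos]
        rw [this]
        exact mul_lt_mul'' hl hl' (by linarith) (by linarith)
      have hK' : K < l * l' := by
        have : K ≤ c₀ := by
          have : 0 < 1 / ρ := by positivity
          linarith
        nlinarith
      have hp : 0 < l * l' := lt_of_le_of_lt hK hK'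
      have e : |1 / l - 1 / l'| = (l' - l) / (l * l') := by
        rw [div_sub_div _ _ i3 j3, one_mul, mul_one, abs_div, abs_of_pos hp,
          abs_of_pos (by linarith)]
      rw [e] at c3
      have h7 : K * ((l' - l) / (l * l')) < l' - l := by
        rw [mul_div_assoc', div_lt_iff₀ hp]
        have : 0 < l' - l := by linarith
        nlinarith
      linarith
  · -- covering
    have hcont : ∀ (u t : ℝ), ContinuousOn (fun l : ℝ => l + lift (w (1 / l)) (Ψ (u, t)))
        {l | c₀ < |l|} := by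
      intro u t
      have hb : ContinuousOn w {κ : ℝ | |κ| < ρ} := by
        apply (LipschitzOnWith.of_dist_le_mul (K := ⟨K, hK⟩) ?_).continuousOn
        intro κ hκ κ' hκ'
        rw [dist_eq_norm, Real.dist_eq]
        exact hlip κ κ' hκ hκ'
      have hw : ContinuousOn (fun l : ℝ => w (1 / l)) {l | c₀ < |l|} := by
        apply hb.comp (g := w) (f := fun l : ℝ => 1 / l)
        · apply ContinuousOn.div continuousOn_const continuousOn_id
          intro l hl
          exact (hinv l hl).2.2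
        · intro l hl
          exact (hinv l hl).1
      have h9 : Continuous (fun f : BB => f (rl (Ψ (u, t)))) := continuous_eval_const _
      exact continuousOn_id.add (h9.comp_continuousOn hw)
    have hwb : ∀ l u t, c₀ < |l| → |lift (w (1 / l)) (Ψ (u, t))| ≤ 1 / 100 := fun l u t hl =>
      (abs_lift_le _ _).trans (hY _ (hinv l hl).1).nw
    refine ⟨2 * (c₀ + 1), by linarith, ?_⟩
    intro u t p hp
    -- the target value
    set q := p / X.β with hq
    have hqa : c₀ + 1 < |q| := by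
      rw [hq, abs_div, abs_of_pos hβ, lt_div_iff₀ hβ]
      nlinarith
    have hsolve : ∃ l, c₀ < |l| ∧ l + lift (w (1 / l)) (Ψ (u, t)) = q := by
      have hsub : Icc (q - 1) (q + 1) ⊆ {l | c₀ < |l|} := by
        intro l hl
        change c₀ < |l|
        rcases lt_abs.mp hqa with h | h
        · exact lt_abs.mpr (Or.inl (by linarith [hl.1]))
        · exact lt_abs.mpr (Or.inr (by linarith [hl.2]))
      have hle : q - 1 ≤ q + 1 := by linarith
      have hivt := intermediate_value_Icc hle ((hcont u t).mono hsub)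
      have m1 := abs_le.mp (hwb (q - 1) u t (hsub ⟨le_rfl, hle⟩))
      have m2 := abs_le.mp (hwb (q + 1) u t (hsub ⟨hle, le_rfl⟩))
      have hmem : q ∈ Icc ((q - 1) + lift (w (1 / (q - 1))) (Ψ (u, t)))
          ((q + 1) + lift (w (1 / (q + 1))) (Ψ (u, t))) := ⟨by linarith, by linarith⟩
      obtain ⟨l, hl, hl2⟩ := hivt hmem
      exact ⟨l, hsub hl, hl2⟩
    obtain ⟨l, hl, hl2⟩ := hsolve
    refine ⟨l, hl, ?_⟩
    simp only
    rw [hl2, hq]
    field_simp

end NewtonInf
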