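import Pool.Agent.Helper289.Newton.N1

open MeasureTheory Set Filter Topology
open scoped ContDiff

namespace NewtonInf

/-- projection of the plane to the torus -/
noncomputable def rl (δ : ℝ × ℝ) : TT := ((δ.1 : UnitAddCircle), (δ.2 : UnitAddCircle))

lemma rl_add (a b : ℝ × ℝ) : rl (a + b) = rl a + rl b := by
  simp [rl]

lemma rl_zero : rl 0 = 0 := by simp [rl]

/-- unit vectors -/
def dvec : Bool → ℝ × ℝ
  | false => (1, 0)
  | true => (0, 1)

lemma rl_dvec (d : Bool) (s : ℝ) : rl (s • dvec d) = dir d s := by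
  cases d <;> simp [rl, dvec, dir]

/-- orbit map of the translation action -/
noncomputable def orb (f : BB) (δ : ℝ × ℝ) : BB := pull (shf (rl δ)) f

lemma orb_zero (f : BB) : orb f 0 = f := by
  ext z; simp [orb, rl_zero]

lemma orb_eq (f : BB) (δ x : ℝ × ℝ) : orb f x = pull (shf (rl δ)) (orb f (x - δ)) := by
  ext z
  simp only [orb, pull_apply, shf_apply]
  congr 1
  rw [add_assoc, ← rl_add]
  congr 2
  abel

/-- smooth (analytic) vectors -/
def Sm (f : BB) : Prop := ContDiff ℝ ω (orb f)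

/-- derivation in the direction `d` -/
noncomputable def Dd (d : Bool) (f : BB) : BB := fderiv ℝ (orb f) 0 (dvec d)

lemma Sm.diff {f : BB} (hf : Sm f) : Differentiable ℝ (orb f) :=
  ContDiff.differentiable hf (by simp)

lemma hasFDerivAt_orb {f : BB} (hf : Sm f) (δ : ℝ × ℝ) :
    HasFDerivAt (orb f) ((pull (shf (rl δ))).comp (fderiv ℝ (orb f) 0)) δ := by
  have h1 : HasFDerivAt (orb f) (fderiv ℝ (orb f) 0) (δ - δ) := by
    rw [sub_self]; exact (hf.diff 0).hasFDerivAt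
  have h2 : HasFDerivAt (fun x : ℝ × ℝ => x - δ) (ContinuousLinearMap.id ℝ (ℝ × ℝ)) δ :=
    (hasFDerivAt_id δ).sub_const δ
  have h12 : HasFDerivAt (orb f ∘ fun x : ℝ × ℝ => x - δ)
      ((fderiv ℝ (orb f) 0).comp (ContinuousLinearMap.id ℝ (ℝ × ℝ))) δ :=
    HasFDerivAt.comp (f := fun x : ℝ × ℝ => x - δ) (g := orb f) δ h1 h2
  have h3 := (pull (shf (rl δ))).hasFDerivAt.comp δ h12
  rw [ContinuousLinearMap.comp_id] at h3
  refine h3.congr_of_eventuallyEq (Eventually.of_forall fun x => ?_)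
  exact orb_eq f δ x

lemma orb_Dd {f : BB} (hf : Sm f) (d : Bool) (δ : ℝ × ℝ) :
    orb (Dd d f) δ = fderiv ℝ (orb f) δ (dvec d) := by
  rw [(hasFDerivAt_orb hf δ).fderiv]
  rfl

lemma Sm.D {f : BB} (hf : Sm f) (d : Bool) : Sm (Dd d f) := by
  have : orb (Dd d f) = fun δ => fderiv ℝ (orb f) δ (dvec d) := by
    ext1 δ; exact orb_Dd hf d δ
  unfold Sm
  rw [this]
  exact (ContDiff.fderiv_right (m := ω) hf (by simp)).clm_apply contDiff_const

lemma orb_const (c : ℝ) : orb (ContinuousMap.const TT c) = fun _ => ContinuousMap.const TT c := by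
  ext1 δ; rfl

lemma sm_const (c : ℝ) : Sm (ContinuousMap.const TT c) := by
  unfold Sm; rw [orb_const]; exact contDiff_const

lemma orb_one : orb 1 = fun _ => (1 : BB) := by
  ext1 δ; rfl

lemma sm_one : Sm 1 := by
  unfold Sm; rw [orb_one]; exact contDiff_const

lemma Dd_const (d : Bool) (c : ℝ) : Dd d (ContinuousMap.const TT c) = 0 := by
  unfold Dd; rw [orb_const]; simp

lemma Dd_one (d : Bool) : Dd d 1 = 0 := by
  unfold Dd; rw [orb_one]; simp

lemma orb_add' (f g : BB) : orb (f + g) = orb f + orb g := by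
  ext1 δ; simp [orb]

lemma orb_sub' (f g : BB) : orb (f - g) = orb f - orb g := by
  ext1 δ; simp [orb]

lemma orb_neg' (f : BB) : orb (-f) = - orb f := by
  ext1 δ; simp [orb]

lemma orb_smul' (c : ℝ) (f : BB) : orb (c • f) = c • orb f := by
  ext1 δ; simp [orb]

lemma orb_mul' (f g : BB) : orb (f * g) = orb f * orb g := by
  ext1 δ; simp [orb, pull_mul]

lemma Sm.add {f g : BB} (hf : Sm f) (hg : Sm g) : Sm (f + g) := by
  unfold Sm; rw [orb_add']; exact ContDiff.add hf hg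

lemma Sm.sub {f g : BB} (hf : Sm f) (hg : Sm g) : Sm (f - g) := by
  unfold Sm; rw [orb_sub']; exact ContDiff.sub hf hg

lemma Sm.neg {f : BB} (hf : Sm f) : Sm (-f) := by
  unfold Sm; rw [orb_neg']; exact ContDiff.neg hf

lemma Sm.smul {f : BB} (hf : Sm f) (c : ℝ) : Sm (c • f) := by
  unfold Sm; rw [orb_smul']; exact ContDiff.const_smul c hf

lemma Sm.mul {f g : BB} (hf : Sm f) (hg : Sm g) : Sm (f * g) := by
  unfold Sm; rw [orb_mul']; exact ContDiff.mul hf hg

lemma Dd_add {f g : BB} (hf : Sm f) (hg : Sm g) (d : Bool) : Dd d (f + g) = Dd d f + Dd d g := by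
  unfold Dd; rw [orb_add', fderiv_add (hf.diff 0) (hg.diff 0)]; rfl

lemma Dd_sub {f g : BB} (hf : Sm f) (hg : Sm g) (d : Bool) : Dd d (f - g) = Dd d f - Dd d g := by
  unfold Dd; rw [orb_sub', fderiv_sub (hf.diff 0) (hg.diff 0)]; rfl

lemma Dd_neg (f : BB) (d : Bool) : Dd d (-f) = - Dd d f := by
  unfold Dd; rw [orb_neg', fderiv_neg]; rfl

lemma Dd_smul {f : BB} (hf : Sm f) (c : ℝ) (d : Bool) : Dd d (c • f) = c • Dd d f := by
  unfold Dd; rw [orb_smul', fderiv_const_smul (hf.diff 0)]; rfl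

lemma Dd_mul {f g : BB} (hf : Sm f) (hg : Sm g) (d : Bool) :
    Dd d (f * g) = Dd d f * g + f * Dd d g := by
  unfold Dd
  rw [orb_mul', fderiv_mul (hf.diff 0) (hg.diff 0)]
  simp only [add_apply, smul_apply, smul_eq_mul, orb_zero]
  ring

lemma orb_clm (K : BB →L[ℝ] BB) (hK : ∀ w f, K (pull (shf w) f) = pull (shf w) (K f)) (f : BB) :
    orb (K f) = fun δ => K (orb f δ) := by
  ext1 δ; exact (hK _ _).symm

lemma Sm.clm {f : BB} (hf : Sm f) (K : BB →L[ℝ] BB)
    (hK : ∀ w f, K (pull (shf w) f) = pull (shf w) (K f)) : Sm (K f) := by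
  unfold Sm; rw [orb_clm K hK]; exact K.contDiff.comp hf

lemma Dd_clm {f : BB} (hf : Sm f) (K : BB →L[ℝ] BB)
    (hK : ∀ w f, K (pull (shf w) f) = pull (shf w) (K f)) (d : Bool) :
    Dd d (K f) = K (Dd d f) := by
  unfold Dd; rw [orb_clm K hK]
  have := K.hasFDerivAt.comp (0 : ℝ × ℝ) (hf.diff 0).hasFDerivAt
  rw [show (fun δ => K (orb f δ)) = K ∘ orb f from rfl, this.fderiv]
  rfl

lemma Mo_tr (d : Bool) (w : TT) (f : BB) : Mo d (pull (shf w) f) = pull (shf w) (Mo d f) :=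
  Kop_shf _ _ _ _

lemma Jo_tr (d : Bool) (w : TT) (f : BB) : Jo d (pull (shf w) f) = pull (shf w) (Jo d f) :=
  Kop_shf _ _ _ _

lemma Sm.M {f : BB} (hf : Sm f) (d : Bool) : Sm (Mo d f) := hf.clm _ (Mo_tr d)
lemma Sm.J {f : BB} (hf : Sm f) (d : Bool) : Sm (Jo d f) := hf.clm _ (Jo_tr d)

lemma Dd_Mo {f : BB} (hf : Sm f) (d d' : Bool) : Dd d (Mo d' f) = Mo d' (Dd d f) :=
  Dd_clm hf _ (Mo_tr d') d

lemma Dd_Jo {f : BB} (hf : Sm f) (d d' : Bool) : Dd d (Jo d' f) = Jo d' (Dd d f) :=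
  Dd_clm hf _ (Jo_tr d') d

/-- line derivative -/
lemma hasDerivAt_line {f : BB} (hf : Sm f) (d : Bool) (z : TT) (s : ℝ) :
    HasDerivAt (fun s : ℝ => f (z + dir d s)) (Dd d f (z + dir d s)) s := by
  have h1 : HasDerivAt (fun s : ℝ => s • dvec d) (dvec d) s := by
    simpa using (hasDerivAt_id s).smul_const (dvec d)
  have h2 := (hasFDerivAt_orb hf (s • dvec d)).comp_hasDerivAt s h1
  have h3 := (ContinuousMap.evalCLM ℝ z : BB →L[ℝ] ℝ).hasFDerivAt.comp_hasDerivAt s h2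
  have e : (ContinuousMap.evalCLM ℝ z : BB →L[ℝ] ℝ) (((pull (shf (rl (s • dvec d)))).comp
      (fderiv ℝ (orb f) 0)) (dvec d)) = Dd d f (z + dir d s) := by
    rw [rl_dvec]; rfl
  rw [e] at h3
  refine h3.congr_of_eventuallyEq (Eventually.of_forall fun x => ?_)
  change f (z + dir d x) = f (z + rl (x • dvec d))
  rw [rl_dvec]

/-- derivative of the periodic primitive -/
lemma hasDerivAt_prim {g : ℝ → ℝ} (hg : Continuous g) (hp : Function.Periodic g 1) :
    HasDerivAt (fun s : ℝ => ∫ τ in (0:ℝ)..1, (τ - 1 / 2) * g (s + τ))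
      (g 0 - ∫ τ in (0:ℝ)..1, g τ) 0 := by
  set m := ∫ τ in (0:ℝ)..1, g τ with hm
  have hG : ∀ s : ℝ, ∫ τ in (0:ℝ)..1, (τ - 1 / 2) * g (s + τ)
      = (∫ x in (0:ℝ)..(s + 1), x * g x) - (∫ x in (0:ℝ)..s, x * g x) - (s + 1 / 2) * m := by
    intro s
    have e1 : ∫ τ in (0:ℝ)..1, (τ - 1 / 2) * g (s + τ)
        = ∫ τ in (0:ℝ)..1, (fun x => (x - s - 1 / 2) * g x) (s + τ) := by
      congr 1; ext τ; simp only; ring
    rw [e1, intervalIntegral.integral_comp_add_left (fun x => (x - s - 1 / 2) * g x) s]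
    have e2 : ∀ x, (x - s - 1 / 2) * g x = x * g x - (s + 1 / 2) * g x := fun x => by ring
    simp only [e2]
    rw [intervalIntegral.integral_sub, intervalIntegral.integral_const_mul, add_zero]
    · have h1 : ∫ x in s..(s + 1), g x = m := by
        have := hp.intervalIntegral_add_eq s 0
        simpa using this
      have h2 : (∫ x in s..(s + 1), x * g x)
          = (∫ x in (0:ℝ)..(s + 1), x * g x) - ∫ x in (0:ℝ)..s, x * g x := by
        rw [eq_sub_iff_add_eq, add_comm]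
        exact intervalIntegral.integral_add_adjacent_intervals
          ((continuous_id.mul hg).intervalIntegrable _ _)
          ((continuous_id.mul hg).intervalIntegrable _ _)
      rw [h1, h2]
    · exact (continuous_id.mul hg).intervalIntegrable _ _
    · exact (continuous_const.mul hg).intervalIntegrable _ _
  have hc : Continuous fun x : ℝ => x * g x := continuous_id.mul hg
  have hF : ∀ y : ℝ, HasDerivAt (fun y : ℝ => ∫ x in (0:ℝ)..y, x * g x) (y * g y) y := fun y =>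
    intervalIntegral.integral_hasDerivAt_right (hc.intervalIntegrable _ _)
      (hc.stronglyMeasurableAtFilter _ _) hc.continuousAt
  have h1 : HasDerivAt (fun s : ℝ => ∫ x in (0:ℝ)..(s + 1), x * g x) ((0 + 1) * g (0 + 1)) 0 :=
    (hF (0 + 1)).comp_add_const 0 1
  have h2 := hF 0
  have h3 : HasDerivAt (fun s : ℝ => (s + 1 / 2) * m) m 0 := by
    have := ((hasDerivAt_id' (0 : ℝ)).add_const (1 / 2)).mul_const m
    rwa [one_mul] at this
  have h4 := (h1.sub h2).sub h3
  have e : (0 + 1) * g (0 + 1) - 0 * g 0 - m = g 0 - m := by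
    rw [hp 0]; ring
  rw [e] at h4
  refine h4.congr_of_eventuallyEq (Eventually.of_forall fun s => ?_)
  exact hG s

/-- `D J f = f - M f` -/
lemma Dd_Jo_self {f : BB} (hf : Sm f) (d : Bool) : Dd d (Jo d f) = f - Mo d f := by
  ext z
  have h1 := hasDerivAt_line (hf.J d) d z 0
  rw [dir_zero, add_zero] at h1
  set g : ℝ → ℝ := fun τ => f (z + dir d τ) with hgdef
  have hg : Continuous g := f.continuous.comp (continuous_const.add (cont_dir d))
  have hper : Function.Periodic g 1 := by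
    intro τ
    simp only [hgdef, dir_add, dir_one, add_zero]
  have h2 := hasDerivAt_prim hg hper
  have h3 : (fun s : ℝ => Jo d f (z + dir d s)) = fun s : ℝ => ∫ τ in (0:ℝ)..1, (τ - 1 / 2) * g (s + τ) := by
    ext s
    rw [Jo_apply]
    congr 1
    ext τ
    simp only [hgdef, dir_add]
    congr 2
    abel
  rw [h3] at h1
  rw [h1.unique h2, ContinuousMap.sub_apply, Mo_apply]
  simp [hgdef, dir_zero]

lemma Jo_Dd {f : BB} (hf : Sm f) (d : Bool) : Jo d (Dd d f) = f - Mo d f := by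
  rw [← Dd_Jo hf, Dd_Jo_self hf]

lemma Dd_Mo_self {f : BB} (hf : Sm f) (d : Bool) : Dd d (Mo d f) = 0 := by
  have : Dd d (Jo d (Dd d f)) = Dd d f - Mo d (Dd d f) := Dd_Jo_self (hf.D d) d
  rw [Jo_Dd hf, Dd_sub hf (hf.M d)] at this
  have h2 := Dd_Mo hf d d
  rw [h2] at this ⊢
  -- `Mo (D f) = D (Mo f)`, and `Mo f` is invariant
  have h3 : Mo d (Dd d f) = 0 := by
    ext z
    have h1 := hasDerivAt_line (hf.M d) d z 0
    rw [dir_zero, add_zero, h2] at h1
    have h4 : (fun s : ℝ => Mo d f (z + dir d s)) = fun _ => Mo d f z := by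
      ext s
      exact congrArg (fun g : BB => g z) (pull_shf_Mo d s f)
    rw [h4] at h1
    exact h1.unique (hasDerivAt_const _ _)
  exact h3

lemma Mo_Dd_self {f : BB} (hf : Sm f) (d : Bool) : Mo d (Dd d f) = 0 := by
  rw [← Dd_Mo hf, Dd_Mo_self hf]

/-- lift to the plane -/
noncomputable def lift (f : BB) (x : ℝ × ℝ) : ℝ := f (rl x)

lemma lift_eq (f : BB) (x : ℝ × ℝ) : lift f x = orb f x 0 := by
  simp [lift, orb]

lemma lift_contDiff {f : BB} (hf : Sm f) : ContDiff ℝ ω (lift f) := by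
  have : lift f = fun x => (ContinuousMap.evalCLM ℝ (0 : TT) : BB →L[ℝ] ℝ) (orb f x) := by
    ext x; exact lift_eq f x
  rw [this]
  exact (ContinuousMap.evalCLM ℝ (0 : TT) : BB →L[ℝ] ℝ).contDiff.comp hf

lemma lift_hasFDerivAt {f : BB} (hf : Sm f) (x : ℝ × ℝ) :
    HasFDerivAt (lift f) (lift (Dd false f) x • ContinuousLinearMap.fst ℝ ℝ ℝ
      + lift (Dd true f) x • ContinuousLinearMap.snd ℝ ℝ ℝ) x := by
  have h := (ContinuousMap.evalCLM ℝ (0 : TT) : BB →L[ℝ] ℝ).hasFDerivAt.comp x (hasFDerivAt_orb hf x)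
  have e : (ContinuousMap.evalCLM ℝ (0 : TT) : BB →L[ℝ] ℝ).comp ((pull (shf (rl x))).comp
      (fderiv ℝ (orb f) 0)) = lift (Dd false f) x • ContinuousLinearMap.fst ℝ ℝ ℝ
      + lift (Dd true f) x • ContinuousLinearMap.snd ℝ ℝ ℝ := by
    have key : ∀ v : ℝ × ℝ, fderiv ℝ (orb f) 0 v = v.1 • Dd false f + v.2 • Dd true f := by
      intro v
      have hv : v = v.1 • dvec false + v.2 • dvec true := by
        ext <;> simp [dvec]
      conv_lhs => rw [hv]
      rw [map_add, map_smul, map_smul]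
      rfl
    ext
    · simp [key, lift]
    · simp [key, lift]
  rw [e] at h
  refine h.congr_of_eventuallyEq (Eventually.of_forall fun y => ?_)
  exact lift_eq f y

end NewtonInf
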