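import Pool.Agent.Helper289.Newton.N2

open MeasureTheory Set Filter Topology
open scoped ContDiff

namespace NewtonInf

/-! ### swap and reflections -/

/-- exchange of the two coordinates -/
noncomputable def swp : C(TT, TT) := ⟨Prod.swap, continuous_swap⟩

@[simp] lemma swp_apply (z : TT) : swp z = z.swap := rfl

lemma pull_swp_swp (f : BB) : pull swp (pull swp f) = f := by
  ext z; simp

lemma swap_dir (d : Bool) (τ : ℝ) (z : TT) : (z + dir d τ).swap = z.swap + dir (!d) τ := by
  cases d <;> simp [dir, Prod.ext_iff]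

lemma pull_swp_Kop (k : C(ℝ, ℝ)) (d : Bool) (f : BB) :
    pull swp (Kop k d f) = Kop k (!d) (pull swp f) := by
  ext z
  rw [pull_apply, Kop_apply, Kop_apply]
  congr 1
  ext τ
  rw [pull_apply, swp_apply, swp_apply, swap_dir, Bool.not_not]

lemma pull_swp_M (d : Bool) (f : BB) : pull swp (Mo d f) = Mo (!d) (pull swp f) :=
  pull_swp_Kop _ _ _

lemma pull_swp_J (d : Bool) (f : BB) : pull swp (Jo d f) = Jo (!d) (pull swp f) :=
  pull_swp_Kop _ _ _

/-- sign -/
def sg (b : Bool) : ℝ := if b then -1 else 1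

lemma sg_mul_self (b : Bool) : sg b * sg b = 1 := by cases b <;> simp [sg]

/-- reflections of the torus -/
noncomputable def rfx (r : Bool → Bool) : C(TT, TT) :=
  ⟨fun z => (if r false then -z.1 else z.1, if r true then -z.2 else z.2), by
    apply Continuous.prodMk
    · cases r false <;> simp <;> fun_prop
    · cases r true <;> simp <;> fun_prop⟩

lemma rfx_apply (r : Bool → Bool) (z : TT) :
    rfx r z = (if r false then -z.1 else z.1, if r true then -z.2 else z.2) := rfl

lemma rfx_dir (r : Bool → Bool) (d : Bool) (τ : ℝ) (z : TT) :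
    rfx r (z + dir d τ) = rfx r z + dir d (sg (r d) * τ) := by
  cases d
  · cases h : r false <;> cases h' : r true <;> simp [rfx_apply, dir, sg, h, h', Prod.ext_iff, add_comm]
  · cases h : r false <;> cases h' : r true <;> simp [rfx_apply, dir, sg, h, h', Prod.ext_iff, add_comm]

lemma pull_rfx_rfx (r : Bool → Bool) (f : BB) : pull (rfx r) (pull (rfx r) f) = f := by
  ext z
  rw [pull_apply, pull_apply]
  congr 1
  rw [rfx_apply, rfx_apply]
  cases h : r false <;> cases h' : r true <;> simp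

lemma pull_rfx_Kop (k k' : C(ℝ, ℝ)) (r : Bool → Bool) (d : Bool) (f : BB)
    (hk : r d = true → ∀ τ, k (1 - τ) = k' τ) (hk' : r d = false → k = k') :
    pull (rfx r) (Kop k d f) = Kop k' d (pull (rfx r) f) := by
  ext z
  rw [pull_apply, Kop_apply, Kop_apply]
  simp only [pull_apply, rfx_dir]
  cases h : r d
  · rw [hk' h]; simp [sg]
  · simp only [sg, if_true]
    have e := intervalIntegral.integral_comp_sub_left
      (fun τ => k τ * f (rfx r z + dir d τ)) (a := 0) (b := 1) 1
    rw [sub_self, sub_zero] at e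
    rw [← e]
    congr 1
    ext τ
    rw [hk h]
    congr 3
    rw [sub_eq_add_neg, dir_add, dir_one, zero_add]
    congr 1
    ring

lemma pull_rfx_M (r : Bool → Bool) (d : Bool) (f : BB) :
    pull (rfx r) (Mo d f) = Mo d (pull (rfx r) f) :=
  pull_rfx_Kop _ _ _ _ _ (fun _ _ => rfl) (fun _ => rfl)

lemma pull_rfx_J (r : Bool → Bool) (d : Bool) (f : BB) :
    pull (rfx r) (Jo d f) = sg (r d) • Jo d (pull (rfx r) f) := by
  cases h : r d
  · rw [sg, if_neg (by simp), one_smul]
    exact pull_rfx_Kop _ _ _ _ _ (fun h' => by rw [h] at h'; simp at h') (fun _ => rfl)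
  · rw [sg, if_pos rfl]
    have e : (-1 : ℝ) • Jo d (pull (rfx r) f)
        = Kop ⟨fun τ => 1 / 2 - τ, by fun_prop⟩ d (pull (rfx r) f) := by
      ext z
      rw [ContinuousMap.smul_apply, Jo_apply, Kop_apply, smul_eq_mul,
        ← intervalIntegral.integral_const_mul]
      congr 1
      ext τ
      change _ = (1 / 2 - τ) * _
      ring
    rw [e]
    refine pull_rfx_Kop _ _ _ _ _ (fun _ τ => ?_) (fun h' => by rw [h] at h'; simp at h')
    change (1 - τ) - 1 / 2 = 1 / 2 - τ
    ring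

/-- the mean of an odd function vanishes -/
lemma Mo_of_odd {d : Bool} {f : BB} (h : pull (rfx fun b => b == d) f = -f) : Mo d f = 0 := by
  have h1 := pull_rfx_M (fun b => b == d) d f
  rw [h, map_neg] at h1
  have h2 : pull (rfx fun b => b == d) (Mo d f) = Mo d f := by
    ext z
    rw [pull_apply]
    -- `rfx` moves `z` in the direction `d`
    have h3 : ∀ s : ℝ, Mo d f (z + dir d s) = Mo d f z := fun s =>
      congrArg (fun g : BB => g z) (pull_shf_Mo d s f)
    obtain ⟨x, y⟩ := z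
    induction x using QuotientAddGroup.induction_on with | _ x
    induction y using QuotientAddGroup.induction_on with | _ y
    cases d
    · have e : rfx (fun b => b == false) ((x : UnitAddCircle), (y : UnitAddCircle))
          = ((x : UnitAddCircle), (y : UnitAddCircle)) + dir false (-2 * x) := by
        rw [rfx_apply]
        simp only [dir, Prod.mk_add_mk, add_zero]
        have : ((x : ℝ) : UnitAddCircle) + ((-2 * x : ℝ) : UnitAddCircle) = -((x : ℝ) : UnitAddCircle) := by
          rw [← AddCircle.coe_add, ← AddCircle.coe_neg]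
          congr 1
          ring
        exact Prod.ext this.symm rfl
      exact (congrArg (Mo false f) e).trans (h3 _)
    · have e : rfx (fun b => b == true) ((x : UnitAddCircle), (y : UnitAddCircle))
          = ((x : UnitAddCircle), (y : UnitAddCircle)) + dir true (-2 * y) := by
        rw [rfx_apply]
        simp only [dir, Prod.mk_add_mk, add_zero]
        have : ((y : ℝ) : UnitAddCircle) + ((-2 * y : ℝ) : UnitAddCircle) = -((y : ℝ) : UnitAddCircle) := by
          rw [← AddCircle.coe_add, ← AddCircle.coe_neg]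
          congr 1
          ring
        exact Prod.ext rfl this.symm
      exact (congrArg (Mo true f) e).trans (h3 _)
  rw [h2] at h1
  have h4 : (2 : ℝ) • Mo d f = 0 := by
    rw [two_smul]
    nth_rewrite 1 [h1]
    simp
  exact (smul_eq_zero.mp h4).resolve_left (by norm_num)

/-! ### quantitative inverse function theorem -/

theorem exists_localInv {E : Type*} [NormedAddCommGroup E] [NormedSpace ℝ E] [CompleteSpace E]
    (H : E → E) (hH : ContDiff ℝ ω H) (Z0 : E) (L : E ≃L[ℝ] E)
    (hL : HasFDerivAt H (L : E →L[ℝ] E) Z0) (r0 : ℝ) (hr0 : 0 < r0) :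
    ∃ r > 0, r ≤ r0 ∧ ∃ ρ > 0, ∃ K : ℝ, 0 ≤ K ∧ ∃ Ψ : E → E,
      (∀ Z ∈ Metric.ball Z0 r, ∀ Z' ∈ Metric.ball Z0 r, H Z = H Z' → Z = Z') ∧
      (∀ Y ∈ Metric.ball (H Z0) ρ, Ψ Y ∈ Metric.ball Z0 r ∧ H (Ψ Y) = Y ∧ ContDiffAt ℝ ω Ψ Y) ∧
      (∀ Y ∈ Metric.ball (H Z0) ρ, ∀ Y' ∈ Metric.ball (H Z0) ρ, ‖Ψ Y - Ψ Y'‖ ≤ K * ‖Y - Y'‖) := by
  have hc : ContDiffAt ℝ ω H Z0 := hH.contDiffAt
  have hω : (ω : WithTop ℕ∞) ≠ 0 := by simp
  set e := hc.toOpenPartialHomeomorph H hL hω with he
  have heH : (e : E → E) = H := rfl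
  have hsrc : Z0 ∈ e.source := hc.mem_toOpenPartialHomeomorph_source hL hω
  have htgt : H Z0 ∈ e.target := hc.image_mem_toOpenPartialHomeomorph_target hL hω
  obtain ⟨r1, hr1, hr1s⟩ := Metric.isOpen_iff.mp e.open_source Z0 hsrc
  set r := min r0 r1 with hr
  have hrpos : 0 < r := lt_min hr0 hr1
  have hsymm0 : e.symm (H Z0) = Z0 := e.left_inv hsrc
  have hcs : ContDiffAt ℝ ω e.symm (H Z0) := by
    apply e.contDiffAt_symm htgt (f₀' := L)
    · rw [hsymm0]; exact hL
    · rw [hsymm0]; exact hc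
  have ev1 : ∀ᶠ Y in 𝓝 (H Z0), ContDiffAt ℝ ω e.symm Y := hcs.eventually (by simp)
  have ev2 : ∀ᶠ Y in 𝓝 (H Z0), Y ∈ e.target := e.open_target.mem_nhds htgt
  have ev3 : ∀ᶠ Y in 𝓝 (H Z0), e.symm Y ∈ Metric.ball Z0 r := by
    have : Tendsto e.symm (𝓝 (H Z0)) (𝓝 Z0) := by
      have := hcs.continuousAt
      rwa [ContinuousAt, hsymm0] at this
    exact this (Metric.ball_mem_nhds _ hrpos)
  obtain ⟨K, t, ht, hK⟩ := (hcs.of_le (m := 1) (by simp)).exists_lipschitzOnWith
  obtain ⟨ρ, hρ, hall⟩ := Metric.eventually_nhds_iff_ball.mp (ev1.and (ev2.and (ev3.and ht)))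
  refine ⟨r, hrpos, min_le_left _ _, ρ, hρ, K, K.2, e.symm, ?_, ?_, ?_⟩
  · intro Z hZ Z' hZ' hZZ
    have a1 : Z ∈ e.source := hr1s (Metric.ball_subset_ball (min_le_right _ _) hZ)
    have a2 : Z' ∈ e.source := hr1s (Metric.ball_subset_ball (min_le_right _ _) hZ')
    exact e.injOn a1 a2 hZZ
  · intro Y hY
    obtain ⟨b1, b2, b3, _⟩ := hall Y hY
    exact ⟨b3, e.right_inv b2, b1⟩
  · intro Y hY Y' hY'
    obtain ⟨_, _, _, b4⟩ := hall Y hY
    obtain ⟨_, _, _, b4'⟩ := hall Y' hY'
    have := hK.dist_le_mul Y b4 Y' b4'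
    rwa [dist_eq_norm, dist_eq_norm] at this

end NewtonInf
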