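import Pool.Agent.Helper289.Newton.N3

open MeasureTheory Set Filter Topology
open scoped ContDiff

namespace NewtonInf

/-- the space of unknowns of the first system -/
abbrev EI := Fin 11 → BB

/-- the expression `(A T' - A' T) S` -/
noncomputable def Fex (Z : EI) : BB := (Z 4 * Z 7 - Z 5 * Z 6) * Z 8

/-- the first system -/
noncomputable def HI (s : ℝ) (Z : EI) : EI :=
  ![Z 0 - (2 : ℝ) • Jo true (Z 0 * Z 1 * (Z 8 * Z 8)),
    Z 1 - (2 : ℝ) • Jo false (Z 0 * Z 1 * (Z 8 * Z 8)),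
    Z 2 - Jo false (Z 9) + Jo true (Z 1 * Z 8),
    Z 3 - Jo true (Z 10) + Jo false (Z 0 * Z 8),
    Z 4 - Z 9 + Jo true ((3 : ℝ) • (Z 0 * Z 1 * (Z 8 * Z 8 * Z 8)) - Z 1 * Z 4 * (Z 8 * Z 8)),
    Z 5 - Z 10 + Jo false ((3 : ℝ) • (Z 0 * Z 1 * (Z 8 * Z 8 * Z 8)) - Z 0 * Z 5 * (Z 8 * Z 8)),
    Z 6 - s • Jo true (Fex Z),
    Z 7 + s • Jo false (Fex Z),
    Z 8 * (Z 2 + Z 3),
    Z 9 - s • Mo true ((4 : ℝ) • Fex Z + (Z 4 - Z 5)),
    Z 10 + s • Mo false ((4 : ℝ) • Fex Z + (Z 4 - Z 5))]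

/-- base point -/
noncomputable def bI : EI :=
  ![0, 0, 1, 1, 0, 0, (-1 / 2 : ℝ) • 1, (-1 / 2 : ℝ) • 1, (1 / 2 : ℝ) • 1, 0, 0]

lemma contDiff_HI (s : ℝ) : ContDiff ℝ ω (HI s) := by
  rw [contDiff_pi]
  intro i
  unfold HI Fex
  fin_cases i <;> simp only [Fin.isValue, Fin.reduceFinMk, Matrix.cons_val, Matrix.cons_val_zero,
    Matrix.cons_val_one] <;> fun_prop

/-- coordinate projections -/
noncomputable def pI (i : Fin 11) : EI →L[ℝ] BB := ContinuousLinearMap.proj i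

@[simp] lemma pI_apply (i : Fin 11) (Z : EI) : pI i Z = Z i := rfl

/-- linearisation -/
noncomputable def LI (s : ℝ) : EI →L[ℝ] EI :=
  ContinuousLinearMap.pi ![pI 0, pI 1,
    pI 2 - (Jo false).comp (pI 9) + (1 / 2 : ℝ) • (Jo true).comp (pI 1),
    pI 3 - (Jo true).comp (pI 10) + (1 / 2 : ℝ) • (Jo false).comp (pI 0),
    pI 4 - pI 9, pI 5 - pI 10,
    pI 6 + (s / 4) • (Jo true).comp (pI 4 - pI 5),
    pI 7 - (s / 4) • (Jo false).comp (pI 4 - pI 5),
    (2 : ℝ) • pI 8 + (1 / 2 : ℝ) • (pI 2 + pI 3),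
    pI 9, pI 10]

/-- inverse of the linearisation -/
noncomputable def LI' (s : ℝ) : EI →L[ℝ] EI :=
  ContinuousLinearMap.pi ![pI 0, pI 1,
    pI 2 + (Jo false).comp (pI 9) - (1 / 2 : ℝ) • (Jo true).comp (pI 1),
    pI 3 + (Jo true).comp (pI 10) - (1 / 2 : ℝ) • (Jo false).comp (pI 0),
    pI 4 + pI 9, pI 5 + pI 10,
    pI 6 - (s / 4) • (Jo true).comp ((pI 4 + pI 9) - (pI 5 + pI 10)),
    pI 7 + (s / 4) • (Jo false).comp ((pI 4 + pI 9) - (pI 5 + pI 10)),
    (1 / 2 : ℝ) • (pI 8 - (1 / 2 : ℝ) •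
      ((pI 2 + (Jo false).comp (pI 9) - (1 / 2 : ℝ) • (Jo true).comp (pI 1)) +
        (pI 3 + (Jo true).comp (pI 10) - (1 / 2 : ℝ) • (Jo false).comp (pI 0)))),
    pI 9, pI 10]

lemma LI_left (s : ℝ) (Z : EI) : LI' s (LI s Z) = Z := by
  ext1 i
  fin_cases i <;> simp [LI, LI'] <;> module

lemma LI_right (s : ℝ) (Z : EI) : LI s (LI' s Z) = Z := by
  ext1 i
  fin_cases i <;> simp [LI, LI'] <;> module

/-- the linearisation as an equivalence -/
noncomputable def LIe (s : ℝ) : EI ≃L[ℝ] EI :=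
  ContinuousLinearEquiv.equivOfInverse (LI s) (LI' s) (LI_left s) (LI_right s)

lemma hasDerivAt_lineI (h : EI) (i : Fin 11) :
    HasDerivAt (fun t : ℝ => (bI + t • h) i) (h i) 0 := by
  have := ((hasDerivAt_id (0 : ℝ)).smul_const (h i)).const_add (bI i)
  simpa using this

lemma hasDerivAt_J {f : ℝ → BB} {f' : BB} {t : ℝ} (d : Bool) (hf : HasDerivAt f f' t) :
    HasDerivAt (fun t => Jo d (f t)) (Jo d f') t :=
  (Jo d).hasFDerivAt.comp_hasDerivAt t hf

lemma hasDerivAt_M {f : ℝ → BB} {f' : BB} {t : ℝ} (d : Bool) (hf : HasDerivAt f f' t) :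
    HasDerivAt (fun t => Mo d (f t)) (Mo d f') t :=
  (Mo d).hasFDerivAt.comp_hasDerivAt t hf

lemma line_HI (s : ℝ) (h : EI) : HasDerivAt (fun t : ℝ => HI s (bI + t • h)) (LI s h) 0 := by
  have e := hasDerivAt_lineI h
  have n0 : (bI + (0 : ℝ) • h) = bI := by simp
  have hF : HasDerivAt (fun t : ℝ => Fex (bI + t • h)) ((-1 / 4 : ℝ) • (h 4 - h 5)) 0 := by
    have h1 := (((e 4).mul (e 7)).sub ((e 5).mul (e 6))).mul (e 8)
    rw [n0] at h1
    convert! h1 using 1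
    simp [bI]
    ext z
    simp
    ring
  have g1 : HasDerivAt (fun t : ℝ => (bI + t • h) 0 * (bI + t • h) 1 * ((bI + t • h) 8 * (bI + t • h) 8)) 0 0 := by
    have h1 := ((e 0).mul (e 1)).mul ((e 8).mul (e 8))
    rw [n0] at h1
    convert! h1 using 1
    simp [bI]
  rw [hasDerivAt_pi]
  intro i
  fin_cases i
  · have h1 := (e 0).sub ((hasDerivAt_J true g1).const_smul (2 : ℝ))
    convert! h1 using 1
    simp [LI]
  · have h1 := (e 1).sub ((hasDerivAt_J false g1).const_smul (2 : ℝ))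
    convert! h1 using 1
    simp [LI]
  · have h1 := ((e 2).sub (hasDerivAt_J false (e 9))).add (hasDerivAt_J true ((e 1).mul (e 8)))
    rw [n0] at h1
    convert! h1 using 1
    simp [LI, bI]
  · have h1 := ((e 3).sub (hasDerivAt_J true (e 10))).add (hasDerivAt_J false ((e 0).mul (e 8)))
    rw [n0] at h1
    convert! h1 using 1
    simp [LI, bI]
  · have h1 := ((e 4).sub (e 9)).add (hasDerivAt_J true
      (((((e 0).mul (e 1)).mul (((e 8).mul (e 8)).mul (e 8))).const_smul (3 : ℝ)).sub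
        (((e 1).mul (e 4)).mul ((e 8).mul (e 8)))))
    rw [n0] at h1
    convert! h1 using 1
    simp [LI, bI]
  · have h1 := ((e 5).sub (e 10)).add (hasDerivAt_J false
      (((((e 0).mul (e 1)).mul (((e 8).mul (e 8)).mul (e 8))).const_smul (3 : ℝ)).sub
        (((e 0).mul (e 5)).mul ((e 8).mul (e 8)))))
    rw [n0] at h1
    convert! h1 using 1
    simp [LI, bI]
  · have h1 := (e 6).sub ((hasDerivAt_J true hF).const_smul s)
    convert! h1 using 1
    simp [LI]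
    module
  · have h1 := (e 7).add ((hasDerivAt_J false hF).const_smul s)
    convert! h1 using 1
    simp [LI]
    module
  · have h0 : HasDerivAt (fun t : ℝ => (bI + t • h) 2 + (bI + t • h) 3) (h 2 + h 3) 0 :=
      (e 2).add (e 3)
    have h1 := (e 8).mul h0
    simp only [n0] at h1
    convert! h1 using 1
    ext z
    simp [LI, bI]
    ring
  · have h1 := (e 9).sub ((hasDerivAt_M true ((hF.const_smul (4 : ℝ)).add ((e 4).sub (e 5)))).const_smul s)
    convert! h1 using 1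
    simp [LI]
    module
  · have h1 := (e 10).add ((hasDerivAt_M false ((hF.const_smul (4 : ℝ)).add ((e 4).sub (e 5)))).const_smul s)
    convert! h1 using 1
    simp [LI]
    module

lemma hasFDerivAt_HI (s : ℝ) : HasFDerivAt (HI s) ((LIe s : EI ≃L[ℝ] EI) : EI →L[ℝ] EI) bI := by
  have hd : DifferentiableAt ℝ (HI s) bI := (contDiff_HI s).differentiable (by simp) bI
  have h1 := hd.hasFDerivAt
  have h2 : fderiv ℝ (HI s) bI = ((LIe s : EI ≃L[ℝ] EI) : EI →L[ℝ] EI) := by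
    ext1 h
    have h3 : HasDerivAt (fun t : ℝ => bI + t • h) h 0 := by
      simpa using ((hasDerivAt_id (0 : ℝ)).smul_const h).const_add bI
    have h4 : HasFDerivAt (HI s) (fderiv ℝ (HI s) bI) (bI + (0 : ℝ) • h) := by
      simpa using h1
    have h5 := h4.comp_hasDerivAt (0 : ℝ) h3
    exact h5.unique (line_HI s h)
  rwa [h2] at h1

end NewtonInf
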