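import Pool.Agent.Helper289.Newton.N4

open MeasureTheory Set Filter Topology
open scoped ContDiff

namespace NewtonInf

/-- sine and cosine on the torus (first coordinate) -/
noncomputable def sn : BB :=
  ⟨fun z => ((AddCircle.toCircle z.1 : Circle) : ℂ).im, by
    have := AddCircle.continuous_toCircle (T := (1 : ℝ))
    fun_prop⟩

noncomputable def cs : BB :=
  ⟨fun z => ((AddCircle.toCircle z.1 : Circle) : ℂ).re, by
    have := AddCircle.continuous_toCircle (T := (1 : ℝ))
    fun_prop⟩

lemma sn_apply (z : TT) : sn z = ((AddCircle.toCircle z.1 : Circle) : ℂ).im := rfl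
lemma cs_apply (z : TT) : cs z = ((AddCircle.toCircle z.1 : Circle) : ℂ).re := rfl

lemma toCircle_real (x : ℝ) : ((AddCircle.toCircle (x : UnitAddCircle) : Circle) : ℂ)
    = Complex.exp (((2 * Real.pi * x : ℝ) : ℂ) * Complex.I) := by
  rw [AddCircle.toCircle_apply_mk, Circle.coe_exp]
  simp

lemma sn_real (x : ℝ) (y : UnitAddCircle) : sn ((x : UnitAddCircle), y) = Real.sin (2 * Real.pi * x) := by
  rw [sn_apply, toCircle_real, Complex.exp_ofReal_mul_I_im]

lemma orb_sn : orb sn = fun δ => Real.cos (2 * Real.pi * δ.1) • sn + Real.sin (2 * Real.pi * δ.1) • cs := by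
  ext1 δ
  ext z
  simp only [orb, pull_apply, shf_apply, sn_apply, ContinuousMap.add_apply, ContinuousMap.smul_apply,
    cs_apply, smul_eq_mul]
  have : (z + rl δ).1 = z.1 + (δ.1 : UnitAddCircle) := rfl
  rw [this, AddCircle.toCircle_add, Circle.coe_mul, Complex.mul_im, toCircle_real,
    Complex.exp_ofReal_mul_I_im, Complex.exp_ofReal_mul_I_re]
  ring

lemma sm_sn : Sm sn := by
  unfold Sm
  rw [orb_sn]
  fun_prop

lemma Dd_true_sn : Dd true sn = 0 := by
  ext z
  have h1 := hasDerivAt_line sm_sn true z 0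
  rw [dir_zero, add_zero] at h1
  have h2 : (fun s : ℝ => sn (z + dir true s)) = fun _ => sn z := by
    ext s
    simp [sn_apply, dir]
  rw [h2] at h1
  exact h1.unique (hasDerivAt_const _ _)

lemma sn_rfx (r : Bool → Bool) : pull (rfx r) sn = sg (r false) • sn := by
  ext z
  rw [pull_apply, sn_apply, ContinuousMap.smul_apply, sn_apply, rfx_apply]
  cases h : r false
  · simp [sg]
  · simp only [sg, if_true]
    rw [AddCircle.toCircle_neg, Circle.coe_inv_eq_conj, Complex.conj_im]
    simp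

/-- smooth vectors and general maps -/
lemma Sm.swp {f : BB} (hf : Sm f) : Sm (pull swp f) := by
  unfold Sm
  have : orb (pull NewtonInf.swp f) = fun δ : ℝ × ℝ => pull NewtonInf.swp (orb f (δ.2, δ.1)) := by
    ext1 δ
    ext z
    simp only [orb, pull_apply, shf_apply, swp_apply]
    congr 1
  rw [this]
  exact (pull NewtonInf.swp).contDiff.comp (ContDiff.comp hf (contDiff_snd.prodMk contDiff_fst))

lemma Dd_swp {f : BB} (hf : Sm f) (d : Bool) : Dd d (pull swp f) = pull swp (Dd (!d) f) := by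
  ext z
  have h1 := hasDerivAt_line hf.swp d z 0
  rw [dir_zero, add_zero] at h1
  have h2 := hasDerivAt_line hf (!d) z.swap 0
  rw [dir_zero, add_zero] at h2
  have h3 : (fun s : ℝ => pull swp f (z + dir d s)) = fun s : ℝ => f (z.swap + dir (!d) s) := by
    ext s
    rw [pull_apply, swp_apply, swap_dir]
  rw [h3] at h1
  exact h1.unique h2

/-! ### equivariance of the first system -/

/-- right-hand side -/
noncomputable def srcI (ε : ℝ) : EI :=
  ![ε • sn, ε • pull swp sn, 1, 1, 0, 0, (-1 / 2 : ℝ) • 1, (-1 / 2 : ℝ) • 1, 1, 0, 0]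

lemma HI_bI (s : ℝ) : HI s bI = srcI 0 := by
  ext1 i
  fin_cases i <;> simp [HI, bI, srcI, Fex]
  · ext z; simp; norm_num

/-- translation -/
noncomputable def trI (w : TT) (Z : EI) : EI := fun i => pull (shf w) (Z i)

lemma HI_trI (s : ℝ) (w : TT) (Z : EI) : HI s (trI w Z) = trI w (HI s Z) := by
  ext1 i
  fin_cases i <;>
    simp only [HI, trI, Fex, Fin.isValue, Fin.reduceFinMk, Matrix.cons_val, Matrix.cons_val_zero,
      Matrix.cons_val_one, Fin.zero_eta, Fin.mk_one, map_sub, map_add, map_smul, pull_mul,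
      ← Jo_tr, ← Mo_tr]

lemma trI_bI (w : TT) : trI w bI = bI := by
  ext1 i
  fin_cases i <;> simp [trI, bI, pull_one]

/-- exchange of the roles of the coordinates -/
noncomputable def SwI (Z : EI) : EI :=
  ![pull swp (Z 1), pull swp (Z 0), pull swp (Z 3), pull swp (Z 2), pull swp (Z 5), pull swp (Z 4),
    pull swp (Z 7), pull swp (Z 6), pull swp (Z 8), pull swp (Z 10), pull swp (Z 9)]

lemma Jo_swp (d : Bool) (f : BB) : Jo d (pull swp f) = pull swp (Jo (!d) f) := by
  rw [pull_swp_J, Bool.not_not]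

lemma Mo_swp (d : Bool) (f : BB) : Mo d (pull swp f) = pull swp (Mo (!d) f) := by
  rw [pull_swp_M, Bool.not_not]

lemma HI_SwI (s : ℝ) (Z : EI) : HI s (SwI Z) = SwI (HI s Z) := by
  ext1 i
  fin_cases i <;>
    simp only [HI, SwI, Fex, Fin.isValue, Fin.reduceFinMk, Matrix.cons_val, Matrix.cons_val_zero,
      Matrix.cons_val_one, Fin.zero_eta, Fin.mk_one, map_sub, map_add, map_smul, pull_mul,
      pull_swp_J, pull_swp_M, Bool.not_true, Bool.not_false, sub_mul] <;>
    ring_nf
  all_goals module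

lemma SwI_bI : SwI bI = bI := by
  ext1 i
  fin_cases i <;> simp [SwI, bI, pull_one]

/-- reflections, with abstract signs -/
noncomputable def TIa (ρ : C(TT, TT)) (a b : ℝ) (Z : EI) : EI :=
  ![a • pull ρ (Z 0), b • pull ρ (Z 1), pull ρ (Z 2),
    pull ρ (Z 3), a • pull ρ (Z 4), b • pull ρ (Z 5),
    pull ρ (Z 6), pull ρ (Z 7), pull ρ (Z 8),
    a • pull ρ (Z 9), b • pull ρ (Z 10)]

set_option maxHeartbeats 1000000 in
lemma HI_TIa (s a b : ℝ) (ρ : C(TT, TT)) (hs : s * a = s * b)
    (hJ0 : ∀ f, pull ρ (Jo false f) = a • Jo false (pull ρ f))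
    (hJ1 : ∀ f, pull ρ (Jo true f) = b • Jo true (pull ρ f))
    (hM : ∀ d f, pull ρ (Mo d f) = Mo d (pull ρ f)) (Z : EI) :
    HI s (TIa ρ a b Z) = TIa ρ a b (HI s Z) := by
  ext1 i
  fin_cases i
  all_goals simp only [HI, TIa, Fex, Fin.isValue, Fin.reduceFinMk, Matrix.cons_val, Matrix.cons_val_zero,
      Matrix.cons_val_one, Fin.zero_eta, Fin.mk_one, map_sub, map_add, map_smul, pull_mul,
      hJ0, hJ1, hM, sub_mul, smul_mul_assoc, mul_smul_comm, smul_smul]
  all_goals try module
  · ext z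
    simp only [ContinuousMap.sub_apply, ContinuousMap.smul_apply, smul_eq_mul]
    linear_combination (-(Jo true (pull ρ (Z 4) * pull ρ (Z 7) * pull ρ (Z 8)) z)) * hs
  · ext z
    simp only [ContinuousMap.sub_apply, ContinuousMap.add_apply, ContinuousMap.smul_apply, smul_eq_mul]
    linear_combination (Jo false (pull ρ (Z 5) * pull ρ (Z 6) * pull ρ (Z 8)) z) * hs
  · ext z
    simp only [ContinuousMap.sub_apply, ContinuousMap.add_apply, ContinuousMap.smul_apply, smul_eq_mul]
    linear_combination (-(4 * Mo true (pull ρ (Z 5) * pull ρ (Z 6) * pull ρ (Z 8)) z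
      + Mo true (pull ρ (Z 5)) z)) * hs
  · ext z
    simp only [ContinuousMap.sub_apply, ContinuousMap.add_apply, ContinuousMap.smul_apply, smul_eq_mul]
    linear_combination (4 * Mo false (pull ρ (Z 4) * pull ρ (Z 7) * pull ρ (Z 8)) z
      + Mo false (pull ρ (Z 4)) z) * hs

/-- reflections -/
noncomputable def TI (r : Bool → Bool) (Z : EI) : EI := TIa (rfx r) (sg (r false)) (sg (r true)) Z

lemma TI_bI (r : Bool → Bool) : TI r bI = bI := by
  ext1 i
  fin_cases i <;> simp [TI, TIa, bI, pull_one]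

lemma HI_TI (s : ℝ) (r : Bool → Bool) (h : s = 0 ∨ r false = r true) (Z : EI) :
    HI s (TI r Z) = TI r (HI s Z) := by
  apply HI_TIa
  · rcases h with h | h
    · rw [h]; ring
    · rw [h]
  · exact fun f => pull_rfx_J r false f
  · exact fun f => pull_rfx_J r true f
  · exact fun d f => pull_rfx_M r d f

end NewtonInf
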