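import Pool.Agent.Helper289.Newton.N5

open MeasureTheory Set Filter Topology
open scoped ContDiff

namespace NewtonInf

lemma norm_sn_le : ‖sn‖ ≤ 1 := by
  refine (ContinuousMap.norm_le _ (by norm_num)).mpr fun z => ?_
  rw [sn_apply, Real.norm_eq_abs]
  refine (Complex.abs_im_le_norm _).trans ?_
  rw [Circle.norm_coe]

lemma mem_ball_of {G Z : EI} {r : ℝ} (hr : 0 < r)
    (h : ∀ i, ∃ j, ‖G i - bI i‖ ≤ ‖Z j - bI j‖) (hZ : Z ∈ Metric.ball bI r) :
    G ∈ Metric.ball bI r := by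
  rw [mem_ball_iff_norm, pi_norm_lt_iff hr] at hZ ⊢
  intro i
  obtain ⟨j, hj⟩ := h i
  exact lt_of_le_of_lt hj (hZ j)

lemma trI_mem {Z : EI} {r : ℝ} (hr : 0 < r) (w : TT) (hZ : Z ∈ Metric.ball bI r) :
    trI w Z ∈ Metric.ball bI r := by
  apply mem_ball_of hr _ hZ
  intro i
  refine ⟨i, ?_⟩
  have h := congrFun (trI_bI w) i
  rw [← h]
  change ‖pull (shf w) (Z i) - pull (shf w) (bI i)‖ ≤ ‖Z i - trI w bI i‖
  rw [h, ← map_sub]
  exact norm_pull_le _ _

lemma norm_pull_const_sub (ρ : C(TT, TT)) (f : BB) (c : ℝ) :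
    ‖pull ρ f - c • 1‖ ≤ ‖f - c • 1‖ := by
  have : pull ρ f - c • 1 = pull ρ (f - c • 1) := by
    rw [map_sub, map_smul, pull_one]
  rw [this]
  exact norm_pull_le _ _

lemma bI_const (i : Fin 11) : ∃ c : ℝ, bI i = c • 1 := by
  fin_cases i
  · exact ⟨0, by simp [bI]⟩
  · exact ⟨0, by simp [bI]⟩
  · exact ⟨1, by simp [bI]⟩
  · exact ⟨1, by simp [bI]⟩
  · exact ⟨0, by simp [bI]⟩
  · exact ⟨0, by simp [bI]⟩
  · exact ⟨-1 / 2, rfl⟩
  · exact ⟨-1 / 2, rfl⟩
  · exact ⟨1 / 2, rfl⟩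
  · exact ⟨0, by simp [bI]⟩
  · exact ⟨0, by simp [bI]⟩

lemma norm_pull_sub_bI (ρ : C(TT, TT)) (f : BB) (i : Fin 11) :
    ‖pull ρ f - bI i‖ ≤ ‖f - bI i‖ := by
  obtain ⟨c, hc⟩ := bI_const i
  rw [hc]
  exact norm_pull_const_sub ρ f c

lemma SwI_mem {Z : EI} {r : ℝ} (hr : 0 < r) (hZ : Z ∈ Metric.ball bI r) :
    SwI Z ∈ Metric.ball bI r := by
  apply mem_ball_of hr _ hZ
  intro i
  fin_cases i
  · exact ⟨1, norm_pull_sub_bI _ _ 1⟩
  · exact ⟨0, norm_pull_sub_bI _ _ 0⟩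
  · exact ⟨3, norm_pull_sub_bI _ _ 3⟩
  · exact ⟨2, norm_pull_sub_bI _ _ 2⟩
  · exact ⟨5, norm_pull_sub_bI _ _ 5⟩
  · exact ⟨4, norm_pull_sub_bI _ _ 4⟩
  · exact ⟨7, norm_pull_sub_bI _ _ 7⟩
  · exact ⟨6, norm_pull_sub_bI _ _ 6⟩
  · exact ⟨8, norm_pull_sub_bI _ _ 8⟩
  · exact ⟨10, norm_pull_sub_bI _ _ 10⟩
  · exact ⟨9, norm_pull_sub_bI _ _ 9⟩

lemma norm_sg_smul (b : Bool) (f : BB) : ‖sg b • f‖ = ‖f‖ := by
  rw [norm_smul]
  cases b <;> simp [sg]

lemma TI_mem {Z : EI} {r : ℝ} (hr : 0 < r) (q : Bool → Bool) (hZ : Z ∈ Metric.ball bI r) :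
    TI q Z ∈ Metric.ball bI r := by
  apply mem_ball_of hr _ hZ
  have h0 : ∀ (b : Bool) (i : Fin 11), bI i = 0 → ‖sg b • pull (rfx q) (Z i) - bI i‖ ≤ ‖Z i - bI i‖ := by
    intro b i hi
    rw [hi, sub_zero, sub_zero, norm_sg_smul]
    exact norm_pull_le _ _
  intro i
  refine ⟨i, ?_⟩
  fin_cases i
  · exact h0 _ 0 rfl
  · exact h0 _ 1 rfl
  · exact norm_pull_sub_bI _ _ 2
  · exact norm_pull_sub_bI _ _ 3
  · exact h0 _ 4 rfl
  · exact h0 _ 5 rfl
  · exact norm_pull_sub_bI _ _ 6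
  · exact norm_pull_sub_bI _ _ 7
  · exact norm_pull_sub_bI _ _ 8
  · exact h0 _ 9 rfl
  · exact h0 _ 10 rfl

lemma rfx_swp (r : Bool → Bool) (f : BB) :
    pull (rfx r) (pull swp f) = pull swp (pull (rfx fun b => r (!b)) f) := by
  ext z
  simp only [pull_apply, swp_apply, rfx_apply, Bool.not_true, Bool.not_false]
  congr 1

/-- a mean does not depend on the coordinate -/
lemma rfx_Mo (r r' : Bool → Bool) (d : Bool) (h : r (!d) = r' (!d)) (f : BB) :
    pull (rfx r) (Mo d f) = pull (rfx r') (Mo d f) := by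
  ext z
  rw [pull_apply, pull_apply]
  have h3 : ∀ (w : TT) (s : ℝ), Mo d f (w + dir d s) = Mo d f w := fun w s =>
    congrArg (fun g : BB => g w) (pull_shf_Mo d s f)
  obtain ⟨x, y⟩ := z
  induction x using QuotientAddGroup.induction_on with | _ x
  induction y using QuotientAddGroup.induction_on with | _ y
  cases d
  · have e : ∃ s, rfx r ((x : UnitAddCircle), (y : UnitAddCircle))
          = rfx r' ((x : UnitAddCircle), (y : UnitAddCircle)) + dir false s := by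
      simp only [Bool.not_false] at h
      simp only [rfx_apply, dir, Prod.mk_add_mk, add_zero, h]
      cases h1 : r false <;> cases h2 : r' false
      · exact ⟨0, by simp⟩
      · refine ⟨2 * x, Prod.ext ?_ rfl⟩
        simp only [if_true]
        change ((x : ℝ) : UnitAddCircle) = -((x : ℝ) : UnitAddCircle) + ((2 * x : ℝ) : UnitAddCircle)
        rw [← AddCircle.coe_neg, ← AddCircle.coe_add]
        congr 1
        ring
      · refine ⟨-2 * x, Prod.ext ?_ rfl⟩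
        simp only [if_true]
        change -((x : ℝ) : UnitAddCircle) = ((x : ℝ) : UnitAddCircle) + ((-2 * x : ℝ) : UnitAddCircle)
        rw [← AddCircle.coe_neg, ← AddCircle.coe_add]
        congr 1
        ring
      · exact ⟨0, by simp⟩
    obtain ⟨s, hs⟩ := e
    exact (congrArg (Mo false f) hs).trans (h3 _ _)
  · have e : ∃ s, rfx r ((x : UnitAddCircle), (y : UnitAddCircle))
          = rfx r' ((x : UnitAddCircle), (y : UnitAddCircle)) + dir true s := by
      simp only [Bool.not_true] at h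
      simp only [rfx_apply, dir, Prod.mk_add_mk, add_zero, h]
      cases h1 : r true <;> cases h2 : r' true
      · exact ⟨0, by simp⟩
      · refine ⟨2 * y, Prod.ext rfl ?_⟩
        simp only [if_true]
        change ((y : ℝ) : UnitAddCircle) = -((y : ℝ) : UnitAddCircle) + ((2 * y : ℝ) : UnitAddCircle)
        rw [← AddCircle.coe_neg, ← AddCircle.coe_add]
        congr 1
        ring
      · refine ⟨-2 * y, Prod.ext rfl ?_⟩
        simp only [if_true]
        change -((y : ℝ) : UnitAddCircle) = ((y : ℝ) : UnitAddCircle) + ((-2 * y : ℝ) : UnitAddCircle)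
        rw [← AddCircle.coe_neg, ← AddCircle.coe_add]
        congr 1
        ring
      · exact ⟨0, by simp⟩
    obtain ⟨s, hs⟩ := e
    exact (congrArg (Mo true f) hs).trans (h3 _ _)

/-- the reflections of one or both coordinates -/
def rb : Bool → Bool := fun _ => true
def r0 : Bool → Bool := fun b => !b
def r1 : Bool → Bool := fun b => b

/-- A solution of the first system with all its symmetries. -/
structure SolI (ε δ : ℝ) where
  n : BB
  a : BB
  A : BB
  T : BB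
  S : BB
  q : BB
  sn' : Sm n
  sa : Sm a
  sA : Sm A
  sT : Sm T
  sS : Sm S
  sq : Sm q
  E1 : n = ε • sn + (2 : ℝ) • Jo true (n * pull swp n * (S * S))
  E2 : a = 1 + Jo false q - Jo true (pull swp n * S)
  E3 : A = q - Jo true ((3 : ℝ) • (n * pull swp n * (S * S * S)) - pull swp n * A * (S * S))
  E4 : T = (-1 / 2 : ℝ) • 1 + Jo true ((A * pull swp T - pull swp A * T) * S)
  E5 : S * (a + pull swp a) = 1
  E6 : q = Mo true ((4 : ℝ) • ((A * pull swp T - pull swp A * T) * S) + (A - pull swp A))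
  swS : pull swp S = S
  bT : pull (rfx rb) T = T
  n0 : pull (rfx r0) n = -n
  n1 : pull (rfx r1) n = n
  a0 : pull (rfx r0) a = a
  a1 : pull (rfx r1) a = a
  A0 : pull (rfx r0) A = -A
  A1 : pull (rfx r1) A = A
  S0 : pull (rfx r0) S = S
  S1 : pull (rfx r1) S = S
  q0 : pull (rfx r0) q = -q
  q1 : pull (rfx r1) q = q
  nn : ‖n‖ ≤ δ
  na : ‖a - 1‖ ≤ δ
  nA : ‖A‖ ≤ δ
  nT : ‖T - (-1 / 2 : ℝ) • 1‖ ≤ δ
  nS : ‖S - (1 / 2 : ℝ) • 1‖ ≤ δ

lemma sg_sn (k : Bool → Bool) (ε : ℝ) : sg (k false) • pull (rfx k) (ε • sn) = ε • sn := by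
  rw [map_smul, sn_rfx, smul_comm ε, smul_smul, sg_mul_self, one_smul]

lemma sg_sn' (k : Bool → Bool) (ε : ℝ) :
    sg (k true) • pull (rfx k) (ε • pull swp sn) = ε • pull swp sn := by
  rw [map_smul, rfx_swp, sn_rfx, map_smul, Bool.not_false, smul_comm ε, smul_smul, sg_mul_self,
    one_smul]

lemma TI_src (k : Bool → Bool) (ε : ℝ) (x y : BB)
    (hx : sg (k false) • pull (rfx k) x = x) (hy : sg (k true) • pull (rfx k) y = y) :
    TI k ![ε • sn, ε • pull swp sn, 1, 1, 0, 0, (-1 / 2 : ℝ) • 1, (-1 / 2 : ℝ) • 1, 1, x, y]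
      = ![ε • sn, ε • pull swp sn, 1, 1, 0, 0, (-1 / 2 : ℝ) • 1, (-1 / 2 : ℝ) • 1, 1, x, y] := by
  have h1 : pull (rfx k) (1 : BB) = 1 := rfl
  have h2 : pull (rfx k) ((-1 / 2 : ℝ) • (1 : BB)) = (-1 / 2 : ℝ) • 1 := by rw [map_smul, h1]
  have h3 : ∀ b : Bool, sg b • pull (rfx k) (0 : BB) = 0 := by intro b; rw [map_zero, smul_zero]
  ext1 i
  fin_cases i
  · exact sg_sn k ε
  · exact sg_sn' k ε
  · exact h1
  · exact h1
  · exact h3 _
  · exact h3 _
  · exact h2
  · exact h2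
  · exact h1
  · exact hx
  · exact hy

/-- existence of the solution, symmetric under swap and the central reflection -/
theorem exists_Z (δ : ℝ) (hδ : 0 < δ) : ∃ ε : ℝ, 0 < ε ∧ ∃ Z : EI, Z ∈ Metric.ball bI δ ∧
    HI 1 Z = srcI ε ∧ (∀ i, Sm (Z i)) ∧ SwI Z = Z ∧ TI rb Z = Z := by
  obtain ⟨r, hr, hrle, ρ, hρ, K, hK, Ψ, inj, surj, -⟩ :=
    exists_localInv (HI 1) (contDiff_HI 1) bI (LIe 1) (hasFDerivAt_HI 1) δ hδ
  set ε := ρ / 2 with hε
  have hε0 : 0 < ε := by positivity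
  have hsrc : ∀ Y : EI, (∀ i, ‖Y i - srcI 0 i‖ ≤ ε) → Y ∈ Metric.ball (HI 1 bI) ρ := by
    intro Y hY
    rw [HI_bI, mem_ball_iff_norm, pi_norm_lt_iff hρ]
    intro i
    exact lt_of_le_of_lt (hY i) (by rw [hε]; linarith)
  have hsn0 : ‖ε • sn‖ ≤ ε := by
    rw [norm_smul, Real.norm_of_nonneg hε0.le]
    nlinarith [norm_sn_le]
  have hsn : ∀ w : C(TT, TT), ‖pull w (ε • sn)‖ ≤ ε := fun w => (norm_pull_le _ _).trans hsn0
  have htrsrc : ∀ w, trI w (srcI ε) ∈ Metric.ball (HI 1 bI) ρ := by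
    intro w
    apply hsrc
    have h1 : ∀ c : ℝ, ‖pull (shf w) (c • (1 : BB)) - c • (1 : BB)‖ ≤ ε := by
      intro c; rw [map_smul, pull_one, sub_self, norm_zero]; exact hε0.le
    have h2 : ‖pull (shf w) (1 : BB) - (1 : BB)‖ ≤ ε := by
      rw [pull_one, sub_self, norm_zero]; exact hε0.le
    have h3 : ‖pull (shf w) (0 : BB) - (0 : BB)‖ ≤ ε := by
      rw [map_zero, sub_self, norm_zero]; exact hε0.le
    intro i
    fin_cases i
    · change ‖pull (shf w) (ε • sn) - (0 : ℝ) • sn‖ ≤ ε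
      rw [zero_smul, sub_zero]; exact hsn _
    · change ‖pull (shf w) (ε • pull swp sn) - (0 : ℝ) • pull swp sn‖ ≤ ε
      rw [zero_smul, sub_zero, ← map_smul, pull_pull]; exact hsn _
    · exact h2
    · exact h2
    · exact h3
    · exact h3
    · exact h1 _
    · exact h1 _
    · exact h2
    · exact h3
    · exact h3
  have htr0 : ∀ Y : EI, trI 0 Y = Y := by
    intro Y; ext1 i; ext z; simp [trI]
  have hsrcε : srcI ε ∈ Metric.ball (HI 1 bI) ρ := by
    have := htrsrc 0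
    rwa [htr0] at this
  obtain ⟨hZb, hZ, hΨ⟩ := surj _ hsrcε
  set Z := Ψ (srcI ε) with hZdef
  have htr : ∀ w, Ψ (trI w (srcI ε)) = trI w Z := by
    intro w
    obtain ⟨h1, h2, -⟩ := surj _ (htrsrc w)
    apply inj _ h1 _ (trI_mem hr w hZb)
    rw [h2, HI_trI, hZ]
  refine ⟨ε, hε0, Z, Metric.ball_subset_ball hrle hZb, hZ, ?_, ?_, ?_⟩
  · have hY : ContDiff ℝ ω (fun δ : ℝ × ℝ => trI (rl δ) (srcI ε)) := by
      rw [contDiff_pi]
      intro i
      have : Sm (srcI ε i) := by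
        fin_cases i
        · exact sm_sn.smul ε
        · exact sm_sn.swp.smul ε
        · exact sm_one
        · exact sm_one
        · exact (sm_const 0)
        · exact (sm_const 0)
        · exact sm_one.smul _
        · exact sm_one.smul _
        · exact sm_one
        · exact (sm_const 0)
        · exact (sm_const 0)
      exact this
    have hcomp : ContDiff ℝ ω (fun δ : ℝ × ℝ => Ψ (trI (rl δ) (srcI ε))) := by
      rw [contDiff_iff_contDiffAt]
      intro δ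
      exact ContDiffAt.comp δ (surj _ (htrsrc (rl δ))).2.2 hY.contDiffAt
    intro i
    have h3 : (fun δ : ℝ × ℝ => Ψ (trI (rl δ) (srcI ε))) = fun δ => trI (rl δ) Z := by
      ext1 δ; exact htr _
    rw [h3, contDiff_pi] at hcomp
    exact hcomp i
  · apply inj _ (SwI_mem hr hZb) _ hZb
    rw [HI_SwI, hZ]
    ext1 i
    fin_cases i
    · change pull swp (ε • pull swp sn) = ε • sn
      rw [map_smul, pull_swp_swp]
    · change pull swp (ε • sn) = ε • pull swp sn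
      rw [map_smul]
    · rfl
    · rfl
    · rfl
    · rfl
    · rfl
    · rfl
    · rfl
    · rfl
    · rfl
  · apply inj _ (TI_mem hr rb hZb) _ hZb
    rw [HI_TI 1 rb (Or.inr rfl), hZ]
    exact TI_src rb ε 0 0 (by simp) (by simp)

end NewtonInf
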