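import Pool.Agent.Helper289.Newton.N6

open MeasureTheory Set Filter Topology
open scoped ContDiff

namespace NewtonInf

lemma pull_rfx_id (f : BB) : pull (rfx fun _ => false) f = f := by
  ext z; simp [rfx_apply]

section comps
variable (s : ℝ) (Z : EI) (ε : ℝ)
lemma HI0 : HI s Z 0 = Z 0 - (2 : ℝ) • Jo true (Z 0 * Z 1 * (Z 8 * Z 8)) := rfl
lemma HI1 : HI s Z 1 = Z 1 - (2 : ℝ) • Jo false (Z 0 * Z 1 * (Z 8 * Z 8)) := rfl
lemma HI2 : HI s Z 2 = Z 2 - Jo false (Z 9) + Jo true (Z 1 * Z 8) := rfl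
lemma HI3 : HI s Z 3 = Z 3 - Jo true (Z 10) + Jo false (Z 0 * Z 8) := rfl
lemma HI4 : HI s Z 4 = Z 4 - Z 9 + Jo true ((3 : ℝ) • (Z 0 * Z 1 * (Z 8 * Z 8 * Z 8))
    - Z 1 * Z 4 * (Z 8 * Z 8)) := rfl
lemma HI5 : HI s Z 5 = Z 5 - Z 10 + Jo false ((3 : ℝ) • (Z 0 * Z 1 * (Z 8 * Z 8 * Z 8))
    - Z 0 * Z 5 * (Z 8 * Z 8)) := rfl
lemma HI6 : HI s Z 6 = Z 6 - s • Jo true (Fex Z) := rfl
lemma HI7 : HI s Z 7 = Z 7 + s • Jo false (Fex Z) := rfl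
lemma HI8 : HI s Z 8 = Z 8 * (Z 2 + Z 3) := rfl
lemma HI9 : HI s Z 9 = Z 9 - s • Mo true ((4 : ℝ) • Fex Z + (Z 4 - Z 5)) := rfl
lemma HI10 : HI s Z 10 = Z 10 + s • Mo false ((4 : ℝ) • Fex Z + (Z 4 - Z 5)) := rfl
end comps
/-- flat modification -/
noncomputable def flat (Z : EI) : EI := ![Z 0, Z 1, Z 2, Z 3, Z 4, Z 5, bI 6, bI 7, Z 8, Z 9, Z 10]

lemma flat_mem {Z : EI} {r : ℝ} (hr : 0 < r) (hZball : Z ∈ Metric.ball bI r) : flat Z ∈ Metric.ball bI r := by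
      apply mem_ball_of hr _ hZball
      intro i
      fin_cases i
      · exact ⟨0, le_rfl⟩
      · exact ⟨1, le_rfl⟩
      · exact ⟨2, le_rfl⟩
      · exact ⟨3, le_rfl⟩
      · exact ⟨4, le_rfl⟩
      · exact ⟨5, le_rfl⟩
      · refine ⟨6, ?_⟩
        change ‖bI 6 - bI 6‖ ≤ _
        rw [sub_self, norm_zero]; exact norm_nonneg _
      · refine ⟨7, ?_⟩
        change ‖bI 7 - bI 7‖ ≤ _
        rw [sub_self, norm_zero]; exact norm_nonneg _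
      · exact ⟨8, le_rfl⟩
      · exact ⟨9, le_rfl⟩
      · exact ⟨10, le_rfl⟩
lemma fl0 (Z : EI) : flat Z 0 = Z 0 := rfl
lemma fl1 (Z : EI) : flat Z 1 = Z 1 := rfl
lemma fl2 (Z : EI) : flat Z 2 = Z 2 := rfl
lemma fl3 (Z : EI) : flat Z 3 = Z 3 := rfl
lemma fl4 (Z : EI) : flat Z 4 = Z 4 := rfl
lemma fl5 (Z : EI) : flat Z 5 = Z 5 := rfl
lemma fl8 (Z : EI) : flat Z 8 = Z 8 := rfl
lemma fl9 (Z : EI) : flat Z 9 = Z 9 := rfl
lemma fl10 (Z : EI) : flat Z 10 = Z 10 := rfl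
lemma fl6 (Z : EI) : flat Z 6 = (-1 / 2 : ℝ) • 1 := rfl
lemma fl7 (Z : EI) : flat Z 7 = (-1 / 2 : ℝ) • 1 := rfl

lemma HI_flat (Z : EI) (ε : ℝ)
    (c0 : Z 0 - (2 : ℝ) • Jo true (Z 0 * Z 1 * (Z 8 * Z 8)) = ε • sn)
    (c1 : Z 1 - (2 : ℝ) • Jo false (Z 0 * Z 1 * (Z 8 * Z 8)) = ε • pull swp sn)
    (c2 : Z 2 - Jo false (Z 9) + Jo true (Z 1 * Z 8) = 1)
    (c3 : Z 3 - Jo true (Z 10) + Jo false (Z 0 * Z 8) = 1)
    (c4 : Z 4 - Z 9 + Jo true ((3 : ℝ) • (Z 0 * Z 1 * (Z 8 * Z 8 * Z 8))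
      - Z 1 * Z 4 * (Z 8 * Z 8)) = 0)
    (c5 : Z 5 - Z 10 + Jo false ((3 : ℝ) • (Z 0 * Z 1 * (Z 8 * Z 8 * Z 8))
      - Z 0 * Z 5 * (Z 8 * Z 8)) = 0)
    (c8 : Z 8 * (Z 2 + Z 3) = 1) :
    HI 0 (flat Z) = ![ε • sn, ε • pull swp sn, 1, 1, 0, 0, (-1 / 2 : ℝ) • 1,
      (-1 / 2 : ℝ) • 1, 1, Z 9, Z 10] := by
  ext1 i
  fin_cases i
  · change HI 0 (flat Z) 0 = ε • sn
    rw [HI0, fl0, fl1, fl8, c0]
  · change HI 0 (flat Z) 1 = ε • pull swp sn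
    rw [HI1, fl0, fl1, fl8, c1]
  · change HI 0 (flat Z) 2 = 1
    rw [HI2, fl2, fl9, fl1, fl8, c2]
  · change HI 0 (flat Z) 3 = 1
    rw [HI3, fl3, fl10, fl0, fl8, c3]
  · change HI 0 (flat Z) 4 = 0
    rw [HI4, fl4, fl9, fl0, fl1, fl8, c4]
  · change HI 0 (flat Z) 5 = 0
    rw [HI5, fl5, fl10, fl0, fl1, fl8, c5]
  · change HI 0 (flat Z) 6 = (-1 / 2 : ℝ) • 1
    rw [HI6, fl6, zero_smul, sub_zero]
  · change HI 0 (flat Z) 7 = (-1 / 2 : ℝ) • 1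
    rw [HI7, fl7, zero_smul, add_zero]
  · change HI 0 (flat Z) 8 = 1
    rw [HI8, fl8, fl2, fl3, c8]
  · change HI 0 (flat Z) 9 = Z 9
    rw [HI9, fl9, zero_smul, sub_zero]
  · change HI 0 (flat Z) 10 = Z 10
    rw [HI10, fl10, zero_smul, add_zero]

theorem exists_solI (δ : ℝ) (hδ : 0 < δ) : ∃ ε : ℝ, 0 < ε ∧ Nonempty (SolI ε δ) := by
  obtain ⟨r', hr', -, ρ', hρ', K', hK', Ψ', inj', -, -⟩ :=
    exists_localInv (HI 0) (contDiff_HI 0) bI (LIe 0) (hasFDerivAt_HI 0) 1 one_pos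
  obtain ⟨ε, hε0, Z, hZball, hZ, hsm, hsw, hb⟩ := exists_Z (min δ r') (lt_min hδ hr')
  refine ⟨ε, hε0, ?_⟩
  have c0 : Z 0 - (2 : ℝ) • Jo true (Z 0 * Z 1 * (Z 8 * Z 8)) = ε • sn := congrFun hZ 0
  have c1 : Z 1 - (2 : ℝ) • Jo false (Z 0 * Z 1 * (Z 8 * Z 8)) = ε • pull swp sn := congrFun hZ 1
  have c2 : Z 2 - Jo false (Z 9) + Jo true (Z 1 * Z 8) = 1 := congrFun hZ 2
  have c3 : Z 3 - Jo true (Z 10) + Jo false (Z 0 * Z 8) = 1 := congrFun hZ 3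
  have c4 : Z 4 - Z 9 + Jo true ((3 : ℝ) • (Z 0 * Z 1 * (Z 8 * Z 8 * Z 8))
    - Z 1 * Z 4 * (Z 8 * Z 8)) = 0 := congrFun hZ 4
  have c5 : Z 5 - Z 10 + Jo false ((3 : ℝ) • (Z 0 * Z 1 * (Z 8 * Z 8 * Z 8))
    - Z 0 * Z 5 * (Z 8 * Z 8)) = 0 := congrFun hZ 5
  have c6 : Z 6 - (1 : ℝ) • Jo true (Fex Z) = (-1 / 2 : ℝ) • 1 := congrFun hZ 6
  have c8 : Z 8 * (Z 2 + Z 3) = 1 := congrFun hZ 8
  have c9 : Z 9 - (1 : ℝ) • Mo true ((4 : ℝ) • Fex Z + (Z 4 - Z 5)) = 0 := congrFun hZ 9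
  have c10 : Z 10 + (1 : ℝ) • Mo false ((4 : ℝ) • Fex Z + (Z 4 - Z 5)) = 0 := congrFun hZ 10
  -- swap
  have s1 : pull swp (Z 0) = Z 1 := congrFun hsw 1
  have s3 : pull swp (Z 2) = Z 3 := congrFun hsw 3
  have s5 : pull swp (Z 4) = Z 5 := congrFun hsw 5
  have s7 : pull swp (Z 6) = Z 7 := congrFun hsw 7
  have s8 : pull swp (Z 8) = Z 8 := congrFun hsw 8
  -- central reflection
  have b6 : pull (rfx rb) (Z 6) = Z 6 := congrFun hb 6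
  have b9 : sg (rb false) • pull (rfx rb) (Z 9) = Z 9 := congrFun hb 9
  have b10 : sg (rb true) • pull (rfx rb) (Z 10) = Z 10 := congrFun hb 10
  have hq9 : Z 9 = Mo true ((4 : ℝ) • Fex Z + (Z 4 - Z 5)) := by
    rw [one_smul] at c9
    exact sub_eq_zero.mp c9
  have hq10 : Z 10 = Mo false (-((4 : ℝ) • Fex Z + (Z 4 - Z 5))) := by
    rw [one_smul] at c10
    rw [map_neg]
    exact eq_neg_of_add_eq_zero_left c10
  -- single reflections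
  set Zb : EI := flat Z with hZbdef
  have hr : 0 < min δ r' := lt_min hδ hr'
  have hZbb : Zb ∈ Metric.ball bI r' :=
    Metric.ball_subset_ball (min_le_right _ _) (flat_mem hr hZball)
  have hHZb := HI_flat Z ε c0 c1 c2 c3 c4 c5 c8
  rw [← hZbdef] at hHZb
  have hsing : ∀ k : Bool → Bool, sg (k false) • pull (rfx k) (Z 9) = Z 9 →
      sg (k true) • pull (rfx k) (Z 10) = Z 10 → TI k Zb = Zb := by
    intro k hk9 hk10
    have hmem : TI k Zb ∈ Metric.ball bI r' := TI_mem hr' k hZbb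
    apply inj' _ hmem _ hZbb
    rw [HI_TI 0 k (Or.inl rfl), hHZb]
    exact TI_src k ε _ _ hk9 hk10
  have k0 : TI r0 Zb = Zb := by
    apply hsing
    · conv_lhs => rw [hq9]
      rw [rfx_Mo r0 rb true rfl, ← hq9]
      exact b9
    · conv_lhs => rw [hq10]
      rw [rfx_Mo r0 (fun _ => false) false rfl, ← hq10, pull_rfx_id]
      simp [sg, r0]
  have k1 : TI r1 Zb = Zb := by
    apply hsing
    · conv_lhs => rw [hq9]
      rw [rfx_Mo r1 (fun _ => false) true rfl, ← hq9, pull_rfx_id]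
      simp [sg, r1]
    · conv_lhs => rw [hq10]
      rw [rfx_Mo r1 rb false rfl, ← hq10]
      exact b10
  have e0 : ∀ x y : BB, sg (r0 false) • x = y → x = -y := by
    intro x y h
    simp only [sg, r0, Bool.not_false, if_true, neg_smul, one_smul] at h
    rw [← h, neg_neg]
  have e1 : ∀ x y : BB, sg (r1 false) • x = y → x = y := by
    intro x y h
    simpa [sg, r1] using h
  have hnorm : ∀ i, ‖Z i - bI i‖ ≤ δ := by
    intro i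
    have := (mem_ball_iff_norm.mp hZball)
    exact ((norm_le_pi_norm (Z - bI) i).trans this.le).trans (min_le_left _ _)
  have hn0 := hnorm 0
  have hn2 := hnorm 2
  have hn4 := hnorm 4
  have hn6 := hnorm 6
  have hn8 := hnorm 8
  have hF : Fex Z = (Z 4 * pull swp (Z 6) - pull swp (Z 4) * Z 6) * Z 8 := by
    rw [s5, s7]; rfl
  refine ⟨{
    n := Z 0
    a := Z 2
    A := Z 4
    T := Z 6
    S := Z 8
    q := Z 9
    sn' := hsm 0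
    sa := hsm 2
    sA := hsm 4
    sT := hsm 6
    sS := hsm 8
    sq := hsm 9
    E1 := ?_
    E2 := ?_
    E3 := ?_
    E4 := ?_
    E5 := ?_
    E6 := ?_
    swS := s8
    bT := b6
    n0 := e0 _ _ (congrFun k0 0)
    n1 := e1 _ _ (congrFun k1 0)
    a0 := congrFun k0 2
    a1 := congrFun k1 2
    A0 := e0 _ _ (congrFun k0 4)
    A1 := e1 _ _ (congrFun k1 4)
    S0 := congrFun k0 8
    S1 := congrFun k1 8
    q0 := e0 _ _ (congrFun k0 9)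
    q1 := e1 _ _ (congrFun k1 9)
    nn := ?_
    na := hn2
    nA := ?_
    nT := hn6
    nS := hn8 }⟩
  · rw [s1]; exact sub_eq_iff_eq_add.mp c0
  · rw [s1]
    linear_combination c2
  · rw [s1]
    linear_combination c4
  · rw [← hF]
    rw [one_smul] at c6
    linear_combination c6
  · rw [s3]; exact c8
  · rw [← hF, s5]; exact hq9
  · simpa [bI] using hn0
  · simpa [bI] using hn4

end NewtonInf
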