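import Pool.Agent.Helper289.Newton.N7

open MeasureTheory Set Filter Topology
open scoped ContDiff

namespace NewtonInf

lemma eta_r1 : (fun b : Bool => b == true) = r1 := by funext b; cases b <;> rfl
lemma eta_r0 : (fun b : Bool => b == false) = r0 := by funext b; cases b <;> rfl

lemma oddM {f : BB} (h : pull (rfx r1) f = -f) : Mo true f = 0 := by
  apply Mo_of_odd; rw [eta_r1]; exact h

lemma oddM' {f : BB} (h : pull (rfx r0) f = -f) : Mo false f = 0 := by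
  apply Mo_of_odd; rw [eta_r0]; exact h

lemma r0_not : (fun b : Bool => r0 (!b)) = r1 := by funext b; cases b <;> rfl
lemma r1_not : (fun b : Bool => r1 (!b)) = r0 := by funext b; cases b <;> rfl
lemma rb_not : (fun b : Bool => rb (!b)) = rb := by funext b; cases b <;> rfl

/-- contraction lemma -/
lemma zero_of_fix {d : Bool} {g D : BB} (hg : ‖g‖ ≤ 1) (h : D = Jo d (g * D)) : D = 0 := by
  have h1 : ‖D‖ ≤ 1 / 2 * ‖D‖ := by
    calc ‖D‖ = ‖Jo d (g * D)‖ := by rw [← h]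
      _ ≤ 1 / 2 * ‖g * D‖ := norm_Jo_le _ _
      _ ≤ 1 / 2 * (1 * ‖D‖) := by
        apply mul_le_mul_of_nonneg_left _ (by norm_num)
        exact (norm_mul_le _ _).trans (mul_le_mul_of_nonneg_right hg (norm_nonneg _))
      _ = 1 / 2 * ‖D‖ := by ring
  have h2 : ‖D‖ ≤ 0 := by linarith
  exact norm_le_zero_iff.mp h2

lemma sub_Mo_zero {f : BB} (hf : Sm f) {d : Bool} (h : Dd d f = 0) : f = Mo d f := by
  have := Jo_Dd hf d
  rw [h, map_zero] at this
  exact sub_eq_zero.mp this.symm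

namespace SolI

variable {ε δ : ℝ} (X : SolI ε δ)

/-- the exchanged functions -/
noncomputable def n' : BB := pull swp X.n
noncomputable def a' : BB := pull swp X.a
noncomputable def A' : BB := pull swp X.A
noncomputable def T' : BB := pull swp X.T
noncomputable def F : BB := (X.A * X.T' - X.A' * X.T) * X.S

lemma sn'' : Sm X.n' := X.sn'.swp
lemma sa' : Sm X.a' := X.sa.swp
lemma sA' : Sm X.A' := X.sA.swp
lemma sT' : Sm X.T' := X.sT.swp
lemma sF : Sm X.F := ((X.sA.mul X.sT').sub (X.sA'.mul X.sT)).mul X.sS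

lemma sw_n : pull swp X.n = X.n' := rfl
lemma sw_n' : pull swp X.n' = X.n := pull_swp_swp _
lemma sw_a' : pull swp X.a' = X.a := pull_swp_swp _
lemma sw_A' : pull swp X.A' = X.A := pull_swp_swp _
lemma sw_T' : pull swp X.T' = X.T := pull_swp_swp _

lemma sw_F : pull swp X.F = - X.F := by
  unfold F
  rw [pull_mul, map_sub, pull_mul, pull_mul, sw_A', sw_T', X.swS]
  change (X.A' * X.T - X.A * X.T') * X.S = _
  ring

lemma E4F : X.T = (-1 / 2 : ℝ) • 1 + Jo true X.F := X.E4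

lemma E1' : X.n' = ε • pull swp sn + (2 : ℝ) • Jo false (X.n * X.n' * (X.S * X.S)) := by
  have h := congrArg (pull swp) X.E1
  rw [map_add, map_smul, map_smul, pull_swp_J, pull_mul, pull_mul, pull_mul, X.swS,
    pull_swp_swp] at h
  have e : X.n * X.n' * (X.S * X.S) = pull swp X.n * X.n * (X.S * X.S) := by
    rw [mul_comm X.n]; rfl
  rw [e]
  exact h

lemma E4' : X.T' = (-1 / 2 : ℝ) • 1 - Jo false X.F := by
  have h := congrArg (pull swp) X.E4F
  rw [map_add, map_smul, pull_swp_J, pull_one, sw_F, map_neg] at h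
  rw [sub_eq_add_neg]
  exact h

/-! parities of the exchanged functions -/
lemma n'0 : pull (rfx r0) X.n' = X.n' := by
  unfold n'; rw [rfx_swp, r0_not, X.n1]
lemma n'1 : pull (rfx r1) X.n' = -X.n' := by
  unfold n'; rw [rfx_swp, r1_not, X.n0, map_neg]
lemma a'0 : pull (rfx r0) X.a' = X.a' := by
  unfold a'; rw [rfx_swp, r0_not, X.a1]
lemma a'1 : pull (rfx r1) X.a' = X.a' := by
  unfold a'; rw [rfx_swp, r1_not, X.a0]
lemma A'0 : pull (rfx r0) X.A' = X.A' := by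
  unfold A'; rw [rfx_swp, r0_not, X.A1]
lemma A'1 : pull (rfx r1) X.A' = -X.A' := by
  unfold A'; rw [rfx_swp, r1_not, X.A0, map_neg]

lemma rfx_rb (f : BB) : pull (rfx rb) f = pull (rfx r0) (pull (rfx r1) f) := by
  ext z
  simp [rfx_apply, rb, r0, r1]

lemma rb_n : pull (rfx rb) X.n = -X.n := by rw [rfx_rb, X.n1, X.n0]
lemma rb_a : pull (rfx rb) X.a = X.a := by rw [rfx_rb, X.a1, X.a0]
lemma rb_a' : pull (rfx rb) X.a' = X.a' := by rw [rfx_rb, X.a'1, X.a'0]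
lemma rb_A : pull (rfx rb) X.A = -X.A := by rw [rfx_rb, X.A1, X.A0]
lemma rb_A' : pull (rfx rb) X.A' = -X.A' := by rw [rfx_rb, X.A'1, map_neg, X.A'0]
lemma rb_S : pull (rfx rb) X.S = X.S := by rw [rfx_rb, X.S1, X.S0]
lemma rb_T' : pull (rfx rb) X.T' = X.T' := by
  unfold T'; rw [rfx_swp, rb_not, X.bT]
lemma rb_F : pull (rfx rb) X.F = -X.F := by
  unfold F
  rw [pull_mul, map_sub, pull_mul, pull_mul, X.rb_A, X.rb_A', X.rb_T', X.bT, X.rb_S]
  ring

/-! zero means -/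
lemma M_g : Mo true (X.n * X.n' * (X.S * X.S)) = 0 := by
  apply oddM
  rw [pull_mul, pull_mul, pull_mul, X.n1, X.n'1, X.S1]
  ring

lemma M_n'S : Mo true (X.n' * X.S) = 0 := by
  apply oddM
  rw [pull_mul, X.n'1, X.S1]
  ring

lemma M'_n : Mo false X.n = 0 := oddM' X.n0
lemma M'_q : Mo false X.q = 0 := oddM' X.q0
lemma M_A' : Mo true X.A' = 0 := oddM X.A'1

lemma M_q : Mo true X.q = X.q := by
  conv_lhs => rw [X.E6]
  rw [Mo_Mo, ← X.E6]

lemma M_A : Mo true X.A = X.q := by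
  have h := congrArg (Mo true) X.E3
  rw [map_sub, Mo_Jo, sub_zero, X.M_q] at h
  exact h

lemma M_F : Mo true X.F = 0 := by
  have h := X.E6
  rw [map_add, map_smul, map_sub, X.M_A] at h
  have e : Mo true (pull swp X.A) = 0 := X.M_A'
  rw [e, sub_zero] at h
  have h2 : (4 : ℝ) • Mo true X.F = 0 := by
    have : (4 : ℝ) • Mo true X.F + X.q = X.q := h.symm
    simpa using this
  exact (smul_eq_zero.mp h2).resolve_left (by norm_num)

lemma M'_F : Mo false X.F = 0 := by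
  have h := congrArg (pull swp) X.M_F
  rw [pull_swp_M, X.sw_F, map_neg, map_zero] at h
  simpa using h

/-! derivatives -/
lemma D2n : Dd true X.n = (2 : ℝ) • (X.n * X.n' * (X.S * X.S)) := by
  have hg : Sm (X.n * X.n' * (X.S * X.S)) := (X.sn'.mul X.sn'').mul (X.sS.mul X.sS)
  have h : X.n = ε • sn + (2 : ℝ) • Jo true (X.n * X.n' * (X.S * X.S)) := X.E1
  conv_lhs => rw [h]
  rw [Dd_add (sm_sn.smul ε) ((hg.J true).smul 2), Dd_smul sm_sn, Dd_true_sn, smul_zero, zero_add,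
    Dd_smul (hg.J true), Dd_Jo_self hg, X.M_g, sub_zero]

lemma D1n' : Dd false X.n' = (2 : ℝ) • (X.n * X.n' * (X.S * X.S)) := by
  unfold n'
  rw [Dd_swp X.sn', Bool.not_false, X.D2n, map_smul, pull_mul, pull_mul, pull_mul, X.swS, sw_n']
  congr 1
  change X.n' * X.n * (X.S * X.S) = X.n * X.n' * (X.S * X.S)
  ring

lemma D2q : Dd true X.q = 0 := by
  have : Sm X.q := X.sq
  rw [← X.M_q]
  exact Dd_Mo_self this true

lemma D2a : Dd true X.a = -(X.n' * X.S) := by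
  have hg : Sm (X.n' * X.S) := X.sn''.mul X.sS
  have h : X.a = 1 + Jo false X.q - Jo true (X.n' * X.S) := X.E2
  conv_lhs => rw [h]
  rw [Dd_sub (sm_one.add (X.sq.J false)) (hg.J true), Dd_add sm_one (X.sq.J false), Dd_one,
    Dd_Jo X.sq, X.D2q, map_zero, Dd_Jo_self hg, X.M_n'S]
  simp

lemma D1a' : Dd false X.a' = -(X.n * X.S) := by
  unfold a'
  rw [Dd_swp X.sa, Bool.not_false, X.D2a, map_neg, pull_mul, X.swS, sw_n']

lemma E5' : X.S * (X.a + X.a') = 1 := X.E5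

lemma D1S (d : Bool) : Dd d X.S = -(X.S * X.S) * (Dd d X.a + Dd d X.a') := by
  have h := congrArg (Dd d) X.E5'
  rw [Dd_mul X.sS (X.sa.add X.sa'), Dd_one, Dd_add X.sa X.sa'] at h
  linear_combination X.S * h - Dd d X.S * X.E5'

lemma D1n'S : Dd false (X.n' * X.S) = (3 : ℝ) • (X.n * X.n' * (X.S * X.S * X.S))
    - X.n' * Dd false X.a * (X.S * X.S) := by
  rw [Dd_mul X.sn'' X.sS, X.D1n', X.D1S, X.D1a']
  have e3 : ∀ x : BB, (3 : ℝ) • x = 3 * x := by
    intro x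
    rw [ofNat_smul_eq_nsmul ℝ 3 x, nsmul_eq_mul]; norm_num
  have e2 : ∀ x : BB, (2 : ℝ) • x = 2 * x := by
    intro x
    rw [ofNat_smul_eq_nsmul ℝ 2 x, nsmul_eq_mul]; norm_num
  rw [e3, e2]
  ring

lemma norm_S_le (hδ : δ ≤ 1 / 100) : ‖X.S‖ ≤ 1 := by
  have h := X.nS
  have h1 : ‖(1 / 2 : ℝ) • (1 : BB)‖ ≤ 1 / 2 := by
    rw [norm_smul, norm_one]; norm_num
  calc ‖X.S‖ = ‖(X.S - (1 / 2 : ℝ) • 1) + (1 / 2 : ℝ) • 1‖ := by rw [sub_add_cancel]
    _ ≤ ‖X.S - (1 / 2 : ℝ) • 1‖ + ‖(1 / 2 : ℝ) • (1 : BB)‖ := norm_add_le _ _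
    _ ≤ 1 := by linarith

lemma norm_n'_le : ‖X.n'‖ ≤ δ := (norm_pull_le _ _).trans X.nn

lemma norm_n'SS_le (hδ : δ ≤ 1 / 100) : ‖X.n' * (X.S * X.S)‖ ≤ 1 := by
  have h1 := X.norm_S_le hδ
  have h2 := X.norm_n'_le
  calc ‖X.n' * (X.S * X.S)‖ ≤ ‖X.n'‖ * (‖X.S‖ * ‖X.S‖) :=
        (norm_mul_le _ _).trans (mul_le_mul_of_nonneg_left (norm_mul_le _ _) (norm_nonneg _))
    _ ≤ 1 * (1 * 1) := by
        apply mul_le_mul (by linarith) _ (by positivity) (by norm_num)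
        exact mul_le_mul h1 h1 (norm_nonneg _) (by norm_num)
    _ = 1 := by norm_num

lemma D1a (hδ : δ ≤ 1 / 100) : Dd false X.a = X.A := by
  have hg : Sm (X.n' * X.S) := X.sn''.mul X.sS
  have h : X.a = 1 + Jo false X.q - Jo true (X.n' * X.S) := X.E2
  have h1 : Dd false X.a = X.q - Jo true ((3 : ℝ) • (X.n * X.n' * (X.S * X.S * X.S))
    - X.n' * Dd false X.a * (X.S * X.S)) := by
    conv_lhs => rw [h]
    rw [Dd_sub (sm_one.add (X.sq.J false)) (hg.J true), Dd_add sm_one (X.sq.J false), Dd_one,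
      Dd_Jo_self X.sq, X.M'_q, Dd_Jo hg, X.D1n'S]
    simp
  have h2 : X.A = X.q - Jo true ((3 : ℝ) • (X.n * X.n' * (X.S * X.S * X.S))
    - X.n' * X.A * (X.S * X.S)) := X.E3
  have h3 : X.A - Dd false X.a = Jo true (X.n' * (X.S * X.S) * (X.A - Dd false X.a)) := by
    have e : X.n' * (X.S * X.S) * (X.A - Dd false X.a)
        = ((3 : ℝ) • (X.n * X.n' * (X.S * X.S * X.S)) - X.n' * Dd false X.a * (X.S * X.S))
          - ((3 : ℝ) • (X.n * X.n' * (X.S * X.S * X.S)) - X.n' * X.A * (X.S * X.S)) := by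
      ring
    rw [e, map_sub]
    linear_combination h2 - h1
  have h4 := zero_of_fix (X.norm_n'SS_le hδ) h3
  exact (sub_eq_zero.mp h4).symm

lemma D2a' (hδ : δ ≤ 1 / 100) : Dd true X.a' = X.A' := by
  unfold a'
  rw [Dd_swp X.sa, Bool.not_true, X.D1a hδ]
  rfl

lemma D2T : Dd true X.T = X.F := by
  conv_lhs => rw [X.E4F]
  rw [Dd_add (sm_one.smul _) (X.sF.J true), Dd_smul sm_one, Dd_one, smul_zero, zero_add,
    Dd_Jo_self X.sF, X.M_F, sub_zero]

lemma D1T' : Dd false X.T' = -X.F := by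
  unfold T'
  rw [Dd_swp X.sT, Bool.not_false, X.D2T, X.sw_F]

end SolI

end NewtonInf
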