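import Pool.Agent.Helper289.Newton.N8

open MeasureTheory Set Filter Topology
open scoped ContDiff

namespace NewtonInf

lemma Jo_rfx (r : Bool → Bool) (d : Bool) (f : BB) :
    pull (rfx r) (Jo d f) = sg (r d) • Jo d (pull (rfx r) f) := pull_rfx_J r d f

lemma D_Mo_zero {f : BB} (hf : Sm f) (d : Bool) : Dd d (Mo d f) = 0 := Dd_Mo_self hf d

lemma pull_sw_sn_rfx (r : Bool → Bool) : pull (rfx r) (pull swp sn) = sg (r true) • pull swp sn := by
  rw [rfx_swp, sn_rfx, map_smul, Bool.not_false]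

lemma Dd_false_snp : Dd false (pull swp sn) = 0 := by
  rw [Dd_swp sm_sn, Bool.not_false, Dd_true_sn, map_zero]

lemma Mo_snp : Mo true (pull swp sn) = 0 := by
  apply oddM
  rw [pull_sw_sn_rfx]
  simp [sg, r1]

/-- total mean is a constant function -/
lemma MoMo_const (f : BB) : ∃ c : ℝ, Mo true (Mo false f) = c • 1 := by
  refine ⟨Mo true (Mo false f) 0, ?_⟩
  ext z
  rw [ContinuousMap.smul_apply, ContinuousMap.one_apply, smul_eq_mul, mul_one]
  obtain ⟨x, y⟩ := z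
  induction x using QuotientAddGroup.induction_on with | _ x
  induction y using QuotientAddGroup.induction_on with | _ y
  have h1 : ∀ (w : TT) (s : ℝ), Mo true (Mo false f) (w + dir true s) = Mo true (Mo false f) w :=
    fun w s => congrArg (fun g : BB => g w) (pull_shf_Mo true s _)
  have h2 : ∀ (w : TT) (s : ℝ), Mo true (Mo false f) (w + dir false s) = Mo true (Mo false f) w := by
    intro w s
    rw [Mo_Mo_comm]
    exact congrArg (fun g : BB => g w) (pull_shf_Mo false s _)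
  have e : (((x : UnitAddCircle), (y : UnitAddCircle)) : TT) = (0 + dir false x) + dir true y := by
    simp [dir]
  exact (congrArg (Mo true (Mo false f)) e).trans ((h1 _ _).trans (h2 _ _))

namespace SolI

variable {ε δ : ℝ} (X : SolI ε δ)

/-- potential -/
noncomputable def v0 : BB := Jo false X.n + ε • Jo true (pull swp sn)
noncomputable def v : BB := (1 / 2 : ℝ) • (X.v0 + pull swp X.v0)

lemma sv0 : Sm X.v0 := (X.sn'.J false).add ((sm_sn.swp.J true).smul ε)
lemma sv : Sm X.v := (X.sv0.add X.sv0.swp).smul _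

lemma D1v0 : Dd false X.v0 = X.n := by
  unfold v0
  rw [Dd_add (X.sn'.J false) ((sm_sn.swp.J true).smul ε), Dd_Jo_self X.sn', X.M'_n,
    Dd_smul (sm_sn.swp.J true), Dd_Jo sm_sn.swp, Dd_false_snp]
  simp

lemma D2v0 : Dd true X.v0 = X.n' := by
  unfold v0
  rw [Dd_add (X.sn'.J false) ((sm_sn.swp.J true).smul ε), Dd_Jo X.sn', X.D2n, map_smul,
    Dd_smul (sm_sn.swp.J true), Dd_Jo_self sm_sn.swp, Mo_snp, sub_zero, add_comm]
  exact X.E1'.symm

lemma D1v : Dd false X.v = X.n := by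
  unfold v
  rw [Dd_smul (X.sv0.add X.sv0.swp), Dd_add X.sv0 X.sv0.swp, X.D1v0, Dd_swp X.sv0, Bool.not_false,
    X.D2v0, X.sw_n', ← two_smul ℝ, smul_smul]
  norm_num

lemma D2v : Dd true X.v = X.n' := by
  unfold v
  rw [Dd_smul (X.sv0.add X.sv0.swp), Dd_add X.sv0 X.sv0.swp, X.D2v0, Dd_swp X.sv0, Bool.not_true,
    X.D1v0, X.sw_n, ← two_smul ℝ, smul_smul]
  norm_num

lemma v_sw : pull swp X.v = X.v := by
  unfold v
  rw [map_smul, map_add, pull_swp_swp, add_comm]

lemma v0_rfx (r : Bool → Bool) (h : pull (rfx r) X.n = sg (r false) • X.n) :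
    pull (rfx r) X.v0 = X.v0 := by
  unfold v0
  rw [map_add, map_smul, Jo_rfx, Jo_rfx, h, pull_sw_sn_rfx, map_smul, map_smul, smul_smul,
    sg_mul_self, one_smul, smul_smul (sg (r true)), sg_mul_self, one_smul]

lemma v_r0 : pull (rfx r0) X.v = X.v := by
  unfold v
  rw [map_smul, map_add, rfx_swp, r0_not, X.v0_rfx r0 (by rw [X.n0]; simp [sg, r0]),
    X.v0_rfx r1 (by rw [X.n1]; simp [sg, r1])]

lemma v_r1 : pull (rfx r1) X.v = X.v := by
  unfold v
  rw [map_smul, map_add, rfx_swp, r1_not, X.v0_rfx r0 (by rw [X.n0]; simp [sg, r0]),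
    X.v0_rfx r1 (by rw [X.n1]; simp [sg, r1])]

/-- periodic part of `t` -/
noncomputable def th : BB := Jo false (Jo true X.F)

lemma sth : Sm X.th := (X.sF.J true).J false

lemma D1th : Dd false X.th = X.T + (1 / 2 : ℝ) • 1 := by
  unfold th
  rw [Dd_Jo_self (X.sF.J true), Mo_Jo_comm, X.M'_F, map_zero, sub_zero]
  rw [X.E4F]
  module

lemma D2th : Dd true X.th = -(X.T' + (1 / 2 : ℝ) • 1) := by
  unfold th
  rw [Dd_Jo (X.sF.J true), Dd_Jo_self X.sF, X.M_F, sub_zero, X.E4']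
  module

lemma th_sw : pull swp X.th = - X.th := by
  unfold th
  rw [pull_swp_J, pull_swp_J, X.sw_F, map_neg, map_neg, Jo_Jo_comm]
  rfl

lemma th_rb : pull (rfx rb) X.th = - X.th := by
  unfold th
  rw [Jo_rfx, Jo_rfx, X.rb_F, map_neg, map_smul, map_neg]
  simp [sg, rb]

/-- periodic part of `u`, not yet symmetrised -/
noncomputable def up0 : BB := -Jo false (X.a' * X.T) - Jo true (Mo false (X.a * X.T'))

lemma sm_a'T : Sm (X.a' * X.T) := X.sa'.mul X.sT
lemma sm_aT' : Sm (X.a * X.T') := X.sa.mul X.sT'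

lemma sup0 : Sm X.up0 := (X.sm_a'T.J false).neg.sub ((X.sm_aT'.M false).J true)

lemma F_eq : X.F * (X.a + X.a') = X.A * X.T' - X.A' * X.T := by
  unfold F
  linear_combination (X.A * X.T' - X.A' * X.T) * X.E5'

lemma closed (hδ : δ ≤ 1 / 100) : Dd true (X.a' * X.T) = Dd false (X.a * X.T') := by
  rw [Dd_mul X.sa' X.sT, Dd_mul X.sa X.sT', X.D2a' hδ, X.D2T, X.D1a hδ, X.D1T']
  linear_combination X.F_eq

lemma mean_const (hδ : δ ≤ 1 / 100) : Mo false (X.a' * X.T) = Mo true (Mo false (X.a' * X.T)) := by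
  apply sub_Mo_zero (X.sm_a'T.M false)
  rw [Dd_Mo X.sm_a'T, X.closed hδ, Mo_Dd_self X.sm_aT']

/-- the mean of `a' T` -/
noncomputable def cc : ℝ := (MoMo_const (X.a' * X.T)).choose

lemma cc_spec : Mo true (Mo false (X.a' * X.T)) = X.cc • 1 := (MoMo_const (X.a' * X.T)).choose_spec

lemma sw_a'T : pull swp (X.a' * X.T) = X.a * X.T' := by
  rw [pull_mul, X.sw_a']; rfl

lemma cc_spec' : Mo true (Mo false (X.a * X.T')) = X.cc • 1 := by
  have h := congrArg (pull swp) X.cc_spec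
  rw [pull_swp_M, pull_swp_M, X.sw_a'T, map_smul, pull_one] at h
  rw [Mo_Mo_comm]
  exact h

lemma D1up0 (hδ : δ ≤ 1 / 100) : Dd false X.up0 = -(X.a' * X.T) + X.cc • 1 := by
  unfold up0
  rw [Dd_sub (X.sm_a'T.J false).neg ((X.sm_aT'.M false).J true), Dd_neg, Dd_Jo_self X.sm_a'T,
    Dd_Jo (X.sm_aT'.M false), Dd_Mo_self X.sm_aT', map_zero, X.mean_const hδ, X.cc_spec]
  module

lemma D2up0 (hδ : δ ≤ 1 / 100) : Dd true X.up0 = -(X.a * X.T') + X.cc • 1 := by
  unfold up0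
  rw [Dd_sub (X.sm_a'T.J false).neg ((X.sm_aT'.M false).J true), Dd_neg, Dd_Jo X.sm_a'T,
    X.closed hδ, Jo_Dd X.sm_aT', Dd_Jo_self (X.sm_aT'.M false), X.cc_spec']
  module

/-- periodic part of `u` -/
noncomputable def up : BB := (1 / 2 : ℝ) • (X.up0 + pull swp X.up0)

lemma sup : Sm X.up := (X.sup0.add X.sup0.swp).smul _

lemma D1up (hδ : δ ≤ 1 / 100) : Dd false X.up = -(X.a' * X.T) + X.cc • 1 := by
  unfold up
  rw [Dd_smul (X.sup0.add X.sup0.swp), Dd_add X.sup0 X.sup0.swp, X.D1up0 hδ, Dd_swp X.sup0,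
    Bool.not_false, X.D2up0 hδ, map_add, map_neg, map_smul, pull_one, pull_mul]
  have : pull swp X.a * pull swp X.T' = X.a' * X.T := by rw [X.sw_T']; rfl
  rw [this]
  module

lemma D2up (hδ : δ ≤ 1 / 100) : Dd true X.up = -(X.a * X.T') + X.cc • 1 := by
  unfold up
  rw [Dd_smul (X.sup0.add X.sup0.swp), Dd_add X.sup0 X.sup0.swp, X.D2up0 hδ, Dd_swp X.sup0,
    Bool.not_true, X.D1up0 hδ, map_add, map_neg, map_smul, pull_one, X.sw_a'T]
  module

lemma up_sw : pull swp X.up = X.up := by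
  unfold up
  rw [map_smul, map_add, pull_swp_swp, add_comm]

lemma up0_rb : pull (rfx rb) X.up0 = -X.up0 := by
  unfold up0
  rw [map_sub, map_neg, Jo_rfx, Jo_rfx, pull_rfx_M, pull_mul, pull_mul, X.rb_a', X.bT, X.rb_a,
    X.rb_T']
  simp [sg, rb]
  abel

lemma up_rb : pull (rfx rb) X.up = -X.up := by
  unfold up
  rw [map_smul, map_add, rfx_swp, rb_not, X.up0_rb, map_neg]
  module

end SolI

end NewtonInf
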